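import Pool.Agent.GL33.Defs

/-!
# GL33/Rad: products of primes

Proofs. `radT_empty`: a prime of `prs z` divides `∏ z i`, hence some `z i`, so its pattern is not
empty: the product is empty. `prod_le_pow`: the product divides `|∏ z i|`
(`Nat.prod_primeFactors_dvd`, product over a subset; all factors are `≥ 1`), and `|∏ z i| ≤ B ^ n`; see
`H4Cnt.cost_le` for the same argument. `prod_filter_pat`: `Finset.prod_fiberwise_of_maps_to` or
`Finset.prod_biUnion`. `Cls.prod_le`: the product over `P` is at most the product over all primes of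
`prs z` with pattern in `𝒜`, which is `∏ T ∈ 𝒜, radT z T < ∏ 2 * R T`. `exp_rho`: `Real.exp_sum`,
`Real.exp_log` (`R T ≥ 1`). `rho_nonneg`: `log (2 R) ≥ 0`. `Cls.rho_eq`: sum over a subset and its
complement.
-/

namespace Pool.Agent.GL33

open Finset H4Cnt

variable {n : ℕ} {z : Fin n → ℤ} {P : Finset ℕ} {B : ℕ} {X : Finset (Fin n → ℤ)}
  {R : Finset (Fin n) → ℕ}

theorem radT_pos (z : Fin n → ℤ) (T : Finset (Fin n)) : 0 < radT z T := by
  unfold radT
  apply prod_pos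
  intro p hp
  rw [mem_filter] at hp
  exact (prs_prime z p hp.1).pos

theorem radT_empty (hn : 2 ≤ n) (hz : IsPt z) : radT z ∅ = 1 := by
  unfold radT
  rw [filter_eq_empty_iff.2, prod_empty]
  intro p hp h
  have hpp := prs_prime z p hp
  unfold prs at hp
  rw [Nat.mem_primeFactors] at hp
  have h1 : (p : ℤ) ∣ ∏ i, z i := by
    rw [Int.natCast_dvd]
    exact hp.2.1
  obtain ⟨i, -, hi⟩ := (Prime.dvd_finsetProd_iff (Nat.prime_iff_prime_int.1 hpp) _).1 h1
  have : i ∈ pat z p := by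
    rw [pat, mem_filter]
    exact ⟨mem_univ _, hi⟩
  rw [h] at this
  simp at this

theorem prod_pos_of_sub (hP : P ⊆ prs z) : 0 < ∏ p ∈ P, p :=
  prod_pos fun p hp => (prs_prime z p (hP hp)).pos

theorem prod_le_pow (hn : 2 ≤ n) (hz : IsPt z) (hB : ∀ i, |z i| ≤ B) (hP : P ⊆ prs z) :
    ∏ p ∈ P, p ≤ B ^ n := by
  have h0 : (∏ i, z i).natAbs ≠ 0 := by
    rw [Int.natAbs_ne_zero]
    exact prod_ne_zero_iff.2 fun i _ => hz.ne_zero hn i
  have h1 : ∏ p ∈ P, p ≤ ∏ p ∈ prs z, p := by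
    apply prod_le_prod_of_subset_of_one_le' hP
    intro p hp _
    exact (prs_prime z p hp).pos
  have h2 : ∏ p ∈ prs z, p ≤ (∏ i, z i).natAbs :=
    Nat.le_of_dvd (Nat.pos_of_ne_zero h0) (Nat.prod_primeFactors_dvd _)
  refine (h1.trans h2).trans ?_
  have h3 : (∏ i, z i).natAbs = ∏ i, (z i).natAbs := map_prod Int.natAbsHom z univ
  rw [h3]
  calc ∏ i, (z i).natAbs ≤ ∏ _i : Fin n, B := by
        apply prod_le_prod'
        intro i _
        zify
        exact hB i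
    _ = B ^ n := by rw [prod_const, card_univ, Fintype.card_fin]

theorem prod_filter_pat (z : Fin n → ℤ) (𝒜 : Finset (Finset (Fin n))) :
    ∏ p ∈ prs z with pat z p ∈ 𝒜, p = ∏ T ∈ 𝒜, radT z T := by
  unfold radT
  rw [← prod_fiberwise_of_maps_to (s := (prs z).filter fun p => pat z p ∈ 𝒜) (t := 𝒜)
    (g := fun p => pat z p) (fun p hp => (mem_filter.1 hp).2)]
  apply prod_congr rfl
  intro T hT
  apply prod_congr _ fun _ _ => rfl
  ext p
  simp only [mem_filter]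
  constructor
  · rintro ⟨⟨h1, h2⟩, h3⟩
    exact ⟨h1, h3⟩
  · rintro ⟨h1, h3⟩
    exact ⟨⟨h1, h3 ▸ hT⟩, h3⟩

theorem Cls.prod_le (hX : Cls B X R) (hz : z ∈ X) (𝒜 : Finset (Finset (Fin n)))
    (hP : P ⊆ prs z) (hP' : ∀ p ∈ P, pat z p ∈ 𝒜) : ∏ p ∈ P, p ≤ ∏ T ∈ 𝒜, 2 * R T := by
  calc ∏ p ∈ P, p ≤ ∏ p ∈ prs z with pat z p ∈ 𝒜, p := by
        apply prod_le_prod_of_subset_of_one_le'
        · intro p hp
          rw [mem_filter]
          exact ⟨hP hp, hP' p hp⟩
        · intro p hp _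
          exact (prs_prime z p (mem_filter.1 hp).1).pos
    _ = ∏ T ∈ 𝒜, radT z T := prod_filter_pat z 𝒜
    _ ≤ ∏ T ∈ 𝒜, 2 * R T := prod_le_prod' fun T _ => (hX.rad z hz T).2.le

theorem exp_rho (hR : ∀ T, 1 ≤ R T) : Real.exp (rho R) = ((∏ T, 2 * R T : ℕ) : ℝ) := by
  unfold rho
  rw [Real.exp_sum, Nat.cast_prod]
  apply prod_congr rfl
  intro T _
  have h : (1 : ℝ) ≤ R T := by exact_mod_cast hR T
  rw [Real.exp_log (by positivity)]
  push_cast
  rfl

theorem log_prod (hR : ∀ T, 1 ≤ R T) (𝒜 : Finset (Finset (Fin n))) :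
    Real.log ((∏ T ∈ 𝒜, 2 * R T : ℕ) : ℝ) = ∑ T ∈ 𝒜, Real.log (2 * (R T : ℝ)) := by
  rw [Nat.cast_prod, Real.log_prod]
  · apply sum_congr rfl
    intro T _
    push_cast
    rfl
  · intro T _
    have := hR T
    have h : 2 * R T ≠ 0 := by omega
    exact_mod_cast h

theorem log_R_nonneg (hR : ∀ T, 1 ≤ R T) (T : Finset (Fin n)) :
    0 ≤ Real.log (2 * (R T : ℝ)) := by
  apply Real.log_nonneg
  have h : (1 : ℝ) ≤ R T := by exact_mod_cast hR T
  linarith

theorem rho_nonneg (hR : ∀ T, 1 ≤ R T) : 0 ≤ rho R := by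
  unfold rho
  exact sum_nonneg fun T _ => log_R_nonneg hR T

/-- The `T`-term against the others. -/
theorem rho_erase (R : Finset (Fin n) → ℕ) (T : Finset (Fin n)) :
    rho R = Real.log (2 * (R T : ℝ)) + ∑ T' ∈ univ.erase T, Real.log (2 * (R T' : ℝ)) := by
  unfold rho
  rw [add_sum_erase univ (fun T => Real.log (2 * (R T : ℝ))) (mem_univ T)]

end Pool.Agent.GL33
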