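import Pool.Agent.GL33.Part
import Pool.Agent.GL33.Rad

/-!
# GL33/Vecs: counting vectors composed of few primes

Proofs. `card_vecs_le`: `Finset.card_biUnion_le`, `Fintype.card_piFinset`: for `1 ≤ q ≤ B ^ n ≤
B ^ expo n` the set `smoothN q B` has at most `K` elements. `part_mem_vecs`: take
`q = ∏ p ∈ P, p ≤ B ^ n` (`prod_le_pow`); `part z P i ≤ B` (`part_le`), its primes are in `P`
(`dvd_part_iff`) hence divide `q`. `card_of_dvd`: `S ⊆ Fintype.piFinset fun _ => smoothN E B`.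
-/

namespace Pool.Agent.GL33

open Finset H4Cnt

variable {n B : ℕ} {K : ℝ}

theorem n_le_expo (n : ℕ) : n ≤ expo n := by
  unfold expo
  rcases Nat.eq_zero_or_pos n with h | h
  · subst h
    simp
  · have h1 : n ^ 1 ≤ n ^ (n + 1) := Nat.pow_le_pow_right h (by omega)
    rw [pow_one] at h1
    omega

theorem card_vecs_le (hB : 1 ≤ B) (hK : KB n B K) (Q : ℕ) :
    ((vecs n Q B).card : ℝ) ≤ Q * K ^ n := by
  classical
  have hK0 : (0 : ℝ) ≤ K ^ n := pow_nonneg (le_trans zero_le_one hK.1) n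
  unfold vecs
  have h1 : ((((Icc 1 (min Q (B ^ n))).biUnion fun q =>
      Fintype.piFinset fun _ : Fin n => smoothN q B).card : ℕ) : ℝ) ≤
      ∑ q ∈ Icc 1 (min Q (B ^ n)), (((Fintype.piFinset fun _ : Fin n => smoothN q B).card : ℕ) : ℝ) := by
    exact_mod_cast card_biUnion_le
  refine h1.trans ?_
  have h2 : ∑ q ∈ Icc 1 (min Q (B ^ n)),
      (((Fintype.piFinset fun _ : Fin n => smoothN q B).card : ℕ) : ℝ) ≤
      ∑ _q ∈ Icc 1 (min Q (B ^ n)), K ^ n := by
    apply sum_le_sum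
    intro q hq
    rw [mem_Icc] at hq
    rw [Fintype.card_piFinset, prod_const, card_univ, Fintype.card_fin]
    push_cast
    apply pow_le_pow_left₀ (by positivity)
    apply hK.2 q (by omega)
    refine (hq.2.trans (min_le_right _ _)).trans ?_
    exact Nat.pow_le_pow_right hB (n_le_expo n)
  refine h2.trans ?_
  rw [sum_const, nsmul_eq_mul, Nat.card_Icc]
  apply mul_le_mul_of_nonneg_right _ hK0
  have : min Q (B ^ n) + 1 - 1 ≤ Q := by
    have := min_le_left Q (B ^ n)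
    omega
  exact_mod_cast this

theorem part_mem_vecs (hn : 2 ≤ n) {z : Fin n → ℤ} (hz : IsPt z) (hB : ∀ i, |z i| ≤ B)
    {P : Finset ℕ} (hP : P ⊆ prs z) {Q : ℕ} (hQ : ∏ p ∈ P, p ≤ Q) : part z P ∈ vecs n Q B := by
  classical
  unfold vecs
  rw [mem_biUnion]
  refine ⟨∏ p ∈ P, p, ?_, ?_⟩
  · rw [mem_Icc]
    exact ⟨prod_pos_of_sub hP, le_min hQ (prod_le_pow hn hz hB hP)⟩
  · rw [Fintype.mem_piFinset]
    intro i
    rw [mem_smoothN]
    refine ⟨⟨part_pos hP i, part_le hn hz hP hB i⟩, ?_⟩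
    intro p hp h
    exact dvd_prod_of_mem (fun p => p) ((dvd_part_iff hn hz hP hp i).1 h).1

theorem card_of_dvd (hK : KB n B K) {E : ℕ} (hE : 0 < E) (hE' : E ≤ B ^ expo n)
    (S : Finset (Fin n → ℕ)) (hS : ∀ v ∈ S, ∀ i, 0 < v i ∧ v i ≤ B ∧
      ∀ p : ℕ, p.Prime → p ∣ v i → p ∣ E) : (S.card : ℝ) ≤ K ^ n := by
  classical
  have h1 : S ⊆ Fintype.piFinset fun _ : Fin n => smoothN E B := by
    intro v hv
    rw [Fintype.mem_piFinset]
    intro i
    rw [mem_smoothN]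
    obtain ⟨h1, h2, h3⟩ := hS v hv i
    exact ⟨⟨h1, h2⟩, h3⟩
  have h2 := card_le_card h1
  rw [Fintype.card_piFinset, prod_const, card_univ, Fintype.card_fin] at h2
  have h3 : ((S.card : ℕ) : ℝ) ≤ ((smoothN E B).card : ℝ) ^ n := by exact_mod_cast h2
  refine h3.trans ?_
  exact pow_le_pow_left₀ (by positivity) (hK.2 E hE hE') n

end Pool.Agent.GL33
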