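import Pool.Agent.GL33.PartEq
import Pool.Agent.GL33.Vecs

/-!
# GL33/Fact0: one pattern is determined by the others

Claim: `|X| ≤ (∏ T' ≠ T, 2 R T') * K ^ (2 n)`.

Proof. Let `P z = {p ∈ prs z | pat z p ≠ T}` (a subset of `prs z`), `c z = part z (P z)`.
(1) By `Cls.prod_le` (with `𝒜 = univ.erase T`) `∏ p ∈ P z, p ≤ Q := ∏ T' ≠ T, 2 R T'`, so
`c z ∈ vecs n Q B` (`part_mem_vecs`) and `card_vecs_le`: at most `Q * K ^ n` values of `c`.
(2) Let `c z = c z'` be fixed, `F` the set of these `z ∈ X`. The map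
`z ↦ part z (prs z \ P z)` is injective on `F` (`eq_of_sdiff`). We show that it takes at most `K ^ n`
values, by `card_of_dvd`. The primes of `prs z \ P z` have pattern `T`. If `T = ∅` or `T = univ` there
are none (`H4Cnt.pat_ne_univ`; a prime of `prs z` divides some `z i`), so all entries are `1`: take
`E = 1`. Otherwise let `E = |∑ i ∉ T, z i|`, not `0` by `IsPt.sub`; for `i ∉ T` no prime of pattern `T`
divides `z i`, so `part z (prs z \ P z) i = 1` and `|z i| = c z i` (`part_mul_sdiff`, `part_prs`); as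
the signs are the same on `X`, `E` is the same for all `z ∈ F`. A prime `p` of
`part z (prs z \ P z) i` has pattern `T` (`dvd_part_iff`), so it divides all `z i`, `i ∈ T`, and
`∑ i ∉ T, z i = - ∑ i ∈ T, z i`, so `p ∣ E`. `E ≤ n * B ≤ B ^ 2 ≤ B ^ expo n`.
(3) `|X| ≤ Q K ^ n * K ^ n` (`Finset.card_le_mul_card_image`). Take logarithms: `log Q =
∑ T' ≠ T, log (2 R T')` (`log_prod`), `rho_erase`.
-/

namespace Pool.Agent.GL33

open Finset H4Cnt

variable {n B : ℕ} {K : ℝ} {X : Finset (Fin n → ℤ)} {R : Finset (Fin n) → ℕ}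

/-- the primes whose pattern is not `T` -/
private def PT (T : Finset (Fin n)) (z : Fin n → ℤ) : Finset ℕ :=
  (prs z).filter fun p => pat z p ≠ T

private theorem PT_sub (T : Finset (Fin n)) (z : Fin n → ℤ) : PT T z ⊆ prs z :=
  Finset.filter_subset _ _

private theorem mem_sdiff_PT {T : Finset (Fin n)} {z : Fin n → ℤ} {p : ℕ} :
    p ∈ prs z \ PT T z ↔ p ∈ prs z ∧ pat z p = T := by
  unfold PT
  rw [Finset.mem_sdiff, Finset.mem_filter]
  constructor
  · rintro ⟨h1, h2⟩
    refine ⟨h1, ?_⟩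
    by_contra h
    exact h2 ⟨h1, h⟩
  · rintro ⟨h1, h2⟩
    exact ⟨h1, fun h => h.2 h2⟩

private theorem fibre_card (hn : 2 ≤ n) (hB : n ≤ B) (hK : KB n B K) (hX : Cls B X R)
    (T : Finset (Fin n)) (v : Fin n → ℕ) :
    ((X.filter fun z => part z (PT T z) = v).card : ℝ) ≤ K ^ n := by
  classical
  have hB1 : 1 ≤ B := by omega
  set F := X.filter fun z => part z (PT T z) = v with hF
  have hFX : ∀ z ∈ F, z ∈ X := fun z hz => (Finset.mem_filter.1 hz).1
  have hFv : ∀ z ∈ F, part z (PT T z) = v := fun z hz => (Finset.mem_filter.1 hz).2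
  -- the complementary part is injective
  have hinj : Set.InjOn (fun z => part z (prs z \ PT T z)) (F : Set (Fin n → ℤ)) := by
    intro z hz z' hz' h
    have hz1 : z ∈ F := hz
    have hz1' : z' ∈ F := hz'
    exact eq_of_sdiff hn hX.pts (hFX z hz1) (hFX z' hz1') (PT_sub T z) (PT_sub T z')
      ((hFv z hz1).trans (hFv z' hz1').symm) h
  have hcard : F.card = (F.image fun z => part z (prs z \ PT T z)).card :=
    (Finset.card_image_of_injOn hinj).symm
  rw [hcard]
  rcases Finset.eq_empty_or_nonempty F with he | ⟨z₀, hz₀⟩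
  · rw [he, Finset.image_empty, Finset.card_empty, Nat.cast_zero]
    have := hK.1
    positivity
  have hpos : ∀ w ∈ F.image fun z => part z (prs z \ PT T z), ∀ i, 0 < w i ∧ w i ≤ B := by
    intro w hw i
    obtain ⟨z, hz, rfl⟩ := Finset.mem_image.1 hw
    exact ⟨part_pos Finset.sdiff_subset i, part_le hn (hX.pts.pt z (hFX z hz))
      Finset.sdiff_subset (hX.pts.le z (hFX z hz)) i⟩
  -- a prime of the complementary part
  have hprime : ∀ z ∈ F, ∀ (i : Fin n) (p : ℕ), p.Prime → p ∣ part z (prs z \ PT T z) i →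
      pat z p = T ∧ (p : ℤ) ∣ z i := by
    intro z hz i p hp hd
    have h1 := (dvd_part_iff hn (hX.pts.pt z (hFX z hz)) Finset.sdiff_subset hp i).1 hd
    exact ⟨(mem_sdiff_PT.1 h1.1).2, h1.2⟩
  by_cases hT : T = ∅ ∨ T = univ
  · -- there are no primes
    refine card_of_dvd hK (E := 1) Nat.one_pos (Nat.one_le_pow _ _ (by omega)) _ ?_
    intro w hw i
    refine ⟨(hpos w hw i).1, (hpos w hw i).2, ?_⟩
    intro p hp hd
    exfalso
    obtain ⟨z, hz, rfl⟩ := Finset.mem_image.1 hw
    obtain ⟨h1, h2⟩ := hprime z hz i p hp hd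
    rcases hT with h | h
    · have h3 : i ∈ pat z p := by
        unfold H4Cnt.pat
        exact Finset.mem_filter.2 ⟨Finset.mem_univ _, h2⟩
      rw [h1, h] at h3
      exact Finset.notMem_empty i h3
    · exact pat_ne_univ (hX.pts.pt z (hFX z hz)) p hp (h1.trans h)
  · have hT1 : T ≠ ∅ := fun h => hT (Or.inl h)
    have hT2 : T ≠ univ := fun h => hT (Or.inr h)
    have hne : (Tᶜ).Nonempty := by
      rw [Finset.nonempty_iff_ne_empty]
      intro h
      exact hT2 (Finset.compl_eq_empty_iff T |>.1 h)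
    have hne' : Tᶜ ≠ univ := by
      intro h
      exact hT1 (Finset.compl_eq_univ_iff T |>.1 h)
    -- the entries outside `T` are constant
    have hconst : ∀ z ∈ F, ∀ i, i ∉ T → (z i).natAbs = v i := by
      intro z hz i hi
      have hzp := hX.pts.pt z (hFX z hz)
      have h1 : part z (prs z \ PT T z) i = 1 := by
        by_contra h
        obtain ⟨p, hp, hpd⟩ := Nat.exists_prime_and_dvd h
        obtain ⟨h2, h3⟩ := hprime z hz i p hp hpd
        apply hi
        rw [← h2]
        unfold H4Cnt.pat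
        exact Finset.mem_filter.2 ⟨Finset.mem_univ _, h3⟩
      have h2 := part_mul_sdiff (z := z) (PT_sub T z) i
      rw [h1, mul_one, part_prs hn hzp, hFv z hz] at h2
      exact h2.symm
    have hsame : ∀ z ∈ F, ∀ i, i ∉ T → z i = z₀ i := by
      intro z hz i hi
      have h1 := hX.pts.sign z (hFX z hz) z₀ (hFX z₀ hz₀) i
      have h2 := hconst z hz i hi
      have h3 := hconst z₀ hz₀ i hi
      rw [← Int.sign_mul_natAbs (z i), ← Int.sign_mul_natAbs (z₀ i), h1, h2, h3]
    have hE0 : (∑ i ∈ Tᶜ, z₀ i).natAbs ≠ 0 := by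
      rw [Int.natAbs_ne_zero]
      exact (hX.pts.pt z₀ (hFX z₀ hz₀)).sub Tᶜ hne hne'
    have hEle : (∑ i ∈ Tᶜ, z₀ i).natAbs ≤ B ^ expo n := by
      have h1 : (∑ i ∈ Tᶜ, z₀ i).natAbs ≤ n * B := by
        zify
        refine (Finset.abs_sum_le_sum_abs _ _).trans ?_
        calc ∑ i ∈ Tᶜ, |z₀ i| ≤ ∑ _i ∈ Tᶜ, (B : ℤ) :=
              Finset.sum_le_sum fun i _ => hX.pts.le z₀ (hFX z₀ hz₀) i
          _ = ((Tᶜ).card : ℤ) * B := by rw [Finset.sum_const, nsmul_eq_mul]
          _ ≤ (n : ℤ) * B := by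
              refine mul_le_mul_of_nonneg_right ?_ (by positivity)
              have := Finset.card_le_univ (Tᶜ)
              rw [Fintype.card_fin] at this
              exact_mod_cast this
      have h2 : n * B ≤ B ^ 2 := by
        rw [pow_two]
        exact Nat.mul_le_mul_right B hB
      have h3 : B ^ 2 ≤ B ^ expo n := Nat.pow_le_pow_right (by omega) (hn.trans (n_le_expo n))
      exact h1.trans (h2.trans h3)
    refine card_of_dvd hK (Nat.pos_of_ne_zero hE0) hEle _ ?_
    intro w hw i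
    refine ⟨(hpos w hw i).1, (hpos w hw i).2, ?_⟩
    intro p hp hd
    obtain ⟨z, hz, rfl⟩ := Finset.mem_image.1 hw
    obtain ⟨h1, -⟩ := hprime z hz i p hp hd
    have hzp := hX.pts.pt z (hFX z hz)
    have h2 : (p : ℤ) ∣ ∑ j ∈ T, z j := by
      refine Finset.dvd_sum fun j hj => ?_
      rw [← h1] at hj
      unfold H4Cnt.pat at hj
      exact (Finset.mem_filter.1 hj).2
    have h3 : ∑ j ∈ T, z j + ∑ j ∈ Tᶜ, z j = 0 := by
      rw [Finset.sum_add_sum_compl]
      exact hzp.sum
    have h4 : ∑ j ∈ Tᶜ, z j = ∑ j ∈ Tᶜ, z₀ j :=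
      Finset.sum_congr rfl fun j hj => hsame z hz j (Finset.mem_compl.1 hj)
    rw [← Int.natCast_dvd]
    have h5 : ∑ j ∈ Tᶜ, z₀ j = -∑ j ∈ T, z j := by
      rw [← h4]; linarith
    rw [h5]
    exact (dvd_neg).2 h2

theorem fact0 (hn : 2 ≤ n) (hB : n ≤ B) (hK : KB n B K) (hX : Cls B X R) (hne : X.Nonempty)
    (T : Finset (Fin n)) :
    Real.log (2 * (R T : ℝ)) ≤ rho R - Real.log X.card + 2 * n * Real.log K := by
  classical
  have hB1 : 1 ≤ B := by omega
  have hK0 : 0 < K := lt_of_lt_of_le one_pos hK.1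
  set Q : ℕ := ∏ T' ∈ univ.erase T, 2 * R T' with hQ
  have hQ0 : 0 < Q := Finset.prod_pos fun T' _ => by
    have := hX.one_le T'
    omega
  have h1 : ((X.image fun z => part z (PT T z)).card : ℝ) ≤ Q * K ^ n := by
    refine le_trans ?_ (card_vecs_le hB1 hK Q)
    have h2 : (X.image fun z => part z (PT T z)) ⊆ vecs n Q B := by
      intro w hw
      obtain ⟨z, hz, rfl⟩ := Finset.mem_image.1 hw
      refine part_mem_vecs hn (hX.pts.pt z hz) (hX.pts.le z hz) (PT_sub T z) ?_
      refine hX.prod_le hz (univ.erase T) (PT_sub T z) ?_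
      intro p hp
      exact Finset.mem_erase.2 ⟨(Finset.mem_filter.1 hp).2, Finset.mem_univ _⟩
    exact_mod_cast Finset.card_le_card h2
  have h2 : (X.card : ℝ) ≤ (Q * K ^ n) * K ^ n := by
    rw [Finset.card_eq_sum_card_image (fun z => part z (PT T z)) X]
    push_cast
    calc ∑ v ∈ X.image fun z => part z (PT T z),
          ((X.filter fun z => part z (PT T z) = v).card : ℝ)
        ≤ ∑ _v ∈ X.image fun z => part z (PT T z), K ^ n :=
          Finset.sum_le_sum fun v _ => fibre_card hn hB hK hX T v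
      _ = ((X.image fun z => part z (PT T z)).card : ℝ) * K ^ n := by
          rw [Finset.sum_const, nsmul_eq_mul]
      _ ≤ (Q * K ^ n) * K ^ n := mul_le_mul_of_nonneg_right h1 (by positivity)
  have hXpos : (0 : ℝ) < (X.card : ℝ) := by exact_mod_cast hne.card_pos
  have hQr : (0 : ℝ) < (Q : ℝ) := by exact_mod_cast hQ0
  have h3 := Real.log_le_log hXpos h2
  rw [Real.log_mul (by positivity) (by positivity), Real.log_mul (by positivity) (by positivity),
    Real.log_pow] at h3
  have h4 : Real.log (Q : ℝ) = ∑ T' ∈ univ.erase T, Real.log (2 * (R T' : ℝ)) :=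
    log_prod hX.one_le (univ.erase T)
  have h5 := rho_erase R T
  rw [h4] at h3
  linarith

end Pool.Agent.GL33
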