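import Pool.Agent.GL33.Rad

/-!
# GL33/Pigeon: dyadic pigeonholing

Proof. For `z ∈ Y` let `e z = Nat.log 2 (∏ p ∈ τ z, p)`, so `2 ^ e z ≤ ∏ < 2 ^ (e z + 1)` (`Nat.pow_log_le_self`,
`Nat.lt_pow_succ_log_self`; the product is positive and at most `B ^ n` by `prod_le_pow`), so
`e z ≤ Nat.log 2 (B ^ n)` takes at most `N = Nat.log 2 (B ^ n) + 1` values. For some value `t` the fibre
`Y₁` has `|Y| ≤ N * |Y₁|` (`Finset.exists_le_card_fiber_of_mul_le_card_of_maps_to` or from
`Finset.card_le_mul_card_image_of_maps_to` by contradiction).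
-/

namespace Pool.Agent.GL33

open Finset H4Cnt

variable {n B : ℕ}

theorem pigeon (hn : 2 ≤ n) {Y : Finset (Fin n → ℤ)} (hY : Pts B Y) (hne : Y.Nonempty)
    (τ : (Fin n → ℤ) → Finset ℕ) (hτ : ∀ z ∈ Y, τ z ⊆ prs z) :
    ∃ t : ℕ, ∃ Y₁ ⊆ Y, Y₁.Nonempty ∧
      Real.log Y.card - Real.log (Nat.log 2 (B ^ n) + 1 : ℕ) ≤ Real.log Y₁.card ∧
      ∀ z ∈ Y₁, 2 ^ t ≤ ∏ p ∈ τ z, p ∧ ∏ p ∈ τ z, p < 2 ^ (t + 1) := by
  classical
  set N : ℕ := Nat.log 2 (B ^ n) + 1 with hN
  set e : (Fin n → ℤ) → ℕ := fun z => Nat.log 2 (∏ p ∈ τ z, p) with he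
  have hmaps : ∀ z ∈ Y, e z ∈ range N := by
    intro z hz
    rw [mem_range, hN, he]
    have := Nat.log_mono_right (b := 2) (prod_le_pow hn (hY.pt z hz) (hY.le z hz) (hτ z hz))
    simp only
    omega
  obtain ⟨t, -, ht⟩ : ∃ t ∈ range N, Y.card ≤ N * (Y.filter fun z => e z = t).card := by
    by_contra hcon
    push Not at hcon
    have h1 : Y.card = ∑ t ∈ range N, (Y.filter fun z => e z = t).card :=
      card_eq_sum_card_fiberwise hmaps
    have h2 : N * Y.card = ∑ t ∈ range N, N * (Y.filter fun z => e z = t).card := by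
      rw [← mul_sum, ← h1]
    have h3 : ∑ t ∈ range N, N * (Y.filter fun z => e z = t).card < ∑ _t ∈ range N, Y.card := by
      apply sum_lt_sum_of_nonempty
      · rw [hN]
        exact ⟨0, by simp⟩
      · exact hcon
    rw [← h2, sum_const, card_range, smul_eq_mul] at h3
    exact lt_irrefl _ h3
  have hpos : 0 < (Y.filter fun z => e z = t).card := by
    by_contra hcon
    have : (Y.filter fun z => e z = t).card = 0 := by omega
    rw [this, mul_zero] at ht
    have := hne.card_pos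
    omega
  refine ⟨t, Y.filter fun z => e z = t, filter_subset _ _, card_pos.1 hpos, ?_, ?_⟩
  · have h1 : Real.log Y.card ≤ Real.log ((N : ℝ) * ((Y.filter fun z => e z = t).card : ℝ)) := by
      apply Real.log_le_log
      · exact_mod_cast hne.card_pos
      · exact_mod_cast ht
    rw [Real.log_mul (by
      rw [hN]
      positivity) (by
      have : ((Y.filter fun z => e z = t).card : ℝ) > 0 := by exact_mod_cast hpos
      exact this.ne')] at h1
    linarith
  · intro z hz
    rw [mem_filter] at hz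
    have h0 : ∏ p ∈ τ z, p ≠ 0 := (prod_pos_of_sub (hτ z hz.1)).ne'
    rw [← hz.2, he]
    exact ⟨Nat.pow_log_le_self 2 h0, Nat.lt_pow_succ_log_self (by norm_num) _⟩

end Pool.Agent.GL33
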