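import Pool.Agent.GL33.Span

/-!
# GL33/Reg: regularisation with respect to finitely many functions

Proof of `exists_reg`. Strong induction on `∑ j, rk Y (c j)`, with the claim
`log |Y| - α * ∑ j, rk Y (c j) ≤ log |Ys|` (and `∑ j, rk Y (c j) ≤ |ι| * n` by `rk_le`). If `Y` itself
satisfies the robustness, take `Ys = Y`. Otherwise for some `j` there is `Y' ⊆ Y`, nonempty,
`rk Y' (c j) < rk Y (c j)` and `log |Y'| > log |Y| - α`; all `rk Y' (c j') ≤ rk Y (c j')`
(`rk_mono`), so the sum has decreased by at least `1`; apply the induction hypothesis to `Y'`.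

Proof of `reg_good`. `Yg` = the `z ∈ Ys` with `finrank (spn Ys (c j) z) = rk Ys (c j)` for all `j`. The
complement is the union over `j` of `Y'_j = {z ∈ Ys | finrank (spn Ys (c j) z) < rk Ys (c j)}`
(`finrank_le_rk`). If `Y'_j` is nonempty: `rk Y'_j (c j) < rk Ys (c j)` (`rk_lt_of`, `spn_mono`), so
`|Y'_j| ≤ |Ys| * exp (-α) ≤ |Ys| / (2 * card ι)`. So the complement has at most `|Ys| / 2` elements.

Proof of `refine`. `Yn = {z ∈ Yg | finrank (spn Yg c z) = rk Ys c}`. The complement in `Yg` is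
`Y' = {z ∈ Yg | finrank (spn Yg c z) < rk Ys c}`, `rk Y' c < rk Ys c` if it is nonempty, so
`|Y'| ≤ |Ys| * exp (-α) ≤ 2 |Yg| / 8`, hence `|Yg| ≤ 2 |Yn|`. Membership in `Yn` depends only on `c z`
(for `z ∈ Yg`, `spn_congr`), so for `z ∈ Yn` the fibres in `Yn` and in `Yg` are the same and
`spn Yn c z = spn Yg c z`. Robustness of `Yn`: `Y'' ⊆ Yn ⊆ Ys`, `log |Y''| ≤ log |Ys| - α ≤
log (4 |Yn|) - α`. `Yn` is nonempty because `|Yn| ≥ |Ys| / 4 > 0`.
-/

namespace Pool.Agent.GL33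

open Finset H4Cnt

variable {n : ℕ}

private lemma reg_aux {ι : Type*} [Fintype ι] (c : ι → (Fin n → ℤ) → (Fin n → ℕ)) (α : ℝ)
    (hα : 0 ≤ α) : ∀ (m : ℕ) (Y : Finset (Fin n → ℤ)), Y.Nonempty → ∑ j, rk Y (c j) ≤ m →
    ∃ Ys ⊆ Y, Ys.Nonempty ∧
      Real.log Y.card - α * ((∑ j, rk Y (c j) : ℕ) : ℝ) ≤ Real.log Ys.card ∧
      ∀ j, Rob Ys (c j) (rk Ys (c j)) α := by
  intro m
  induction m with
  | zero =>
    intro Y hY hm
    refine ⟨Y, Subset.refl _, hY, ?_, ?_⟩
    · have : (0 : ℝ) ≤ α * ((∑ j, rk Y (c j) : ℕ) : ℝ) := by positivity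
      linarith
    · intro j Y' _ _ hr
      have h1 : rk Y (c j) ≤ ∑ j, rk Y (c j) :=
        Finset.single_le_sum (f := fun j => rk Y (c j)) (fun _ _ => Nat.zero_le _)
          (Finset.mem_univ j)
      omega
  | succ m ih =>
    intro Y hY hm
    by_cases hrob : ∀ j, Rob Y (c j) (rk Y (c j)) α
    · refine ⟨Y, Subset.refl _, hY, ?_, hrob⟩
      have : (0 : ℝ) ≤ α * ((∑ j, rk Y (c j) : ℕ) : ℝ) := by positivity
      linarith
    · push Not at hrob
      obtain ⟨j, hj⟩ := hrob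
      unfold Rob at hj
      push Not at hj
      obtain ⟨Y', hsub, hne, hlt, hlog⟩ := hj
      have hsum : ∑ j, rk Y' (c j) < ∑ j, rk Y (c j) :=
        Finset.sum_lt_sum (fun j _ => rk_mono hsub (c j)) ⟨j, Finset.mem_univ j, hlt⟩
      obtain ⟨Ys, hYs, hYsne, hYslog, hYsrob⟩ := ih Y' hne (by omega)
      refine ⟨Ys, hYs.trans hsub, hYsne, ?_, hYsrob⟩
      have h1 : ((∑ j, rk Y' (c j) : ℕ) : ℝ) + 1 ≤ ((∑ j, rk Y (c j) : ℕ) : ℝ) := by
        exact_mod_cast hsum
      have h2 : α * (((∑ j, rk Y' (c j) : ℕ) : ℝ) + 1) ≤ α * ((∑ j, rk Y (c j) : ℕ) : ℝ) :=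
        mul_le_mul_of_nonneg_left h1 hα
      linarith

theorem exists_reg {ι : Type*} [Fintype ι] (c : ι → (Fin n → ℤ) → (Fin n → ℕ))
    (Y : Finset (Fin n → ℤ)) (hY : Y.Nonempty) (α : ℝ) (hα : 0 ≤ α) :
    ∃ Ys ⊆ Y, Ys.Nonempty ∧
      Real.log Y.card - α * (Fintype.card ι * n) ≤ Real.log Ys.card ∧
      ∀ j, Rob Ys (c j) (rk Ys (c j)) α := by
  obtain ⟨Ys, h1, h2, h3, h4⟩ := reg_aux c α hα _ Y hY le_rfl
  refine ⟨Ys, h1, h2, ?_, h4⟩
  have h5 : ((∑ j, rk Y (c j) : ℕ) : ℝ) ≤ Fintype.card ι * n := by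
    have : ∑ j, rk Y (c j) ≤ ∑ _j : ι, n := Finset.sum_le_sum fun j _ => rk_le Y (c j)
    rw [Finset.sum_const, Finset.card_univ, smul_eq_mul] at this
    exact_mod_cast this
  have h6 := mul_le_mul_of_nonneg_left h5 hα
  linarith

private lemma reg_card_le {Y' Ys : Finset (Fin n → ℤ)} {α : ℝ} (hne : Y'.Nonempty)
    (hYs : Ys.Nonempty) (h : Real.log Y'.card ≤ Real.log Ys.card - α) :
    (Y'.card : ℝ) ≤ Ys.card * Real.exp (-α) := by
  have h1 : (0 : ℝ) < Y'.card := by exact_mod_cast hne.card_pos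
  have h2 : (0 : ℝ) < Ys.card := by exact_mod_cast hYs.card_pos
  rw [← Real.exp_log h1, ← Real.exp_log h2, ← Real.exp_add, Real.exp_le_exp]
  linarith

theorem reg_good {ι : Type*} [Fintype ι] (c : ι → (Fin n → ℤ) → (Fin n → ℕ))
    (Ys : Finset (Fin n → ℤ)) (α : ℝ) (hrob : ∀ j, Rob Ys (c j) (rk Ys (c j)) α)
    (hα : Real.log (2 * Fintype.card ι) ≤ α) (hι : 0 < Fintype.card ι) :
    ∃ Yg ⊆ Ys, (Ys.card : ℝ) ≤ 2 * Yg.card ∧
      ∀ z ∈ Yg, ∀ j, Module.finrank ℚ (spn Ys (c j) z) = rk Ys (c j) := by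
  classical
  set Yg := Ys.filter fun z => ∀ j, Module.finrank ℚ (spn Ys (c j) z) = rk Ys (c j) with hYg
  set Yb : ι → Finset (Fin n → ℤ) := fun j =>
    Ys.filter fun z => Module.finrank ℚ (spn Ys (c j) z) < rk Ys (c j) with hYb
  refine ⟨Yg, Finset.filter_subset _ _, ?_, fun z hz => (Finset.mem_filter.1 hz).2⟩
  have hcov : Ys ⊆ Yg ∪ Finset.univ.biUnion Yb := by
    intro z hz
    by_cases h : ∀ j, Module.finrank ℚ (spn Ys (c j) z) = rk Ys (c j)
    · exact Finset.mem_union_left _ (Finset.mem_filter.2 ⟨hz, h⟩)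
    · push Not at h
      obtain ⟨j, hj⟩ := h
      refine Finset.mem_union_right _ (Finset.mem_biUnion.2 ⟨j, Finset.mem_univ j, ?_⟩)
      exact Finset.mem_filter.2 ⟨hz, lt_of_le_of_ne (finrank_le_rk hz) hj⟩
  have hιR : (0 : ℝ) < (Fintype.card ι : ℝ) := by exact_mod_cast hι
  have hexp : Real.exp (-α) ≤ 1 / (2 * Fintype.card ι) := by
    have h1 : 2 * (Fintype.card ι : ℝ) ≤ Real.exp α := by
      rw [← Real.log_le_iff_le_exp (by positivity)]
      exact hα
    rw [Real.exp_neg, ← one_div]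
    exact one_div_le_one_div_of_le (by positivity) h1
  have hbj : ∀ j, ((Yb j).card : ℝ) ≤ Ys.card * (1 / (2 * Fintype.card ι)) := by
    intro j
    rcases (Yb j).eq_empty_or_nonempty with he | hne
    · rw [he]
      simp only [Finset.card_empty, Nat.cast_zero]
      positivity
    · have hsub : Yb j ⊆ Ys := Finset.filter_subset _ _
      have hYsne : Ys.Nonempty := hne.mono hsub
      obtain ⟨z₀, hz₀⟩ := hne
      have hz₀' := (Finset.mem_filter.1 hz₀).2
      have hr : rk (Yb j) (c j) < rk Ys (c j) := by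
        refine rk_lt_of (lt_of_le_of_lt (Nat.zero_le _) hz₀') fun z hz => ?_
        exact lt_of_le_of_lt (Submodule.finrank_mono (spn_mono hsub (c j) z))
          (Finset.mem_filter.1 hz).2
      have h1 := reg_card_le ⟨z₀, hz₀⟩ hYsne (hrob j (Yb j) hsub ⟨z₀, hz₀⟩ hr)
      exact h1.trans (by gcongr)
  have hsum : ((Finset.univ.biUnion Yb).card : ℝ) ≤ Ys.card / 2 := by
    calc ((Finset.univ.biUnion Yb).card : ℝ) ≤ ((∑ j, (Yb j).card : ℕ) : ℝ) := by
          exact_mod_cast Finset.card_biUnion_le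
      _ = ∑ j, ((Yb j).card : ℝ) := by push_cast; rfl
      _ ≤ ∑ _j : ι, (Ys.card : ℝ) * (1 / (2 * Fintype.card ι)) :=
          Finset.sum_le_sum fun j _ => hbj j
      _ = Ys.card / 2 := by
          rw [Finset.sum_const, Finset.card_univ, nsmul_eq_mul]
          field_simp
  have htot : (Ys.card : ℝ) ≤ Yg.card + (Finset.univ.biUnion Yb).card := by
    have := (Finset.card_le_card hcov).trans (Finset.card_union_le _ _)
    exact_mod_cast this
  linarith

theorem refine (c : (Fin n → ℤ) → (Fin n → ℕ)) {Ys Yg : Finset (Fin n → ℤ)} (α : ℝ)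
    (hne : Ys.Nonempty) (hrob : Rob Ys c (rk Ys c) α) (hα : Real.log 8 ≤ α) (hsub : Yg ⊆ Ys)
    (hcard : (Ys.card : ℝ) ≤ 2 * Yg.card) :
    ∃ Yn ⊆ Yg, Yn.Nonempty ∧ (Ys.card : ℝ) ≤ 4 * Yn.card ∧
      (∀ z ∈ Yn, Module.finrank ℚ (spn Yn c z) = rk Ys c) ∧
      Rob Yn c (rk Ys c) (α - Real.log 4) := by
  classical
  set Yn := Yg.filter fun z => Module.finrank ℚ (spn Yg c z) = rk Ys c with hYn
  set Yb := Yg.filter fun z => Module.finrank ℚ (spn Yg c z) < rk Ys c with hYb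
  have hYnsub : Yn ⊆ Yg := Finset.filter_subset _ _
  have hYbsub : Yb ⊆ Yg := Finset.filter_subset _ _
  have hcov : Yg ⊆ Yn ∪ Yb := by
    intro z hz
    have h1 : Module.finrank ℚ (spn Yg c z) ≤ rk Ys c :=
      (Submodule.finrank_mono (spn_mono hsub c z)).trans (finrank_le_rk (hsub hz))
    rcases h1.lt_or_eq with h | h
    · exact Finset.mem_union_right _ (Finset.mem_filter.2 ⟨hz, h⟩)
    · exact Finset.mem_union_left _ (Finset.mem_filter.2 ⟨hz, h⟩)
  have hYspos : (0 : ℝ) < Ys.card := by exact_mod_cast hne.card_pos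
  have hexp : Real.exp (-α) ≤ 1 / 8 := by
    have h1 : (8 : ℝ) ≤ Real.exp α := by
      rw [← Real.log_le_iff_le_exp (by norm_num)]
      exact hα
    rw [Real.exp_neg, ← one_div]
    exact one_div_le_one_div_of_le (by positivity) h1
  have hbc : (Yb.card : ℝ) ≤ Ys.card * (1 / 8) := by
    rcases Yb.eq_empty_or_nonempty with he | hne'
    · rw [he]
      simp only [Finset.card_empty, Nat.cast_zero]
      positivity
    · obtain ⟨z₀, hz₀⟩ := hne'
      have hz₀' := (Finset.mem_filter.1 hz₀).2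
      have hr : rk Yb c < rk Ys c := by
        refine rk_lt_of (lt_of_le_of_lt (Nat.zero_le _) hz₀') fun z hz => ?_
        exact lt_of_le_of_lt (Submodule.finrank_mono (spn_mono hYbsub c z))
          (Finset.mem_filter.1 hz).2
      have h1 := reg_card_le ⟨z₀, hz₀⟩ hne (hrob Yb (hYbsub.trans hsub) ⟨z₀, hz₀⟩ hr)
      exact h1.trans (by gcongr)
  have htot : (Yg.card : ℝ) ≤ Yn.card + Yb.card := by
    have := (Finset.card_le_card hcov).trans (Finset.card_union_le _ _)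
    exact_mod_cast this
  have h4 : (Ys.card : ℝ) ≤ 4 * Yn.card := by linarith
  have hYnpos : (0 : ℝ) < Yn.card := by linarith
  refine ⟨Yn, hYnsub, ?_, h4, ?_, ?_⟩
  · rw [← Finset.card_pos]
    exact_mod_cast hYnpos
  · intro z hz
    have hz' := Finset.mem_filter.1 hz
    have heq : spn Yn c z = spn Yg c z := by
      apply le_antisymm (spn_mono hYnsub c z)
      unfold spn
      apply Submodule.span_mono
      apply Set.image_mono
      rintro z' ⟨h1, h2⟩
      refine ⟨Finset.mem_filter.2 ⟨h1, ?_⟩, h2⟩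
      rw [spn_congr h2]
      exact hz'.2
    rw [heq]
    exact hz'.2
  · intro Y'' hsub'' hne'' hrk
    have h5 := hrob Y'' (hsub''.trans (hYnsub.trans hsub)) hne'' hrk
    have h6 : Real.log Ys.card ≤ Real.log 4 + Real.log Yn.card := by
      rw [← Real.log_mul (by norm_num) hYnpos.ne']
      exact Real.log_le_log hYspos h4
    linarith

/-- The rank does not drop on large subsets. -/
theorem rk_eq_of_rob {c : (Fin n → ℤ) → (Fin n → ℕ)} {Y Ys : Finset (Fin n → ℤ)} {r : ℕ} {α : ℝ}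
    (hrob : Rob Y c r α) (hr : ∀ z ∈ Y, Module.finrank ℚ (spn Y c z) ≤ r) (hsub : Ys ⊆ Y)
    (hne : Ys.Nonempty) (hlog : Real.log Y.card - α < Real.log Ys.card) : rk Ys c = r := by
  apply le_antisymm
  · exact rk_le_of_forall fun z hz =>
      (Submodule.finrank_mono (spn_mono hsub c z)).trans (hr z (hsub hz))
  · by_contra hlt
    push Not at hlt
    have := hrob Ys hsub hne hlt
    linarith

end Pool.Agent.GL33
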