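import Pool.Agent.GL33.FibG

/-!
# GL33/StepB: the fibres after adding one pattern

Notation: `σ' = sig Y σ 𝒜`, `τ = sig Y σ (insert T 𝒜)`.

Proof. Let `z ∈ Yg`, `F` the fibre of `cv τ` in `Yg` through `z`. (1) `cv σ'` takes at most
`2 R T * K ^ n` values on `F`: for `z' ∈ F`, `τ z' ⊆ σ' z'`, and the primes of `σ' z' \ τ z'` have
pattern `T`, so `∏ p ∈ σ' z' \ τ z', p ≤ 2 R T` (`Cls.prod_le` with `{T}`); the vector
`q z' = part z' (σ' z' \ τ z')` is in `vecs n (2 R T) B` (`part_mem_vecs`, `card_vecs_le`), and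
`cv σ' z' i = cv τ z' i * q z' i = cv τ z i * q z' i` (`part_mul_sdiff`). (2) By `fib_good`, every fibre
of `cv σ'` in `Yg` has at most `K ^ n * exp f` elements. So `|F| ≤ 2 R T * K ^ n * (K ^ n * exp f)`
(`Finset.card_le_mul_card_image`); `|F| ≥ 1`; take logarithms.
-/

namespace Pool.Agent.GL33

open Finset H4Cnt

variable {n B : ℕ} {K : ℝ} {X Y Ys Yg : Finset (Fin n → ℤ)} {R : Finset (Fin n) → ℕ}
  {σ : (Fin n → ℤ) → Finset ℕ} {r : ℕ} {α f : ℝ}

theorem sig_insert_sub (Y : Finset (Fin n → ℤ)) (σ : (Fin n → ℤ) → Finset ℕ)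
    (𝒜 : Finset (Finset (Fin n))) (T : Finset (Fin n)) (z : Fin n → ℤ) :
    sig Y σ (insert T 𝒜) z ⊆ sig Y σ 𝒜 z := by
  classical
  intro p hp
  unfold sig at hp ⊢
  rw [mem_filter] at hp ⊢
  refine ⟨hp.1, fun h => hp.2 ⟨mem_insert_of_mem h.1, h.2⟩⟩

theorem sig_insert_pat (Y : Finset (Fin n → ℤ)) (σ : (Fin n → ℤ) → Finset ℕ)
    (𝒜 : Finset (Finset (Fin n))) (T : Finset (Fin n)) (z : Fin n → ℤ) (p : ℕ)
    (hp : p ∈ sig Y σ 𝒜 z \ sig Y σ (insert T 𝒜) z) : pat z p = T := by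
  classical
  rw [mem_sdiff] at hp
  unfold sig at hp
  rw [mem_filter, mem_filter] at hp
  obtain ⟨⟨h1, h2⟩, h3⟩ := hp
  by_contra hne
  apply h3
  refine ⟨h1, fun h4 => ?_⟩
  rcases mem_insert.1 h4.1 with h | h
  · exact hne h
  · exact h2 ⟨h, h4.2⟩

theorem stepB (hn : 3 ≤ n) (hB : n ≤ B) (hK : KB n B K) (hX : Cls B X R) (hYX : Y ⊆ X)
    (hSt : St Y σ r α f) (hYs : Ys ⊆ Y) (hYg : Yg ⊆ Ys) (𝒜 : Finset (Finset (Fin n)))
    (T : Finset (Fin n)) (h1 : ∀ z ∈ Yg, Module.finrank ℚ (spn Ys (cv σ) z) = r)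
    (h2 : ∀ z ∈ Yg, Module.finrank ℚ (spn Ys (cv (sig Y σ 𝒜)) z) = r) :
    ∀ z ∈ Yg, Real.log (Yg.filter fun z' =>
      cv (sig Y σ (insert T 𝒜)) z' = cv (sig Y σ (insert T 𝒜)) z).card ≤
        f + Real.log (2 * (R T : ℝ)) + 2 * n * Real.log K := by
  classical
  intro z hz
  have hY : Pts B Y := ⟨fun z hz => hX.pts.pt z (hYX hz), fun z hz => hX.pts.le z (hYX hz),
    fun z hz z' hz' => hX.pts.sign z (hYX hz) z' (hYX hz')⟩
  have hK1 : 1 ≤ K := hK.1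
  have hB1 : 1 ≤ B := by omega
  set F := Yg.filter fun z' =>
    cv (sig Y σ (insert T 𝒜)) z' = cv (sig Y σ (insert T 𝒜)) z with hF
  have hFg : F ⊆ Yg := filter_subset _ _
  have hFY : F ⊆ Y := hFg.trans (hYg.trans hYs)
  have hFc : ∀ z' ∈ F, cv (sig Y σ (insert T 𝒜)) z' = cv (sig Y σ (insert T 𝒜)) z :=
    fun z' hz' => (mem_filter.1 hz').2
  have hsub : F.image (cv (sig Y σ 𝒜)) ⊆ (vecs n (2 * R T) B).image
      (fun v i => cv (sig Y σ (insert T 𝒜)) z i * v i) := by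
    intro a ha
    rw [mem_image] at ha
    obtain ⟨z', hz', rfl⟩ := ha
    rw [mem_image]
    have hz'Y := hFY hz'
    have hsub' : sig Y σ 𝒜 z' \ sig Y σ (insert T 𝒜) z' ⊆ prs z' :=
      (sdiff_subset.trans (sig_sub Y σ 𝒜 z')).trans (hSt.sub z' hz'Y)
    refine ⟨part z' (sig Y σ 𝒜 z' \ sig Y σ (insert T 𝒜) z'), ?_, ?_⟩
    · apply part_mem_vecs (by omega) (hY.pt z' hz'Y) (hY.le z' hz'Y) hsub'
      have := hX.prod_le (hYX hz'Y) {T} hsub' (fun p hp => by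
        rw [mem_singleton]
        exact sig_insert_pat Y σ 𝒜 T z' p hp)
      rw [prod_singleton] at this
      exact this
    · funext i
      have h3 : part z' (sig Y σ (insert T 𝒜) z') i *
          part z' (sig Y σ 𝒜 z' \ sig Y σ (insert T 𝒜) z') i = part z' (sig Y σ 𝒜 z') i :=
        part_mul_sdiff (sig_insert_sub Y σ 𝒜 T z') i
      have h4 : cv (sig Y σ (insert T 𝒜)) z i = part z' (sig Y σ (insert T 𝒜) z') i := by
        rw [← hFc z' hz']
        rfl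
      show cv (sig Y σ (insert T 𝒜)) z i * _ = part z' (sig Y σ 𝒜 z') i
      rw [h4, h3]
  have himg : ((F.image (cv (sig Y σ 𝒜))).card : ℝ) ≤ (2 * R T : ℝ) * K ^ n := by
    have h3 : (F.image (cv (sig Y σ 𝒜))).card ≤ (vecs n (2 * R T) B).card :=
      (card_le_card hsub).trans card_image_le
    have h4 := card_vecs_le hB1 hK (2 * R T)
    calc ((F.image (cv (sig Y σ 𝒜))).card : ℝ) ≤ ((vecs n (2 * R T) B).card : ℝ) := by
          exact_mod_cast h3
      _ ≤ ((2 * R T : ℕ) : ℝ) * K ^ n := h4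
      _ = (2 * R T : ℝ) * K ^ n := by push_cast; ring
  have hfg := fib_good hn hB hK hY hSt hYs hYg 𝒜 h1 h2
  have hfib : ∀ a ∈ F.image (cv (sig Y σ 𝒜)),
      (F.filter fun x => cv (sig Y σ 𝒜) x = a).card ≤ ⌊K ^ n * Real.exp f⌋₊ := by
    intro a ha
    rw [mem_image] at ha
    obtain ⟨z₁, hz₁, rfl⟩ := ha
    apply Nat.le_floor
    have hle : (F.filter fun x => cv (sig Y σ 𝒜) x = cv (sig Y σ 𝒜) z₁).card ≤
        (Yg.filter fun x => cv (sig Y σ 𝒜) x = cv (sig Y σ 𝒜) z₁).card := by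
      apply card_le_card
      intro x hx
      rw [mem_filter] at hx ⊢
      exact ⟨hFg hx.1, hx.2⟩
    exact (by exact_mod_cast hle : ((F.filter fun x => cv (sig Y σ 𝒜) x =
      cv (sig Y σ 𝒜) z₁).card : ℝ) ≤ _).trans (hfg z₁ (hFg hz₁))
  have hcard := Finset.card_le_mul_card_image F ⌊K ^ n * Real.exp f⌋₊ hfib
  have hKn : (0 : ℝ) < K ^ n := by positivity
  have h5 : ((⌊K ^ n * Real.exp f⌋₊ : ℕ) : ℝ) ≤ K ^ n * Real.exp f :=
    Nat.floor_le (by positivity)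
  have hR1 : (1 : ℝ) ≤ R T := by exact_mod_cast hX.one_le T
  have hcard' : (F.card : ℝ) ≤ K ^ n * Real.exp f * ((2 * R T : ℝ) * K ^ n) := by
    calc (F.card : ℝ) ≤ ((⌊K ^ n * Real.exp f⌋₊ * (F.image (cv (sig Y σ 𝒜))).card : ℕ) : ℝ) := by
          exact_mod_cast hcard
      _ = ((⌊K ^ n * Real.exp f⌋₊ : ℕ) : ℝ) * ((F.image (cv (sig Y σ 𝒜))).card : ℝ) := by
          push_cast; ring
      _ ≤ K ^ n * Real.exp f * ((2 * R T : ℝ) * K ^ n) := by
          apply mul_le_mul h5 himg (by positivity) (by positivity)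
  have hpos : (0 : ℝ) < F.card := by
    have : 0 < F.card := card_pos.2 ⟨z, by rw [hF, mem_filter]; exact ⟨hz, rfl⟩⟩
    exact_mod_cast this
  have hlog := Real.log_le_log hpos hcard'
  rw [Real.log_mul (by positivity) (by positivity), Real.log_mul (by positivity) (by positivity),
    Real.log_mul (by positivity) (by positivity), Real.log_exp, Real.log_pow] at hlog
  linarith

end Pool.Agent.GL33
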