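import Pool.Agent.GL33.FinA
import Pool.Agent.GL33.StepB
import Pool.Agent.GL33.Pigeon
import Pool.Agent.GL33.Reg
import Pool.Agent.GL33.Fact0

/-!
# GL33/Step: one step of the induction

`loss n B α'` is the logarithmic loss of one step. `ι = Finset (Finset (Fin n))` has `2 ^ 2 ^ n`
elements.

Proof. (0) `pigeon` with `τ = sig Y σ univ` (`sig_sub`, `hSt.sub`): `Y₁ ⊆ Y`, `t`. `exists_reg` for the
family `c 𝒜 = cv (sig Y σ 𝒜)`, `Y₁`, `α'` (`α' ≥ log (8 n) ≥ 0`): `Ys ⊆ Y₁`, nonempty, with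
`log |Ys| ≥ log |Y| - α' * (2 ^ 2 ^ n * n) - log (Nat.log 2 (B ^ n) + 1)
 = log |Y| - loss n B α' + log 4`. `reg_good`: `Yg ⊆ Ys`, `|Ys| ≤ 2 |Yg|`, all spans over `Ys` at the
points of `Yg` have the maximal dimension `rk Ys (c 𝒜)`. `sig_empty`: `c ∅ = cv σ`, and
`rk Ys (cv σ) = r` (`rk_eq_of_rob` for `hSt.rob`, `hSt.rank`, as `loss n B α' < α`). For all `𝒜`:
`r ≤ rk Ys (c 𝒜)` (`rk_le_of`, `sig_eq`).
(A) If `rk Ys (c univ) = r`: `finA` gives the first alternative, since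
`rho R - log |Ys| ≤ rho R - log |Y| + loss n B α'`.
(B) Otherwise let `𝒜` be a set of minimal cardinality with `rk Ys (c 𝒜) > r`
(`Finset.exists_min_image` or `exists_minimal`). It is not empty; let `T ∈ 𝒜`, `𝒜' = 𝒜.erase T`: so
`rk Ys (c 𝒜') = r`. `refine` for `c 𝒜`, `Ys`, `Yg`: `Yn ⊆ Yg`, state of rank
`r' = rk Ys (c 𝒜) > r` for `sig Y σ 𝒜`, robustness `α' - log 4`, `|Ys| ≤ 4 |Yn|`. Fibres: `Yn ⊆ Yg`
and `stepB` for `𝒜'`, `T` (`insert T 𝒜' = 𝒜`), with
`log (2 R T) ≤ rho R - log |X| + 2 n log K` (`fact0`).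
-/

namespace Pool.Agent.GL33

open Finset H4Cnt

variable {n B : ℕ} {K : ℝ} {X Y : Finset (Fin n → ℤ)} {R : Finset (Fin n) → ℕ}
  {σ : (Fin n → ℤ) → Finset ℕ} {r : ℕ} {α α' f : ℝ}

/-- The logarithmic loss of one step. -/
noncomputable def loss (n B : ℕ) (α' : ℝ) : ℝ :=
  α' * (2 ^ 2 ^ n * n) + Real.log (Nat.log 2 (B ^ n) + 1 : ℕ) + Real.log 4

private lemma step_card (n : ℕ) : (Fintype.card (Finset (Finset (Fin n))) : ℝ) = 2 ^ 2 ^ n := by
  have h : Fintype.card (Finset (Finset (Fin n))) = 2 ^ 2 ^ n := by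
    simp [Fintype.card_finset, Fintype.card_fin]
  rw [h]
  push_cast
  rfl

private lemma step_log_le {a b : ℕ} {c : ℝ} (hc : 0 < c) (ha : 0 < a)
    (h : (a : ℝ) ≤ c * b) : Real.log a - Real.log c ≤ Real.log b := by
  have ha' : (0 : ℝ) < a := by exact_mod_cast ha
  have hb : (0 : ℝ) < b := by
    by_contra hcon
    have : (b : ℝ) ≤ 0 := not_lt.1 hcon
    nlinarith
  have h1 : Real.log a ≤ Real.log (c * b) := Real.log_le_log ha' h
  rw [Real.log_mul hc.ne' hb.ne'] at h1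
  linarith

theorem step (hn : 3 ≤ n) (hB : n ≤ B) (hK : KB n B K) (hX : Cls B X R) (hYX : Y ⊆ X)
    (hSt : St Y σ r α f) (hr : 1 ≤ r) (h8 : Real.log (8 * n) ≤ α')
    (hN : Real.log (2 * 2 ^ 2 ^ n) ≤ α') (hα : loss n B α' < α) :
    rho R ≤ (r + 1) * (rho R - Real.log Y.card + loss n B α') + f + (3 * n + 2) +
        4 * n ^ 2 * Real.log K ∨
      ∃ Yn : Finset (Fin n → ℤ), ∃ σ' : (Fin n → ℤ) → Finset ℕ, ∃ r' : ℕ,
        Yn ⊆ Y ∧ r < r' ∧ Real.log Y.card - loss n B α' ≤ Real.log Yn.card ∧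
        St Yn σ' r' (α' - Real.log 4)
          (f + (rho R - Real.log X.card) + 4 * n * Real.log K) := by
  classical
  have hYp : Pts B Y := ⟨fun z hz => hX.pts.pt z (hYX hz), fun z hz => hX.pts.le z (hYX hz),
    fun z hz z' hz' => hX.pts.sign z (hYX hz) z' (hYX hz')⟩
  have hn' : (3 : ℝ) ≤ n := by exact_mod_cast hn
  have hα0 : 0 ≤ α' := (Real.log_nonneg (by linarith)).trans h8
  obtain ⟨t, Y₁, hY₁, hne₁, hlog₁, ht⟩ := pigeon (by omega) hYp hSt.ne (sig Y σ univ)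
    (fun z hz => (sig_sub Y σ univ z).trans (hSt.sub z hz))
  obtain ⟨Ys, hYs, hne, hlog, hrob⟩ := exists_reg
    (fun 𝒜 : Finset (Finset (Fin n)) => cv (sig Y σ 𝒜)) Y₁ hne₁ α' hα0
  have hYsY : Ys ⊆ Y := hYs.trans hY₁
  obtain ⟨Yg, hYg, hcard, hgood⟩ := reg_good
    (fun 𝒜 : Finset (Finset (Fin n)) => cv (sig Y σ 𝒜)) Ys α' hrob
    (by rw [step_card]; exact hN) (Fintype.card_pos)
  rw [step_card] at hlog
  have hl4 : 0 < Real.log 4 := Real.log_pos (by norm_num)
  have hlogs : Real.log Y.card - loss n B α' + Real.log 4 ≤ Real.log Ys.card := by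
    unfold loss
    linarith
  have hrk0 : rk Ys (cv (sig Y σ ∅)) = r := by
    rw [sig_empty]
    exact rk_eq_of_rob hSt.rob (fun z hz => (hSt.rank z hz).le) hYsY hne (by linarith)
  have hge : ∀ 𝒜 : Finset (Finset (Fin n)), r ≤ rk Ys (cv (sig Y σ 𝒜)) := by
    intro 𝒜
    have h1 : rk Ys (cv σ) ≤ rk Ys (cv (sig Y σ 𝒜)) := by
      apply rk_le_of
      intro z hz z' hz' h
      exact (sig_eq (by omega) hYp.pt hSt.sub 𝒜 (hYsY hz') (hYsY hz) h).2
    rw [sig_empty] at hrk0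
    omega
  have hg0 : ∀ z ∈ Yg, Module.finrank ℚ (spn Ys (cv σ) z) = r := by
    intro z hz
    have := hgood z hz ∅
    rw [hrk0, sig_empty] at this
    exact this
  have hcs0 : 0 < Ys.card := hne.card_pos
  have hr1 : r < n := by
    obtain ⟨z, hz⟩ := hSt.ne
    have := finrank_lt (by omega : 1 ≤ n) hYp.pt (cv σ) z
    rw [hSt.rank z hz] at this
    exact this
  by_cases hA : rk Ys (cv (sig Y σ univ)) = r
  · left
    have h8r : Real.log (8 * r) ≤ α' := by
      refine le_trans (Real.log_le_log ?_ ?_) h8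
      · have : (1 : ℝ) ≤ r := by exact_mod_cast hr
        linarith
      · have : (r : ℝ) ≤ n := by exact_mod_cast hr1.le
        linarith
    have hf := finA hn hB hK hX hYX hSt hr hYsY hne t (fun z hz => ht z (hYs hz))
      (by have := hrob univ; rw [hA] at this; exact this) h8r hYg hcard hg0
      (by intro z hz; have := hgood z hz univ; rw [hA] at this; exact this)
    have h2 : rho R - Real.log Ys.card ≤ rho R - Real.log Y.card + loss n B α' := by linarith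
    have h3 : ((r : ℝ) + 1) * (rho R - Real.log Ys.card) ≤
        (r + 1) * (rho R - Real.log Y.card + loss n B α') :=
      mul_le_mul_of_nonneg_left h2 (by positivity)
    linarith
  · right
    have hne𝒜 : (univ.filter fun 𝒜 : Finset (Finset (Fin n)) =>
        r < rk Ys (cv (sig Y σ 𝒜))).Nonempty :=
      ⟨univ, by simpa using lt_of_le_of_ne (hge univ) (Ne.symm hA)⟩
    obtain ⟨𝒜, h𝒜, hmin⟩ := exists_min_image _ (fun 𝒜 : Finset (Finset (Fin n)) => 𝒜.card) hne𝒜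
    have hlt : r < rk Ys (cv (sig Y σ 𝒜)) := (mem_filter.1 h𝒜).2
    have hne' : 𝒜.Nonempty := by
      rw [nonempty_iff_ne_empty]
      rintro rfl
      rw [hrk0] at hlt
      exact lt_irrefl _ hlt
    obtain ⟨T, hT⟩ := hne'
    have hins : insert T (𝒜.erase T) = 𝒜 := insert_erase hT
    have hrk' : rk Ys (cv (sig Y σ (𝒜.erase T))) = r := by
      by_contra hcon
      have h1 : r < rk Ys (cv (sig Y σ (𝒜.erase T))) := lt_of_le_of_ne (hge _) (Ne.symm hcon)
      have h2 := hmin (𝒜.erase T) (mem_filter.2 ⟨mem_univ _, h1⟩)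
      have h3 := card_erase_lt_of_mem hT
      omega
    have hl8 : Real.log 8 ≤ α' := by
      refine le_trans (Real.log_le_log (by norm_num) ?_) h8
      linarith
    obtain ⟨Yn, hYn, hnn, hcn, hrank, hrobn⟩ := refine (cv (sig Y σ 𝒜)) α' hne (hrob 𝒜) hl8 hYg
      hcard
    refine ⟨Yn, sig Y σ 𝒜, rk Ys (cv (sig Y σ 𝒜)), hYn.trans (hYg.trans hYsY), hlt, ?_, ?_⟩
    · have := step_log_le (by norm_num : (0 : ℝ) < 4) hcs0 hcn
      linarith
    · refine ⟨hnn, fun z hz => (sig_sub Y σ 𝒜 z).trans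
        (hSt.sub z (hYsY (hYg (hYn hz)))), hrank, hrobn, ?_⟩
      intro z hz
      have hb := stepB hn hB hK hX hYX hSt hYsY hYg (𝒜.erase T) T hg0
        (by intro z hz; have := hgood z hz (𝒜.erase T); rw [hrk'] at this
            exact this) z (hYn hz)
      rw [hins] at hb
      have hXne : X.Nonempty := hSt.ne.mono hYX
      have hf := fact0 (by omega : 2 ≤ n) hB hK hX hXne T
      have hmono : Real.log (Yn.filter fun z' =>
          cv (sig Y σ 𝒜) z' = cv (sig Y σ 𝒜) z).card ≤ Real.log (Yg.filter fun z' =>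
          cv (sig Y σ 𝒜) z' = cv (sig Y σ 𝒜) z).card := by
        apply Real.log_le_log
        · have h1 : 0 < (Yn.filter fun z' => cv (sig Y σ 𝒜) z' = cv (sig Y σ 𝒜) z).card :=
            card_pos.2 ⟨z, mem_filter.2 ⟨hz, rfl⟩⟩
          exact_mod_cast h1
        · exact_mod_cast card_le_card (filter_subset_filter _ hYn)
      linarith

end Pool.Agent.GL33
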