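import Pool.Agent.GL33.Start
import Pool.Agent.GL33.Step

/-!
# GL33/Start2: the first state, conclusion

Proof. `exists_reg` for the family `c 𝒜 = cv (sig₀ 𝒜)` (`ι = Finset (Finset (Fin n))`, cardinality
`2 ^ 2 ^ n`), `X`, `α'`: `Ys ⊆ X`, nonempty, `log |Ys| ≥ log |X| - α' (2 ^ 2 ^ n * n)`, which is
`≥ log |X| - loss n B α' + log 4` (the middle term of `loss` is `≥ 0`). `rk Ys (c ∅) ≤ 1`: `sig₀ ∅ z =
prs z`, so `cv (sig₀ ∅) z = |z|` (`part_prs`) is injective (`eq_of_natAbs`), every span is a line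
(`rk_le_of_forall`). If `rk Ys (c 𝒜) ≤ 1` then `c 𝒜` is injective on `Ys` (`eq_of_finrank_le_one`,
`finrank_le_rk`, `mem_spn`).
(A) If `rk Ys (c (star i)) ≤ 1` for all `i`: first alternative by `start_low`
(`rho R - log |Ys| ≤ rho R - log |X| + loss n B α'`).
(B) Otherwise `rk Ys (c (star i)) ≥ 2` for some `i`. Let `𝒜 ⊆ star i` be of minimal cardinality with
`rk Ys (c 𝒜) ≥ 2`; it is not empty, let `T ∈ 𝒜`, `𝒜' = 𝒜.erase T ⊆ star i`: `rk Ys (c 𝒜') ≤ 1`.
`start_rank` (robustness with `rk ≥ 2` implies robustness with `2`: a subset of rank `< 2` has rank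
`< rk`): `r = rk Ys (c 𝒜) ≥ 3`. `reg_good` for the one-element family `c 𝒜` (or the whole family):
`Yg`; `refine` for `Ys`, `Yg`, `c 𝒜`: `Yn`, with `log |Yn| ≥ log |Ys| - log 4`. State: `sub` by
`filter_subset`, `rank`, `rob` from `refine`, `fib` from `start_fib` for `𝒜'`, `T` and `Yn ⊆ Ys`.
-/

namespace Pool.Agent.GL33

open Finset H4Cnt

variable {n B : ℕ} {K : ℝ} {X : Finset (Fin n → ℤ)} {R : Finset (Fin n) → ℕ} {α' : ℝ}

private theorem injOn_of_rk {Y : Finset (Fin n → ℤ)} (hn : 2 ≤ n) (hY : Pts B Y)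
    {c : (Fin n → ℤ) → (Fin n → ℕ)} (h : rk Y c ≤ 1) : Set.InjOn c (Y : Set (Fin n → ℤ)) := by
  intro z hz z' hz' hc
  have hz := mem_coe.1 hz
  have hz' := mem_coe.1 hz'
  exact eq_of_finrank_le_one hn hY hz hz' ((finrank_le_rk (c := c) hz).trans h)
    (mem_spn hz rfl) (mem_spn hz' hc.symm)

private theorem rk_empty {Y : Finset (Fin n → ℤ)} (hn : 2 ≤ n) (hY : Pts B Y) :
    rk Y (cv (sig₀ ∅)) ≤ 1 := by
  refine rk_le_of_forall fun z hz => ?_
  have h2 : spn Y (cv (sig₀ ∅)) z ≤ Submodule.span ℚ {toQ z} := by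
    unfold spn
    refine Submodule.span_mono ?_
    rintro v ⟨z', ⟨hz', h3⟩, rfl⟩
    have h4 : ∀ w : Fin n → ℤ, sig₀ ∅ w = prs w := by
      intro w
      unfold sig₀
      simp
    have h5 : z' = z := by
      refine eq_of_natAbs hY hz' hz fun i => ?_
      have h6 : part z' (sig₀ ∅ z') i = part z (sig₀ ∅ z) i := congrFun h3 i
      rw [h4, h4, part_prs hn (hY.pt z' hz'), part_prs hn (hY.pt z hz)] at h6
      exact h6
    rw [h5]
    exact Set.mem_singleton _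
  refine (Submodule.finrank_mono h2).trans ?_
  refine (finrank_span_le_card _).trans ?_
  simp

theorem start (hn : 3 ≤ n) (hB : n ≤ B) (hK : KB n B K) (hX : Cls B X R) (hne : X.Nonempty)
    (h8 : Real.log 8 ≤ α') (hN : Real.log (2 * 2 ^ 2 ^ n) ≤ α') (hα' : 2 * Real.log K < α') :
    rho R ≤ n * (rho R - Real.log X.card + loss n B α') + Real.log 2 + n ^ 2 * Real.log K ∨
      ∃ Yn : Finset (Fin n → ℤ), ∃ σ : (Fin n → ℤ) → Finset ℕ, ∃ r : ℕ,
        Yn ⊆ X ∧ 3 ≤ r ∧ Real.log X.card - loss n B α' ≤ Real.log Yn.card ∧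
        St Yn σ r (α' - Real.log 4) ((rho R - Real.log X.card) + 3 * n * Real.log K) := by
  classical
  have hcard : Fintype.card (Finset (Finset (Fin n))) = 2 ^ 2 ^ n := by
    rw [Fintype.card_finset, Fintype.card_finset, Fintype.card_fin]
  have h80 : (0 : ℝ) ≤ Real.log 8 := Real.log_nonneg (by norm_num)
  obtain ⟨Ys, hYsX, hYsne, hYslog, hrob⟩ :=
    exists_reg (fun 𝒜 : Finset (Finset (Fin n)) => cv (sig₀ 𝒜)) X hne α' (h80.trans h8)
  rw [hcard] at hYslog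
  have hloss : Real.log X.card - loss n B α' + Real.log 4 ≤ Real.log Ys.card := by
    unfold loss
    have h1 : (0 : ℝ) ≤ Real.log (Nat.log 2 (B ^ n) + 1 : ℕ) := Real.log_natCast_nonneg _
    push_cast at hYslog h1 ⊢
    linarith
  have hlog4 : (0 : ℝ) ≤ Real.log 4 := Real.log_nonneg (by norm_num)
  have hPts : Pts B Ys := ⟨fun z hz => hX.pts.pt z (hYsX hz), fun z hz => hX.pts.le z (hYsX hz),
    fun z hz z' hz' => hX.pts.sign z (hYsX hz) z' (hYsX hz')⟩
  by_cases hA : ∀ i, rk Ys (cv (sig₀ (star i))) ≤ 1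
  · left
    have h1 := start_low hn hB hK hX hYsX hYsne fun i => injOn_of_rk (by omega) hPts (hA i)
    have h2 : (n : ℝ) * (rho R - Real.log Ys.card) ≤
        n * (rho R - Real.log X.card + loss n B α') :=
      mul_le_mul_of_nonneg_left (by linarith) (Nat.cast_nonneg n)
    linarith
  · right
    push Not at hA
    obtain ⟨i, hi⟩ := hA
    obtain ⟨𝒜, h𝒜, hmin⟩ := exists_min_image
      ((star i).powerset.filter fun 𝒜 => 2 ≤ rk Ys (cv (sig₀ 𝒜))) card
      ⟨star i, mem_filter.2 ⟨mem_powerset.2 (Subset.refl _), hi⟩⟩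
    rw [mem_filter, mem_powerset] at h𝒜
    obtain ⟨h𝒜s, h𝒜2⟩ := h𝒜
    have h𝒜ne : 𝒜.Nonempty := by
      rw [nonempty_iff_ne_empty]
      rintro rfl
      have := rk_empty (by omega) hPts (n := n)
      omega
    obtain ⟨T, hT⟩ := h𝒜ne
    have herase : rk Ys (cv (sig₀ (𝒜.erase T))) ≤ 1 := by
      by_contra hcon
      have h1 := hmin (𝒜.erase T) (mem_filter.2
        ⟨mem_powerset.2 ((erase_subset _ _).trans h𝒜s), by omega⟩)
      have h2 := card_erase_lt_of_mem hT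
      omega
    have hrob2 : Rob Ys (cv (sig₀ 𝒜)) 2 α' := fun Y' hY' hY'ne hlt =>
      hrob 𝒜 Y' hY' hY'ne (lt_of_lt_of_le hlt h𝒜2)
    have hr3 := start_rank hn hB hK hPts hYsne h𝒜s hrob2 hα'
    obtain ⟨Yg, hYgs, hYgcard, -⟩ :=
      reg_good (fun 𝒜 : Finset (Finset (Fin n)) => cv (sig₀ 𝒜)) Ys α' hrob
        (by rw [hcard]; push_cast; exact hN) (by rw [hcard]; positivity)
    obtain ⟨Yn, hYnYg, hYnne, hYncard, hYnrank, hYnrob⟩ :=
      refine (cv (sig₀ 𝒜)) α' hYsne (hrob 𝒜) h8 hYgs hYgcard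
    have hYnYs : Yn ⊆ Ys := hYnYg.trans hYgs
    have hYs0 : (0 : ℝ) < Ys.card := by exact_mod_cast hYsne.card_pos
    have hYn0 : (0 : ℝ) < Yn.card := by exact_mod_cast hYnne.card_pos
    refine ⟨Yn, sig₀ 𝒜, rk Ys (cv (sig₀ 𝒜)), hYnYs.trans hYsX, hr3, ?_, ?_⟩
    · have h1 := Real.log_le_log hYs0 hYncard
      rw [Real.log_mul (by norm_num) hYn0.ne'] at h1
      linarith
    · refine ⟨hYnne, fun z _ => filter_subset _ _, hYnrank, hYnrob, fun z hz => ?_⟩
      have h1 := start_fib hn hB hK hX hYsX (𝒜.erase T) T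
        (injOn_of_rk (by omega) hPts herase) z (hYnYs hz)
      rw [insert_erase hT] at h1
      refine le_trans ?_ h1
      refine Real.log_le_log ?_ ?_
      · have h2 : 0 < (Yn.filter fun z' => cv (sig₀ 𝒜) z' = cv (sig₀ 𝒜) z).card :=
          card_pos.2 ⟨z, mem_filter.2 ⟨hz, rfl⟩⟩
        exact_mod_cast h2
      · have h2 := card_le_card (filter_subset_filter
          (fun z' => cv (sig₀ 𝒜) z' = cv (sig₀ 𝒜) z) hYnYs)
        exact_mod_cast h2

end Pool.Agent.GL33
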