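import Pool.Agent.GL33.Ind
import Pool.Agent.GL33.Start2

/-!
# GL33/Class: the bound for a class

Notation: `S = rho R - log |X|`, `L = log B`.

Proof. Let `C` be the constant of `ind` for `k = n`. Let `ε₁ > 0` be such that
`(C + 4 n + 4) ε₁ ≤ ε`. Choose `η' > 0` by `loss_le` for `ε₁`; `B₀` of `ind` (`k = n`) for `ε₁`,
`η = η' / 2`; `κ > 0` with `4 n ^ 2 κ ≤ ε₁` and `2 κ < η'`, `K = B ^ κ` (`exists_KB`), `log K = κ L`. `B` so
large that moreover `n ≤ B`, `2 ≤ B`, `log 8 ≤ η' L`, `log (2 * 2 ^ 2 ^ n) ≤ η' L`,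
`log 4 ≤ (η' / 2) L`, `log 2 ≤ ε₁ L`. Apply `start` with `α' = η' L`.
(A) `rho R ≤ n (S + ε₁ L) + ε₁ L + ε₁ L ≤ (2 n - 3) S + (n - 3) ε₁ L + (n + 2) ε₁ L` by `S_ge`
(`S ≥ - 2 n log K ≥ - ε₁ L`, `2 n - 3 ≥ n`).
(B) `ind` for the state with `r ≥ 3`: `f = S + 3 n log K ≤ (r - 2) S + n ε₁ L + ε₁ L`; use `ind` with
`ε = (n + 1) ε₁` instead of `ε₁` (adapt the constants: `C (n + 1) ε₁ ≤ ε`).
-/

namespace Pool.Agent.GL33

open Finset H4Cnt

theorem class_bound (n : ℕ) (hn : 3 ≤ n) (ε : ℝ) (hε : 0 < ε) : ∃ B₀ : ℕ, ∀ B : ℕ, B₀ ≤ B →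
    ∀ (X : Finset (Fin n → ℤ)) (R : Finset (Fin n) → ℕ), Cls B X R → X.Nonempty →
      rho R ≤ (2 * n - 3) * (rho R - Real.log X.card) + ε * Real.log B := by
  obtain ⟨C, hC, hind⟩ := ind n hn n
  have hnR : (3 : ℝ) ≤ n := by exact_mod_cast hn
  have hden : 0 < C + n + 3 := by linarith
  set ε₁ : ℝ := ε / (C + n + 3) with hε₁
  have hε₁0 : 0 < ε₁ := div_pos hε hden
  have hε₁e : (C + n + 3) * ε₁ = ε := by rw [hε₁]; field_simp
  obtain ⟨η', hη', B₁, hB₁⟩ := loss_le n ε₁ hε₁0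
  obtain ⟨B₄, hB₄⟩ := hind ε₁ hε₁0 (η' / 2) (by linarith)
  set κ : ℝ := min (ε₁ / (4 * n ^ 2)) (η' / 4) with hκdef
  have hκ : 0 < κ := lt_min (by positivity) (by linarith)
  have hκ1 : 4 * (n : ℝ) ^ 2 * κ ≤ ε₁ := by
    have h1 : κ ≤ ε₁ / (4 * n ^ 2) := min_le_left _ _
    have h2 : (0 : ℝ) < 4 * n ^ 2 := by positivity
    rw [le_div_iff₀ h2] at h1
    linarith
  have hκ2 : κ ≤ η' / 4 := min_le_right _ _
  obtain ⟨B₂, hB₂1, hB₂⟩ := exists_KB n κ hκ
  set M : ℝ := max (max (Real.log 8 / η') (Real.log (2 * 2 ^ 2 ^ n) / η'))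
    (max (max (Real.log 4 / (η' / 2)) (Real.log 2 / ε₁)) 1) with hM
  refine ⟨max (max B₁ B₂) (max (max B₄ n) ⌈Real.exp M⌉₊), ?_⟩
  intro B hB X R hX hne
  have hb1 : B₁ ≤ B := le_trans (le_trans (le_max_left _ _) (le_max_left _ _)) hB
  have hb2 : B₂ ≤ B := le_trans (le_trans (le_max_right _ _) (le_max_left _ _)) hB
  have hb4 : B₄ ≤ B := le_trans (le_trans (le_trans (le_max_left _ _) (le_max_left _ _))
    (le_max_right _ _)) hB
  have hbn : n ≤ B := le_trans (le_trans (le_trans (le_max_right _ _) (le_max_left _ _))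
    (le_max_right _ _)) hB
  have hbM : ⌈Real.exp M⌉₊ ≤ B := le_trans (le_trans (le_max_right _ _) (le_max_right _ _)) hB
  have hL : M ≤ Real.log B := by
    have h1 : Real.exp M ≤ B := le_trans (Nat.le_ceil _) (by exact_mod_cast hbM)
    have h2 := Real.log_le_log (Real.exp_pos M) h1
    rwa [Real.log_exp] at h2
  set L : ℝ := Real.log B with hLdef
  have hL1 : 1 ≤ L := le_trans (le_trans (le_max_right _ _) (le_max_right _ _)) hL
  have hL8 : Real.log 8 ≤ η' * L := by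
    have h1 : Real.log 8 / η' ≤ L :=
      le_trans (le_trans (le_max_left _ _) (le_max_left _ _)) hL
    rw [div_le_iff₀ hη'] at h1
    linarith
  have hLN : Real.log (2 * 2 ^ 2 ^ n) ≤ η' * L := by
    have h1 : Real.log (2 * 2 ^ 2 ^ n) / η' ≤ L :=
      le_trans (le_trans (le_max_right _ _) (le_max_left _ _)) hL
    rw [div_le_iff₀ hη'] at h1
    linarith
  have hL4 : Real.log 4 ≤ (η' / 2) * L := by
    have h1 : Real.log 4 / (η' / 2) ≤ L :=
      le_trans (le_trans (le_trans (le_max_left _ _) (le_max_left _ _)) (le_max_right _ _)) hL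
    rw [div_le_iff₀ (by linarith)] at h1
    linarith
  have hL2 : Real.log 2 ≤ ε₁ * L := by
    have h1 : Real.log 2 / ε₁ ≤ L :=
      le_trans (le_trans (le_trans (le_max_right _ _) (le_max_left _ _)) (le_max_right _ _)) hL
    rw [div_le_iff₀ hε₁0] at h1
    linarith
  have hBpos : (0 : ℝ) < B := by
    have : 0 < B := by omega
    exact_mod_cast this
  have hK := hB₂ B hb2
  have hlogK : Real.log ((B : ℝ) ^ κ) = κ * L := by
    rw [Real.log_rpow hBpos]
  have hloss := hB₁ B hb1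
  have hκL : 4 * (n : ℝ) ^ 2 * (κ * L) ≤ ε₁ * L := by
    have h1 := mul_le_mul_of_nonneg_right hκ1 (by linarith : (0 : ℝ) ≤ L)
    linarith
  have hκL0 : 0 ≤ κ * L := mul_nonneg hκ.le (by linarith)
  have hS := S_ge (by omega : 2 ≤ n) hbn hK hX hne
  rw [hlogK] at hS
  set S : ℝ := rho R - Real.log X.card with hSdef
  have hLpos : 0 < L := by linarith
  have hst := start hn hbn hK hX hne hL8 hLN (by
    rw [hlogK]
    nlinarith)
  rw [hlogK] at hst
  rcases hst with hA | ⟨Yn, σ, r, hsub, hr3, hcard, hSt⟩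
  · have h1 : (n : ℝ) * loss n B (η' * L) ≤ n * (ε₁ * L) :=
      mul_le_mul_of_nonneg_left hloss (by linarith)
    have h2 : ((n : ℝ) - 3) * (-(2 * n * (κ * L))) ≤ (n - 3) * S :=
      mul_le_mul_of_nonneg_left hS (by linarith)
    have h3 : ((n : ℝ) - 3) * (2 * n * (κ * L)) ≤ ε₁ * L := by
      have h4 : ((n : ℝ) - 3) * (2 * n) ≤ 4 * n ^ 2 := by nlinarith
      have h5 := mul_le_mul_of_nonneg_right h4 hκL0
      linarith
    have h6 : (n : ℝ) ^ 2 * (κ * L) ≤ ε₁ * L := by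
      have h4 : (n : ℝ) ^ 2 ≤ 4 * n ^ 2 := by nlinarith
      have h5 := mul_le_mul_of_nonneg_right h4 hκL0
      linarith
    have h7 : ε * L = C * (ε₁ * L) + n * (ε₁ * L) + 3 * (ε₁ * L) := by
      rw [← hε₁e]; ring
    have h8 : 0 ≤ C * (ε₁ * L) := by positivity
    have h9 : (n : ℝ) * (S + loss n B (η' * L)) = n * S + n * loss n B (η' * L) := by ring
    rw [h9] at hA
    have h10 : (2 * (n : ℝ) - 3) * S = n * S + (n - 3) * S := by ring
    rw [h10, h7]
    linarith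
  · have hrn : r ≤ n := by
      obtain ⟨z, hz⟩ := hSt.ne
      rw [← hSt.rank z hz]
      refine le_trans (Submodule.finrank_le _) ?_
      simp
    have hrR : (3 : ℝ) ≤ r := by exact_mod_cast hr3
    have hrnR : (r : ℝ) ≤ n := by exact_mod_cast hrn
    have h1 := hB₄ B hb4 r hr3 (by omega) X R hX Yn hsub σ _ _ hSt (by linarith) (by linarith)
      (by
        have h2 : ((r : ℝ) - 3) * (-(2 * n * (κ * L))) ≤ (r - 3) * S :=
          mul_le_mul_of_nonneg_left hS (by linarith)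
        have h3 : ((r : ℝ) - 3) * (2 * n * (κ * L)) + 3 * n * (κ * L) ≤ ε₁ * L := by
          have h4 : ((r : ℝ) - 3) * (2 * n) + 3 * n ≤ 4 * n ^ 2 := by nlinarith
          have h5 := mul_le_mul_of_nonneg_right h4 hκL0
          linarith
        have h10 : ((r : ℝ) - 2) * S = S + (r - 3) * S := by ring
        rw [h10]
        linarith)
    have h7 : ε * L = C * ε₁ * L + (n * (ε₁ * L) + 3 * (ε₁ * L)) := by
      rw [← hε₁e]; ring
    have h8 : 0 ≤ (n : ℝ) * (ε₁ * L) + 3 * (ε₁ * L) := by positivity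
    rw [h7]
    linarith

end Pool.Agent.GL33
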