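import Pool.Agent.GL33.Conv

/-!
# GL33/Cnt: the counting theorem with the exponent `1 - 1 / (2 n - 3)`

Proof. Let `δ > 0`, `ε = δ / 2`, `B₀` from `class_bound`. For `B ≥ B₀` (and `B ≥ 1`): `class_card`;
`3 ^ n * (Nat.log 2 (B ^ n) + 1) ^ 2 ^ n * exp (2 ^ n) ≤ A₁ * B ^ (δ / 2)` for a constant `A₁`
(`Nat.log 2 (B ^ n) ≤ 2 n log B`, `Real.log_le_rpow_div` with the exponent `δ / (2 * 2 ^ n)`:
`1 + 2 n log B ≤ A₂ B ^ (δ / (2 * 2 ^ n))`). For `B < B₀`: `|Z| ≤ (2 B₀ + 1) ^ n`, while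
`B ^ δ ≥ 1` and `(∏ M) ^ θ ≥ 1` (`∏ M ≥ 1`, `θ ≥ 0`). `A = max`.
-/

namespace Pool.Agent.GL33

open Finset H4Cnt

private theorem natLog_le (B n : ℕ) (hB : 1 ≤ B) :
    (Nat.log 2 (B ^ n) : ℝ) ≤ 2 * n * Real.log B := by
  have h1 := Nat.pow_log_le_self 2 (x := B ^ n) (by positivity)
  have h2 : (2 : ℝ) ^ (Nat.log 2 (B ^ n)) ≤ (B : ℝ) ^ n := by exact_mod_cast h1
  have h3 := Real.log_le_log (by positivity) h2
  rw [Real.log_pow, Real.log_pow] at h3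
  have h4 : (1 : ℝ) / 2 ≤ Real.log 2 := by
    have := Real.log_two_gt_d9
    linarith
  have h5 : (Nat.log 2 (B ^ n) : ℝ) * (1 / 2) ≤ Nat.log 2 (B ^ n) * Real.log 2 :=
    mul_le_mul_of_nonneg_left h4 (Nat.cast_nonneg _)
  linarith

private theorem card_box {n : ℕ} (B : ℕ) (Z : Finset (Fin n → ℤ)) (hZ : ∀ z ∈ Z, ∀ i, |z i| ≤ B) :
    Z.card ≤ (2 * B + 1) ^ n := by
  have h1 : Z ⊆ Fintype.piFinset (fun _ : Fin n => Icc (-(B : ℤ)) B) := by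
    intro z hz
    rw [Fintype.mem_piFinset]
    intro i
    rw [mem_Icc]
    exact abs_le.1 (hZ z hz i)
  have h2 := card_le_card h1
  rw [Fintype.card_piFinset, prod_const, card_univ, Fintype.card_fin, Int.card_Icc] at h2
  have h3 : ((B : ℤ) + 1 - -(B : ℤ)).toNat = 2 * B + 1 := by omega
  rwa [h3] at h2

theorem cnt (n : ℕ) (hn : 3 ≤ n) : PSV.Cnt n (2 * n - 3) := by
  intro δ hδ
  obtain ⟨B₀, hB₀⟩ := class_bound n hn (δ / 2) (by positivity)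
  have hn3 : (3 : ℝ) ≤ n := by exact_mod_cast hn
  obtain ⟨η, hη⟩ : ∃ η : ℝ, η = δ / (2 * (2 ^ n : ℕ)) := ⟨_, rfl⟩
  have hη0 : 0 < η := by rw [hη]; positivity
  have hη2 : η * (2 ^ n : ℕ) = δ / 2 := by
    rw [hη]
    have : ((2 ^ n : ℕ) : ℝ) ≠ 0 := by positivity
    field_simp
  refine ⟨3 ^ n * (1 + 2 * n / η) ^ 2 ^ n * Real.exp (2 ^ n) + (2 * B₀ + 1) ^ n, ?_⟩
  intro B hB M hM Z hZ
  have hBpos : (0 : ℝ) < B := by exact_mod_cast hB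
  have hB1 : (1 : ℝ) ≤ B := by exact_mod_cast hB
  have hθ : (0 : ℝ) ≤ 1 - 1 / (2 * n - 3) := by
    rw [sub_nonneg, div_le_one (by linarith)]
    linarith
  have hM1 : (1 : ℝ) ≤ ∏ F, M F := by
    have h1 : ∏ _F : Finset (Fin n), (1 : ℝ) ≤ ∏ F, M F :=
      prod_le_prod (fun _ _ => zero_le_one) fun F _ => hM.one_le F
    simpa using h1
  have hMθ : (1 : ℝ) ≤ (∏ F, M F) ^ (1 - 1 / (2 * n - 3 : ℝ)) := Real.one_le_rpow hM1 hθ
  have hBδ : (1 : ℝ) ≤ (B : ℝ) ^ δ := Real.one_le_rpow hB1 hδ.le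
  have hA1 : (0 : ℝ) ≤ 3 ^ n * (1 + 2 * n / η) ^ 2 ^ n * Real.exp (2 ^ n) := by positivity
  rcases Nat.lt_or_ge B B₀ with hlt | hge
  · have h1 : (Z.card : ℝ) ≤ (2 * B₀ + 1) ^ n := by
      have h2 : Z.card ≤ (2 * B₀ + 1) ^ n :=
        (card_box B Z fun z hz => (hZ z hz).1.le).trans (Nat.pow_le_pow_left (by omega) n)
      exact_mod_cast h2
    have h3 : (1 : ℝ) ≤ (B : ℝ) ^ δ * (∏ F, M F) ^ (1 - 1 / (2 * n - 3 : ℝ)) :=
      one_le_mul_of_one_le_of_one_le hBδ hMθ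
    have h4 : (0 : ℝ) ≤ (2 * B₀ + 1) ^ n := by positivity
    rw [mul_assoc]
    calc (Z.card : ℝ) ≤ (3 ^ n * (1 + 2 * n / η) ^ 2 ^ n * Real.exp (2 ^ n) +
          (2 * B₀ + 1) ^ n) * 1 := by linarith
      _ ≤ _ := mul_le_mul_of_nonneg_left h3 (by linarith)
  · have h1 := class_card hn hB (by positivity) (hB₀ B hge) hM Z hZ
    refine h1.trans ?_
    have h2 : ((Nat.log 2 (B ^ n) + 1 : ℕ) : ℝ) ≤ (1 + 2 * n / η) * (B : ℝ) ^ η := by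
      have h3 := natLog_le B n hB
      have h4 := Real.log_le_rpow_div hBpos.le hη0
      have h5 : 2 * (n : ℝ) * Real.log B ≤ 2 * n * ((B : ℝ) ^ η / η) :=
        mul_le_mul_of_nonneg_left h4 (by positivity)
      have h6 : (1 : ℝ) ≤ (B : ℝ) ^ η := Real.one_le_rpow hB1 hη0.le
      push_cast
      have h7 : (1 + 2 * n / η) * (B : ℝ) ^ η = (B : ℝ) ^ η + 2 * n * ((B : ℝ) ^ η / η) := by
        ring
      rw [h7]
      linarith
    have h3 : ((Nat.log 2 (B ^ n) + 1 : ℕ) : ℝ) ^ 2 ^ n ≤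
        (1 + 2 * n / η) ^ 2 ^ n * (B : ℝ) ^ (δ / 2) := by
      refine (pow_le_pow_left₀ (by positivity) h2 _).trans_eq ?_
      rw [mul_pow, ← Real.rpow_natCast ((B : ℝ) ^ η), ← Real.rpow_mul hBpos.le, hη2]
    have h4 : (B : ℝ) ^ δ = (B : ℝ) ^ (δ / 2) * (B : ℝ) ^ (δ / 2) := by
      rw [← Real.rpow_add hBpos]
      congr 1
      ring
    have h5 : (0 : ℝ) ≤ (2 * B₀ + 1) ^ n := by positivity
    calc (3 : ℝ) ^ n * ((Nat.log 2 (B ^ n) + 1 : ℕ) : ℝ) ^ 2 ^ n *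
          (Real.exp (2 ^ n) * (B : ℝ) ^ (δ / 2) * (∏ F, M F) ^ (1 - 1 / (2 * n - 3 : ℝ)))
        ≤ (3 : ℝ) ^ n * ((1 + 2 * n / η) ^ 2 ^ n * (B : ℝ) ^ (δ / 2)) *
          (Real.exp (2 ^ n) * (B : ℝ) ^ (δ / 2) * (∏ F, M F) ^ (1 - 1 / (2 * n - 3 : ℝ))) := by
          refine mul_le_mul_of_nonneg_right (mul_le_mul_of_nonneg_left h3 (by positivity)) ?_
          positivity
      _ = 3 ^ n * (1 + 2 * n / η) ^ 2 ^ n * Real.exp (2 ^ n) * (B : ℝ) ^ δ *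
          (∏ F, M F) ^ (1 - 1 / (2 * n - 3 : ℝ)) := by
          rw [h4]
          ring
      _ ≤ _ := by
          refine mul_le_mul_of_nonneg_right (mul_le_mul_of_nonneg_right ?_ (by positivity))
            (by positivity)
          linarith

end Pool.Agent.GL33
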