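import Pool.Agent.GL33.Class
import Pool.Agent.PSV.PartAdm

/-!
# GL33/Conv: from classes to admissible vectors

The functions `pat`, `prs` of `H4Cnt` and of `PSV` are the same, and `radT z T = PSV.rd T z` (`rfl`, up
to unfolding).

`isPt_of_adm`: sum and subsums from `PSV.Sol` for `{fun _ => 1}` (simp). If `g` divides all `z i` and
is not a unit, then `g ≠ 0` (as `z i ≠ 0`, `n ≥ 1`), so a prime `p` divides `g`
(`Int.exists_prime_and_dvd`), hence all `z i`: contradiction to `PSV.not_dvd_all`.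

`class_card`: let `N = Nat.log 2 (B ^ n) + 1`. To `z ∈ Z` attach the signs of `z` and the function
`T ↦ Nat.log 2 (radT z T) < N` (`radT z T ≤ B ^ n`, `prod_le_pow`): at most `3 ^ n * N ^ 2 ^ n` values.
Let `X` be the set of the `z ∈ Z` with the same value as `z₀ ∈ Z`, `R T = 2 ^ Nat.log 2 (radT z₀ T)`: `Cls B X R`
(`Nat.pow_log_le_self`, `Nat.lt_pow_succ_log_self`). `rho R ≤ ∑ T, (log 2 + log (radT z₀ T)) ≤
2 ^ n * log 2 + log (∏ F, M F)` (`PSV.Adm.rd_le`). `h` gives, with `θ = 1 - 1 / (2 n - 3)` and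
`2 n - 3 ≥ 3`: `log |X| ≤ θ * rho R + ε log B ≤ θ log (∏ M) + 2 ^ n + ε log B`, so
`|X| ≤ exp (2 ^ n) * B ^ ε * (∏ M) ^ θ`. Sum over the classes (`Finset.card_le_mul_card_image`).
-/

namespace Pool.Agent.GL33

open Finset H4Cnt

theorem isPt_of_adm {n B : ℕ} (hn : 1 ≤ n) {M : Finset (Fin n) → ℝ} (hM : PSV.Bds M)
    {z : Fin n → ℤ} (h : PSV.Adm B M z) (h' : PSV.Sol {fun _ => 1} z) : IsPt z := by
  refine ⟨?_, fun I hI hI' => ?_, fun g hg => ?_⟩
  · have h1 := h'.zer (fun _ => 1) rfl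
    simpa using h1
  · obtain ⟨l, hl, h2⟩ := h'.nondeg I hI hI'
    rw [Set.mem_singleton_iff] at hl
    subst hl
    simpa using h2
  · by_contra hcon
    rw [Int.isUnit_iff_natAbs_eq] at hcon
    obtain ⟨p, hp, hpg⟩ := Nat.exists_prime_and_dvd hcon
    have hpg' : (p : ℤ) ∣ g := Int.natCast_dvd.2 hpg
    apply PSV.not_dvd_all hM h hp (by omega)
    ext i
    simp only [PSV.pat, mem_filter, mem_univ, true_and, iff_true]
    exact hpg'.trans (hg i)

private theorem radT_eq {n : ℕ} (z : Fin n → ℤ) (T : Finset (Fin n)) : radT z T = PSV.rd T z := rfl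

private theorem sign_mem (a : ℤ) : Int.sign a ∈ ({-1, 0, 1} : Finset ℤ) := by
  rcases lt_trichotomy a 0 with h | h | h
  · rw [Int.sign_eq_neg_one_of_neg h]
    simp
  · rw [h]
    simp
  · rw [Int.sign_eq_one_of_pos h]
    simp

/-- The class of a vector. -/
private def typ {n : ℕ} (z : Fin n → ℤ) : (Fin n → ℤ) × (Finset (Fin n) → ℕ) :=
  (fun i => Int.sign (z i), fun T => Nat.log 2 (radT z T))

private theorem card_typ {n B : ℕ} (Z : Finset (Fin n → ℤ)) (hZ : ∀ z ∈ Z, ∀ i, z i ≠ 0)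
    (hB : ∀ z ∈ Z, ∀ i, |z i| ≤ B) :
    (Z.image typ).card ≤ 3 ^ n * (Nat.log 2 (B ^ n) + 1) ^ 2 ^ n := by
  classical
  have h1 : Z.image typ ⊆ (Fintype.piFinset fun _ : Fin n => ({-1, 0, 1} : Finset ℤ)) ×ˢ
      Fintype.piFinset (fun _ : Finset (Fin n) => range (Nat.log 2 (B ^ n) + 1)) := by
    intro t ht
    obtain ⟨z, hz, rfl⟩ := mem_image.1 ht
    rw [mem_product]
    constructor
    · rw [Fintype.mem_piFinset]
      intro i
      exact sign_mem (z i)
    · rw [Fintype.mem_piFinset]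
      intro T
      rw [mem_range, Nat.lt_succ_iff]
      have h3 : radT z T ≤ B ^ n := by
        rw [radT_eq]
        exact PSV.rd_le_pow T (hZ z hz) (hB z hz)
      exact Nat.log_mono_right (b := 2) h3
  have h2 := card_le_card h1
  rw [card_product, Fintype.card_piFinset, Fintype.card_piFinset, prod_const, prod_const,
    card_range, card_univ, card_univ, Fintype.card_finset, Fintype.card_fin] at h2
  exact h2

theorem class_card {n B : ℕ} (hn : 3 ≤ n) (hB : 1 ≤ B) {ε : ℝ} (hε : 0 ≤ ε)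
    (h : ∀ (X : Finset (Fin n → ℤ)) (R : Finset (Fin n) → ℕ), Cls B X R → X.Nonempty →
      rho R ≤ (2 * n - 3) * (rho R - Real.log X.card) + ε * Real.log B)
    {M : Finset (Fin n) → ℝ} (hM : PSV.Bds M) (Z : Finset (Fin n → ℤ))
    (hZ : ∀ z ∈ Z, PSV.Adm B M z ∧ PSV.Sol {fun _ => 1} z) :
    (Z.card : ℝ) ≤ 3 ^ n * ((Nat.log 2 (B ^ n) + 1 : ℕ) : ℝ) ^ 2 ^ n *
      (Real.exp (2 ^ n) * (B : ℝ) ^ ε * (∏ F, M F) ^ (1 - 1 / (2 * n - 3 : ℝ))) := by
  classical
  have hBpos : (0 : ℝ) < B := by exact_mod_cast hB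
  have hB1 : (1 : ℝ) ≤ B := by exact_mod_cast hB
  have hn3 : (3 : ℝ) ≤ n := by exact_mod_cast hn
  have hMpos : ∀ F, 0 < M F := fun F => lt_of_lt_of_le one_pos (hM.one_le F)
  have hPpos : 0 < ∏ F, M F := prod_pos fun F _ => hMpos F
  have hPone : (1 : ℝ) ≤ ∏ F, M F := by
    have h1 : ∏ _F : Finset (Fin n), (1 : ℝ) ≤ ∏ F, M F :=
      prod_le_prod (fun _ _ => zero_le_one) fun F _ => hM.one_le F
    simpa using h1
  have hlogP : 0 ≤ Real.log (∏ F, M F) := Real.log_nonneg hPone
  have hlogB : 0 ≤ Real.log B := Real.log_nonneg hB1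
  set T : ℝ := Real.exp (2 ^ n) * (B : ℝ) ^ ε * (∏ F, M F) ^ (1 - 1 / (2 * n - 3 : ℝ)) with hT
  have hT0 : 0 ≤ T := by positivity
  have hclass : ∀ z₀ ∈ Z, ((Z.filter fun z => typ z = typ z₀).card : ℝ) ≤ T := by
    intro z₀ hz₀
    set X : Finset (Fin n → ℤ) := Z.filter fun z => typ z = typ z₀ with hX
    have hXne : X.Nonempty := ⟨z₀, mem_filter.2 ⟨hz₀, rfl⟩⟩
    set R : Finset (Fin n) → ℕ := fun T => 2 ^ Nat.log 2 (radT z₀ T) with hR
    have hcls : Cls B X R := by
      refine ⟨⟨?_, ?_, ?_⟩, ?_, ?_⟩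
      · intro z hz
        have hz' := hZ z (mem_filter.1 hz).1
        exact isPt_of_adm (by omega) hM hz'.1 hz'.2
      · intro z hz
        exact (hZ z (mem_filter.1 hz).1).1.le
      · intro z hz z' hz' i
        have h1 := (mem_filter.1 hz).2.trans (mem_filter.1 hz').2.symm
        have h2 : (fun i => Int.sign (z i)) = fun i => Int.sign (z' i) := congrArg Prod.fst h1
        exact congrFun h2 i
      · intro S
        exact Nat.one_le_two_pow
      · intro z hz S
        have h1 := (mem_filter.1 hz).2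
        have h2 : (fun T => Nat.log 2 (radT z T)) = fun T => Nat.log 2 (radT z₀ T) :=
          congrArg Prod.snd h1
        have h3 : Nat.log 2 (radT z S) = Nat.log 2 (radT z₀ S) := congrFun h2 S
        constructor
        · change 2 ^ Nat.log 2 (radT z₀ S) ≤ _
          rw [← h3]
          exact Nat.pow_log_le_self 2 (radT_pos z S).ne'
        · change _ < 2 * 2 ^ Nat.log 2 (radT z₀ S)
          rw [← h3, mul_comm, ← pow_succ]
          exact Nat.lt_pow_succ_log_self (by norm_num) _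
    have h1 := h X R hcls hXne
    have hXpos : (0 : ℝ) < X.card := by exact_mod_cast hXne.card_pos
    have hrho : rho R ≤ 2 ^ n * Real.log 2 + Real.log (∏ F, M F) := by
      have h2 : ∀ S ∈ (univ : Finset (Finset (Fin n))),
          Real.log (2 * (R S : ℝ)) ≤ Real.log 2 + Real.log (M S) := by
        intro S _
        have h3 : R S ≤ radT z₀ S := Nat.pow_log_le_self 2 (radT_pos z₀ S).ne'
        have h4 : (radT z₀ S : ℝ) ≤ M S := (hZ z₀ hz₀).1.rd_le S
        have h5 : (R S : ℝ) ≤ M S := (by exact_mod_cast h3 : (R S : ℝ) ≤ radT z₀ S).trans h4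
        have h6 : (0 : ℝ) < R S := by
          have : 0 < R S := Nat.two_pow_pos _
          exact_mod_cast this
        rw [Real.log_mul (by norm_num) h6.ne']
        have h7 := Real.log_le_log h6 h5
        linarith
      unfold rho
      refine (sum_le_sum h2).trans_eq ?_
      rw [sum_add_distrib, sum_const, card_univ, Fintype.card_finset, Fintype.card_fin,
        nsmul_eq_mul, Real.log_prod (fun F _ => (hMpos F).ne')]
      push_cast
      ring
    have ht : (0 : ℝ) < 2 * n - 3 := by linarith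
    have h2 : Real.log X.card ≤
        (1 - 1 / (2 * n - 3 : ℝ)) * rho R + ε * Real.log B := by
      have h3 : (2 * n - 3 : ℝ) * Real.log X.card ≤
          (2 * n - 3) * ((1 - 1 / (2 * n - 3 : ℝ)) * rho R + ε * Real.log B) := by
        have h4 : (2 * n - 3 : ℝ) * ((1 - 1 / (2 * n - 3 : ℝ)) * rho R + ε * Real.log B) =
            (2 * n - 3) * rho R - rho R + (2 * n - 3) * (ε * Real.log B) := by
          field_simp
        rw [h4]
        have h5 : ε * Real.log B ≤ (2 * n - 3) * (ε * Real.log B) :=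
          le_mul_of_one_le_left (mul_nonneg hε hlogB) (by linarith)
        linarith
      exact le_of_mul_le_mul_left h3 ht
    have hθ0 : (0 : ℝ) ≤ 1 - 1 / (2 * n - 3 : ℝ) := by
      rw [sub_nonneg, div_le_one ht]
      linarith
    have hθ1 : 1 - 1 / (2 * n - 3 : ℝ) ≤ 1 := by
      have : (0 : ℝ) ≤ 1 / (2 * n - 3 : ℝ) := by positivity
      linarith
    have h3 : Real.log X.card ≤ 2 ^ n + ε * Real.log B +
        (1 - 1 / (2 * n - 3 : ℝ)) * Real.log (∏ F, M F) := by
      have h4 := mul_le_mul_of_nonneg_left hrho hθ0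
      have h5 : (1 - 1 / (2 * n - 3 : ℝ)) * (2 ^ n * Real.log 2) ≤ 1 * (2 ^ n * 1) := by
        have h6 : Real.log 2 ≤ 1 := by
          have := Real.log_two_lt_d9
          linarith
        have h7 : (0 : ℝ) ≤ Real.log 2 := Real.log_nonneg (by norm_num)
        exact mul_le_mul hθ1 (mul_le_mul_of_nonneg_left h6 (by positivity)) (by positivity)
          zero_le_one
      rw [mul_add] at h4
      linarith
    calc (X.card : ℝ) = Real.exp (Real.log X.card) := (Real.exp_log hXpos).symm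
      _ ≤ Real.exp (2 ^ n + ε * Real.log B +
          (1 - 1 / (2 * n - 3 : ℝ)) * Real.log (∏ F, M F)) := Real.exp_le_exp.2 h3
      _ = T := by
        rw [hT, Real.exp_add, Real.exp_add, Real.rpow_def_of_pos hBpos, Real.rpow_def_of_pos hPpos,
          mul_comm ε, mul_comm (1 - 1 / (2 * n - 3 : ℝ))]
  have hsum : (Z.card : ℝ) ≤ ((Z.image typ).card : ℝ) * T := by
    rw [card_eq_sum_card_image typ Z, Nat.cast_sum, ← nsmul_eq_mul]
    refine sum_le_card_nsmul _ _ _ fun e he => ?_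
    obtain ⟨z, hz, rfl⟩ := mem_image.1 he
    exact hclass z hz
  refine hsum.trans (mul_le_mul_of_nonneg_right ?_ hT0)
  have h1 := card_typ (B := B) Z (fun z hz => (hZ z hz).1.ne_zero) fun z hz => (hZ z hz).1.le
  exact_mod_cast h1

end Pool.Agent.GL33
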