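import Pool.Agent.H4Cnt.Point

/-!
# GL33: a linear saving for the points that violate the n-term abc inequality

Definitions.  Everything is about integral vectors `z : Fin n → ℤ` (`H4Cnt.IsPt`: primitive, sum
zero, no vanishing proper subsum), their primes `H4Cnt.prs z` and the patterns
`H4Cnt.pat z p = {i | p ∣ z i}`.

* `part z P` : the part of `z` composed of the primes of `P` (a vector of positive integers).
* `radT z T` : the product of the primes of pattern `T`.
* `Pts B Y` : `Y` is a finite set of points of height at most `B`, all with the same signs.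
* `Cls B X R` : moreover `radT z T` lies in `[R T, 2 R T)`.
* `spn Y c z` : the span of the points of `Y` in the fibre of the function `c` through `z`;
  `rk Y c` : the maximum of the dimensions.
* `Good V p` : all non-zero entries of all 'coordinate bases' of `V` have `p`-adic valuation zero.
* `sig Y σ 𝒜 z` : the set `σ z` without the good primes whose pattern lies in `𝒜`.
* `St` : robust states.
-/

namespace Pool.Agent.GL33

open Finset H4Cnt

/-- The part of the vector `z` composed of the primes in `P`. -/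
def part {n : ℕ} (z : Fin n → ℤ) (P : Finset ℕ) : Fin n → ℕ :=
  fun i => ∏ p ∈ P, p ^ (z i).natAbs.factorization p

/-- The product of the primes of pattern `T`. -/
def radT {n : ℕ} (z : Fin n → ℤ) (T : Finset (Fin n)) : ℕ :=
  ∏ p ∈ prs z with pat z p = T, p

/-- A finite set of points of height at most `B`, all with the same signs. -/
structure Pts {n : ℕ} (B : ℕ) (Y : Finset (Fin n → ℤ)) : Prop where
  pt : ∀ z ∈ Y, IsPt z
  le : ∀ z ∈ Y, ∀ i, |z i| ≤ B
  sign : ∀ z ∈ Y, ∀ z' ∈ Y, ∀ i, Int.sign (z i) = Int.sign (z' i)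

/-- A class of points: the products of the primes of pattern `T` lie in `[R T, 2 R T)`. -/
structure Cls {n : ℕ} (B : ℕ) (X : Finset (Fin n → ℤ)) (R : Finset (Fin n) → ℕ) : Prop where
  pts : Pts B X
  one_le : ∀ T, 1 ≤ R T
  rad : ∀ z ∈ X, ∀ T, R T ≤ radT z T ∧ radT z T < 2 * R T

/-- The logarithm of the product of the bounds `2 * R T`. -/
noncomputable def rho {n : ℕ} (R : Finset (Fin n) → ℕ) : ℝ :=
  ∑ T, Real.log (2 * (R T : ℝ))

/-- The exponent up to which integers are allowed in `KB`. -/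
def expo (n : ℕ) : ℕ := 8 * n ^ (n + 1)

/-- `K` bounds the number of integers up to `B` composed of the primes of one integer
`E ≤ B ^ expo n`. -/
def KB (n B : ℕ) (K : ℝ) : Prop :=
  1 ≤ K ∧ ∀ E : ℕ, 0 < E → E ≤ B ^ expo n → ((smoothN E B).card : ℝ) ≤ K

/-- The vectors with entries up to `B` all of whose primes divide one integer `q ≤ Q`,
`q ≤ B ^ n`. -/
noncomputable def vecs (n Q B : ℕ) : Finset (Fin n → ℕ) := by
  classical
  exact (Icc 1 (min Q (B ^ n))).biUnion fun q => Fintype.piFinset fun _ : Fin n => smoothN q B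

/-- The rational vector of an integral vector. -/
def toQ {n : ℕ} (z : Fin n → ℤ) : Fin n → ℚ := fun i => (z i : ℚ)

/-- The span of the points of `Y` in the fibre of `c` through `z`. -/
def spn {n : ℕ} (Y : Finset (Fin n → ℤ)) (c : (Fin n → ℤ) → (Fin n → ℕ)) (z : Fin n → ℤ) :
    Submodule ℚ (Fin n → ℚ) :=
  Submodule.span ℚ (toQ '' {z' | z' ∈ Y ∧ c z' = c z})

/-- The maximal dimension of the span of a fibre. -/
noncomputable def rk {n : ℕ} (Y : Finset (Fin n → ℤ)) (c : (Fin n → ℤ) → (Fin n → ℕ)) : ℕ :=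
  Y.sup fun z => Module.finrank ℚ (spn Y c z)

/-- The subspace `D ∘ V` (coordinatewise product). -/
def scl {n : ℕ} (D : Fin n → ℚ) (V : Submodule ℚ (Fin n → ℚ)) : Submodule ℚ (Fin n → ℚ) :=
  V.map (LinearMap.mulLeft ℚ D)

/-- No proper non-empty set of coordinates splits off. -/
def Conn {n : ℕ} (V : Submodule ℚ (Fin n → ℚ)) : Prop :=
  ∀ J : Finset (Fin n), (∀ v ∈ V, (fun i => if i ∈ J then v i else 0) ∈ V) → J = ∅ ∨ J = univ

/-- `I` is a coordinate basis of `V`: the coordinates in `I` are coordinates of `V`. -/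
def IsCB {n : ℕ} (V : Submodule ℚ (Fin n → ℚ)) (I : Finset (Fin n)) : Prop :=
  I.card = Module.finrank ℚ V ∧ ∀ v ∈ V, (∀ i ∈ I, v i = 0) → v = 0

/-- `p` is good for `V`: for every coordinate basis `I` and every vector `e` of the corresponding
basis of `V` (one coordinate in `I` is `1`, the others are `0`), the non-zero coordinates of `e`
have `p`-adic valuation zero. -/
def Good {n : ℕ} (V : Submodule ℚ (Fin n → ℚ)) (p : ℕ) : Prop :=
  ∀ I : Finset (Fin n), IsCB V I → ∀ e ∈ V, ∀ i ∈ I, e i = 1 → (∀ i' ∈ I, i' ≠ i → e i' = 0) →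
    ∀ j, e j ≠ 0 → padicValRat p (e j) = 0

/-- The product of the absolute values of the non-zero minors of the vectors `u s`. -/
noncomputable def nmin {n r : ℕ} (u : Fin r → Fin n → ℤ) : ℕ := by
  classical
  exact ∏ φ : Fin r → Fin n, if (Matrix.of fun s t => u s (φ t)).det = 0 then 1 else
    (Matrix.of fun s t => u s (φ t)).det.natAbs

/-- The `c`-vector of a selection of primes. -/
def cv {n : ℕ} (σ : (Fin n → ℤ) → Finset ℕ) (z : Fin n → ℤ) : Fin n → ℕ := part z (σ z)

/-- The span of the vectors `z' / c z` for the points `z'` of the fibre of `z`. -/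
def uspn {n : ℕ} (Y : Finset (Fin n → ℤ)) (σ : (Fin n → ℤ) → Finset ℕ) (z : Fin n → ℤ) :
    Submodule ℚ (Fin n → ℚ) :=
  scl (fun i => ((cv σ z i : ℚ))⁻¹) (spn Y (cv σ) z)

open Classical in
/-- The selection `σ` without the good primes whose pattern lies in `𝒜`. -/
noncomputable def sig {n : ℕ} (Y : Finset (Fin n → ℤ)) (σ : (Fin n → ℤ) → Finset ℕ)
    (𝒜 : Finset (Finset (Fin n))) (z : Fin n → ℤ) : Finset ℕ :=
  (σ z).filter fun p => ¬ (pat z p ∈ 𝒜 ∧ Good (uspn Y σ z) p)

/-- The primes of `z` whose pattern does not lie in `𝒜`. -/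
def sig₀ {n : ℕ} (𝒜 : Finset (Finset (Fin n))) (z : Fin n → ℤ) : Finset ℕ :=
  (prs z).filter fun p => pat z p ∉ 𝒜

/-- Robustness: subsets whose fibres span less than dimension `r` are small. -/
def Rob {n : ℕ} (Y : Finset (Fin n → ℤ)) (c : (Fin n → ℤ) → (Fin n → ℕ)) (r : ℕ) (α : ℝ) : Prop :=
  ∀ Y' ⊆ Y, Y'.Nonempty → rk Y' c < r → Real.log Y'.card ≤ Real.log Y.card - α

/-- A robust state of rank `r`. -/
structure St {n : ℕ} (Y : Finset (Fin n → ℤ)) (σ : (Fin n → ℤ) → Finset ℕ) (r : ℕ) (α f : ℝ) :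
    Prop where
  ne : Y.Nonempty
  sub : ∀ z ∈ Y, σ z ⊆ prs z
  rank : ∀ z ∈ Y, Module.finrank ℚ (spn Y (cv σ) z) = r
  rob : Rob Y (cv σ) r α
  fib : ∀ z ∈ Y, Real.log (Y.filter fun z' => cv σ z' = cv σ z).card ≤ f

end Pool.Agent.GL33
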