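import Pool.Agent.GL33.Defs

/-!
# GL33/Part: the part of a vector composed of a set of primes

`part z P i = ∏ p ∈ P, p ^ (z i).natAbs.factorization p`, `prs z` = the primes dividing `∏ z i`,
`pat z p = {i | p ∣ z i}`.

Proofs. The elements of `prs z` are primes (`H4Cnt.prs_prime`), so `part_pos` is clear.
`part_mul_sdiff`: `Finset.prod_sdiff`. `part_prs`: `z i ≠ 0` (`IsPt.ne_zero`), the primes of `z i` are in
`prs z` (`H4Cnt.mem_prs`), the exponents of the others are `0`: `Nat.factorization_prod_pow_eq_self` and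
`Finset.prod_subset`. `part_dvd`, `part_le`: from `part_mul_sdiff`, `part_prs`.
`dvd_part_iff`: a prime dividing the product divides one of its factors (`Prime.dvd_finset_prod_iff`),
hence equals it (`Nat.prime_dvd_prime_iff_eq`), and the exponent is not `0`.
`val_part_of_mem`, `val_part_of_not_mem`: `padicValRat` of a natural number is its `padicValNat`, or
factorization (`Nat.factorization_def`); `Nat.factorization_prod`, `Nat.Prime.factorization`.
-/

namespace Pool.Agent.GL33

open Finset H4Cnt

variable {n : ℕ} {z z' : Fin n → ℤ} {P Q : Finset ℕ}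

theorem part_pos (hP : P ⊆ prs z) (i : Fin n) : 0 < part z P i := by
  unfold part
  exact prod_pos fun p hp => pow_pos (prs_prime z p (hP hp)).pos _

theorem part_mul_sdiff (h : P ⊆ Q) (i : Fin n) :
    part z P i * part z (Q \ P) i = part z Q i := by
  unfold part
  rw [mul_comm]
  exact prod_sdiff h

theorem part_prs (hn : 2 ≤ n) (hz : IsPt z) (i : Fin n) : part z (prs z) i = (z i).natAbs := by
  have h0 : (z i).natAbs ≠ 0 := by
    rw [Int.natAbs_ne_zero]
    exact hz.ne_zero hn i
  conv_rhs => rw [← Nat.prod_factorization_pow_eq_self h0]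
  unfold part
  rw [Finsupp.prod]
  symm
  apply prod_subset
  · intro p hp
    rw [Nat.support_factorization, Nat.mem_primeFactors] at hp
    exact mem_prs hn hz p hp.1 i (Int.natCast_dvd.2 hp.2.1)
  · intro p _ hp
    rw [Finsupp.notMem_support_iff] at hp
    rw [hp, pow_zero]

theorem part_dvd (hn : 2 ≤ n) (hz : IsPt z) (hP : P ⊆ prs z) (i : Fin n) :
    (part z P i : ℤ) ∣ z i := by
  rw [Int.natCast_dvd, ← part_prs hn hz i, ← part_mul_sdiff hP i]
  exact dvd_mul_right _ _

theorem part_le (hn : 2 ≤ n) (hz : IsPt z) (hP : P ⊆ prs z) {B : ℕ} (hB : ∀ i, |z i| ≤ B)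
    (i : Fin n) : part z P i ≤ B := by
  have h0 : 0 < (z i).natAbs := by
    rw [Int.natAbs_pos]
    exact hz.ne_zero hn i
  have h1 : part z P i ≤ (z i).natAbs := Nat.le_of_dvd h0 (Int.natCast_dvd.1 (part_dvd hn hz hP i))
  have h2 := hB i
  rw [Int.abs_eq_natAbs] at h2
  exact h1.trans (by exact_mod_cast h2)

theorem dvd_part_iff (hn : 2 ≤ n) (hz : IsPt z) (hP : P ⊆ prs z) {p : ℕ} (hp : p.Prime)
    (i : Fin n) : p ∣ part z P i ↔ p ∈ P ∧ (p : ℤ) ∣ z i := by
  have h0 : (z i).natAbs ≠ 0 := by
    rw [Int.natAbs_ne_zero]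
    exact hz.ne_zero hn i
  constructor
  · intro h
    refine ⟨?_, (Int.natCast_dvd_natCast.2 h).trans (part_dvd hn hz hP i)⟩
    unfold part at h
    rw [Prime.dvd_finsetProd_iff hp.prime] at h
    obtain ⟨q, hq, hd⟩ := h
    have h1 := hp.dvd_of_dvd_pow hd
    rw [Nat.prime_dvd_prime_iff_eq hp (prs_prime z q (hP hq))] at h1
    rw [h1]
    exact hq
  · rintro ⟨h1, h2⟩
    unfold part
    refine dvd_trans ?_ (dvd_prod_of_mem _ h1)
    apply dvd_pow_self
    rw [Int.natCast_dvd] at h2
    exact (hp.factorization_pos_of_dvd h0 h2).ne'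

private theorem part_factorization (hP : P ⊆ prs z) {p : ℕ} (i : Fin n) :
    (part z P i).factorization p = if p ∈ P then (z i).natAbs.factorization p else 0 := by
  unfold part
  rw [Nat.factorization_prod_apply fun q hq =>
    (pow_pos (prs_prime z q (hP hq)).pos _).ne']
  rw [← Finset.sum_ite_eq P p fun q => (z i).natAbs.factorization q]
  refine sum_congr rfl fun q hq => ?_
  have hq' : q.Prime := prs_prime z q (hP hq)
  rw [hq'.factorization_pow]
  by_cases h : p = q
  · subst h
    simp
  · rw [Finsupp.single_eq_of_ne h, if_neg h]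

theorem val_part_of_mem (hP : P ⊆ prs z) {p : ℕ} (hpP : p ∈ P) (i : Fin n) :
    padicValRat p (part z P i : ℚ) = (z i).natAbs.factorization p := by
  have hp : p.Prime := prs_prime z p (hP hpP)
  rw [padicValRat.of_nat, ← Nat.factorization_def _ hp, part_factorization hP]
  simp [hpP]

theorem val_part_of_not_mem (hP : P ⊆ prs z) {p : ℕ} (hp : p.Prime) (hpP : p ∉ P) (i : Fin n) :
    padicValRat p (part z P i : ℚ) = 0 := by
  rw [padicValRat.of_nat, ← Nat.factorization_def _ hp, part_factorization hP]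
  simp [hpP]

end Pool.Agent.GL33
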