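import Pool.Agent.GL33.Defs

/-!
# GL33/Span: the spans of the fibres and the rank

`spn Y c z` = span of the `toQ z'`, `z' ∈ Y`, `c z' = c z`; `rk Y c = Y.sup (finrank (spn Y c z))`.

Proofs. All immediate from `Submodule.subset_span`, `Submodule.span_mono`,
`Submodule.finrank_mono`, `Finset.le_sup`, `Finset.sup_le`, `Finset.exists_mem_eq_sup`.
`spn_sum`: the condition is linear and holds for the generators. `rk_lt`: the sum is a non-zero
functional on `ℚ^n`, its kernel is not `⊤`, so `finrank (spn Y c z) < n` (`Submodule.finrank_lt`).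
`eq_of_finrank_le_one`: `toQ z`, `toQ z'` lie in a space of dimension `≤ 1` and are non-zero, so
`z' = t z` with rational `t = a / b`, `a, b` coprime; `b z' i = a z i` for all `i`, so `b` divides all
`z i`, `a` divides all `z' i`, hence `a, b = ± 1` (`IsPt.cop`), and `t = 1` because the signs agree
(`n ≥ 2`, so `z i ≠ 0`).
-/

namespace Pool.Agent.GL33

open Finset H4Cnt

variable {n : ℕ} {Y Y' : Finset (Fin n → ℤ)} {c c' : (Fin n → ℤ) → (Fin n → ℕ)}
  {z z' : Fin n → ℤ}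

theorem mem_spn (hz' : z' ∈ Y) (h : c z' = c z) : toQ z' ∈ spn Y c z :=
  Submodule.subset_span ⟨z', ⟨hz', h⟩, rfl⟩

theorem spn_congr (h : c z = c z') : spn Y c z = spn Y c z' := by
  unfold spn
  rw [h]

theorem spn_mono (h : Y' ⊆ Y) (c : (Fin n → ℤ) → (Fin n → ℕ)) (z : Fin n → ℤ) :
    spn Y' c z ≤ spn Y c z := by
  refine Submodule.span_mono (Set.image_mono ?_)
  intro w hw
  exact ⟨h hw.1, hw.2⟩

theorem spn_le_of (h : ∀ z' ∈ Y, c z' = c z → c' z' = c' z) : spn Y c z ≤ spn Y c' z := by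
  refine Submodule.span_mono (Set.image_mono ?_)
  intro w hw
  exact ⟨hw.1, h w hw.1 hw.2⟩

theorem finrank_le_rk (hz : z ∈ Y) : Module.finrank ℚ (spn Y c z) ≤ rk Y c :=
  Finset.le_sup (f := fun z => Module.finrank ℚ (spn Y c z)) hz

theorem rk_le (Y : Finset (Fin n → ℤ)) (c : (Fin n → ℤ) → (Fin n → ℕ)) : rk Y c ≤ n := by
  refine Finset.sup_le fun z _ => ?_
  have h := Submodule.finrank_le (spn Y c z)
  rwa [Module.finrank_fin_fun] at h

theorem rk_mono (h : Y' ⊆ Y) (c : (Fin n → ℤ) → (Fin n → ℕ)) : rk Y' c ≤ rk Y c := by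
  refine Finset.sup_le fun z hz => ?_
  exact (Submodule.finrank_mono (spn_mono h c z)).trans (finrank_le_rk (h hz))

theorem rk_le_of (h : ∀ z ∈ Y, ∀ z' ∈ Y, c z' = c z → c' z' = c' z) : rk Y c ≤ rk Y c' := by
  refine Finset.sup_le fun z hz => ?_
  exact (Submodule.finrank_mono (spn_le_of fun z' hz' => h z hz z' hz')).trans (finrank_le_rk hz)

theorem rk_lt_of {r : ℕ} (hr : 0 < r) (h : ∀ z ∈ Y, Module.finrank ℚ (spn Y c z) < r) :
    rk Y c < r :=
  (Finset.sup_lt_iff hr).2 h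

theorem rk_le_of_forall {r : ℕ} (h : ∀ z ∈ Y, Module.finrank ℚ (spn Y c z) ≤ r) :
    rk Y c ≤ r :=
  Finset.sup_le h

theorem spn_sum (hY : ∀ z ∈ Y, IsPt z) : ∀ v ∈ spn Y c z, ∑ i, v i = 0 := by
  intro v hv
  unfold spn at hv
  induction hv using Submodule.span_induction with
  | mem x hx =>
      obtain ⟨w, hw, rfl⟩ := hx
      have h := (hY w hw.1).sum
      unfold toQ
      exact_mod_cast h
  | zero => simp
  | add x y _ _ hx hy =>
      simp only [Pi.add_apply, Finset.sum_add_distrib, hx, hy, add_zero]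
  | smul a x _ hx =>
      simp only [Pi.smul_apply, smul_eq_mul, ← Finset.mul_sum, hx, mul_zero]

theorem finrank_lt (hn : 1 ≤ n) (hY : ∀ z ∈ Y, IsPt z) (c : (Fin n → ℤ) → (Fin n → ℕ))
    (z : Fin n → ℤ) : Module.finrank ℚ (spn Y c z) < n := by
  have h1 : spn Y c z ≠ ⊤ := by
    intro h
    have h2 : (Pi.single (⟨0, hn⟩ : Fin n) (1 : ℚ) : Fin n → ℚ) ∈ spn Y c z := by
      rw [h]
      exact Submodule.mem_top
    have h3 := spn_sum hY _ h2
    rw [Finset.sum_pi_single'] at h3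
    simp at h3
  have h4 := Submodule.finrank_lt h1
  rwa [Module.finrank_fin_fun] at h4

theorem rk_lt (hn : 1 ≤ n) (hY : ∀ z ∈ Y, IsPt z) (c : (Fin n → ℤ) → (Fin n → ℕ)) :
    rk Y c < n :=
  rk_lt_of hn fun z _ => finrank_lt hn hY c z

private theorem sp_toQ_ne (hn : 2 ≤ n) (hz : IsPt z) : toQ z ≠ 0 := by
  intro h
  have h1 := congrFun h ⟨0, by omega⟩
  have h2 := hz.ne_zero hn ⟨0, by omega⟩
  apply h2
  have h3 : ((z ⟨0, by omega⟩ : ℤ) : ℚ) = 0 := h1
  exact_mod_cast h3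

theorem one_le_rk (hn : 2 ≤ n) (hY : ∀ z ∈ Y, IsPt z) (hne : Y.Nonempty)
    (c : (Fin n → ℤ) → (Fin n → ℕ)) : 1 ≤ rk Y c := by
  obtain ⟨z, hz⟩ := hne
  refine le_trans ?_ (finrank_le_rk (c := c) hz)
  rw [Submodule.one_le_finrank_iff]
  intro h
  have h1 : toQ z ∈ spn Y c z := mem_spn hz rfl
  rw [h, Submodule.mem_bot] at h1
  exact sp_toQ_ne hn (hY z hz) h1

private theorem sp_num {z z' : Fin n → ℤ} (hz : IsPt z) (hz' : IsPt z') {t : ℚ}
    (h : ∀ i, ((z' i : ℤ) : ℚ) = t * (z i : ℚ)) : t = 1 ∨ t = -1 := by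
  have h1 : ∀ i, (t.den : ℤ) * z' i = t.num * z i := by
    intro i
    have h2 : (t.den : ℚ) * ((z' i : ℤ) : ℚ) = (t.num : ℚ) * (z i : ℚ) := by
      rw [h i]
      have h3 : (t.den : ℚ) * t = t.num := by
        rw [mul_comm]
        exact Rat.mul_den_eq_num t
      rw [← mul_assoc, h3]
    exact_mod_cast h2
  have hcop : IsCoprime (t.num) (t.den : ℤ) := by
    rw [Int.isCoprime_iff_gcd_eq_one]
    exact t.reduced
  have h4 : IsUnit (t.den : ℤ) := by
    refine hz.cop _ fun i => ?_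
    have h5 : (t.den : ℤ) ∣ t.num * z i := ⟨z' i, (h1 i).symm⟩
    exact hcop.symm.dvd_of_dvd_mul_left h5
  have h6 : IsUnit (t.num) := by
    refine hz'.cop _ fun i => ?_
    have h5 : t.num ∣ (t.den : ℤ) * z' i := ⟨z i, h1 i⟩
    exact hcop.dvd_of_dvd_mul_left h5
  have h7 : t.den = 1 := by
    have := Int.isUnit_iff.1 h4
    omega
  rw [← Rat.num_div_den t, h7]
  rcases Int.isUnit_iff.1 h6 with h8 | h8
  · left; rw [h8]; norm_num
  · right; rw [h8]; norm_num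

theorem eq_of_finrank_le_one (hn : 2 ≤ n) {B : ℕ} (hY : Pts B Y) (hz : z ∈ Y) (hz' : z' ∈ Y)
    {V : Submodule ℚ (Fin n → ℚ)} (hV : Module.finrank ℚ V ≤ 1) (h : toQ z ∈ V)
    (h' : toQ z' ∈ V) : z = z' := by
  obtain ⟨v, hv⟩ := finrank_le_one_iff.1 hV
  obtain ⟨a, ha⟩ := hv ⟨toQ z, h⟩
  obtain ⟨b, hb⟩ := hv ⟨toQ z', h'⟩
  have ha' : a • (v : Fin n → ℚ) = toQ z := congrArg Subtype.val ha
  have hb' : b • (v : Fin n → ℚ) = toQ z' := congrArg Subtype.val hb
  have hP := hY.pt z hz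
  have hP' := hY.pt z' hz'
  have ha0 : a ≠ 0 := by
    rintro rfl
    rw [zero_smul] at ha'
    exact sp_toQ_ne hn hP ha'.symm
  have h1 : ∀ i, ((z' i : ℤ) : ℚ) = (b / a) * (z i : ℚ) := by
    intro i
    have e1 : a * (v : Fin n → ℚ) i = (z i : ℚ) := congrFun ha' i
    have e2 : b * (v : Fin n → ℚ) i = (z' i : ℚ) := congrFun hb' i
    rw [← e1, ← e2]
    field_simp
  have h0 := hP.ne_zero hn ⟨0, by omega⟩
  rcases sp_num hP hP' h1 with h2 | h2
  · funext i
    have h3 := h1 i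
    rw [h2, one_mul] at h3
    exact_mod_cast h3.symm
  · exfalso
    have h3 := h1 ⟨0, by omega⟩
    rw [h2] at h3
    have h4 : z' ⟨0, by omega⟩ = - z ⟨0, by omega⟩ := by
      have h5 : ((z' ⟨0, by omega⟩ : ℤ) : ℚ) = ((- z ⟨0, by omega⟩ : ℤ) : ℚ) := by
        rw [h3]; push_cast; ring
      exact_mod_cast h5
    have h6 := hY.sign z hz z' hz' ⟨0, by omega⟩
    rw [h4, Int.sign_neg] at h6
    have h7 : (z ⟨0, by omega⟩).sign = 0 := by omega
    exact h0 (Int.sign_eq_zero_iff_zero.1 h7)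

end Pool.Agent.GL33
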