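import Pool.Agent.GL33.Lin
import Pool.Agent.GL33.Part
import Pool.Agent.GL33.Span

/-!
# GL33/ExTuple: an integral basis of `uspn Y σ z`

Proof. `spn Y (cv σ) z` is spanned by the `toQ z'` for `z' ∈ Y` with `cv σ z' = cv σ z`: choose a
basis consisting of such vectors, `t : Fin r → (Fin n → ℤ)` (for instance
`Submodule.exists_fun_fin_finrank_span_eq` or `exists_linearIndependent`). Put
`u s i = t s i / (part (t s) (σ (t s)) i : ℤ)`, an exact division (`part_dvd`), where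
`part (t s) (σ (t s)) = cv σ (t s) = cv σ z`. So `toQ (u s) = (cv σ z)⁻¹ * toQ (t s)`; the map
`v ↦ (cv σ z)⁻¹ * v` is linear and injective and maps `spn Y (cv σ) z` onto `uspn Y σ z`.
`|u s i| ≤ |t s i| ≤ B`.
-/

namespace Pool.Agent.GL33

open Finset H4Cnt

variable {n : ℕ}

theorem cv_pos {σ : (Fin n → ℤ) → Finset ℕ} {z : Fin n → ℤ} (h : σ z ⊆ prs z) (i : Fin n) :
    0 < cv σ z i := part_pos h i

theorem ex_tuple (hn : 2 ≤ n) {B : ℕ} {Y : Finset (Fin n → ℤ)} (hY : Pts B Y)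
    {σ : (Fin n → ℤ) → Finset ℕ} (hσ : ∀ z ∈ Y, σ z ⊆ prs z) {z : Fin n → ℤ} (hz : z ∈ Y) :
    ∃ u : Fin (Module.finrank ℚ (spn Y (cv σ) z)) → Fin n → ℤ,
      (∀ s i, |u s i| ≤ B) ∧ LinearIndependent ℚ (fun s => toQ (u s)) ∧
      Submodule.span ℚ (Set.range fun s => toQ (u s)) = uspn Y σ z := by
  have hex : ∃ f : Fin (Module.finrank ℚ (spn Y (cv σ) z)) → Fin n → ℚ,
      (∀ i, f i ∈ toQ '' {z' | z' ∈ Y ∧ cv σ z' = cv σ z}) ∧
      Submodule.span ℚ (Set.range f) = spn Y (cv σ) z ∧ LinearIndependent ℚ f :=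
    Submodule.exists_fun_fin_finrank_span_eq ℚ (toQ '' {z' | z' ∈ Y ∧ cv σ z' = cv σ z})
  obtain ⟨t', ht', hspan, hli⟩ := hex
  choose t ht1 ht2 using ht'
  set D : Fin n → ℚ := fun i => ((cv σ z i : ℚ))⁻¹ with hD
  have hcz : ∀ i, (cv σ z i : ℚ) ≠ 0 := by
    intro i
    have := cv_pos (hσ z hz) i
    exact_mod_cast this.ne'
  have hinj : Function.Injective (LinearMap.mulLeft ℚ D) := by
    intro v w hvw
    funext i
    have h1 := congrFun hvw i
    simp only [LinearMap.mulLeft_apply, Pi.mul_apply] at h1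
    exact mul_left_cancel₀ (inv_ne_zero (hcz i)) h1
  have hu : ∀ s, toQ (fun i => t s i / (cv σ z i : ℤ)) = LinearMap.mulLeft ℚ D (t' s) := by
    intro s
    funext i
    rw [LinearMap.mulLeft_apply, Pi.mul_apply, ← ht2 s]
    show ((t s i / (cv σ z i : ℤ) : ℤ) : ℚ) = ((cv σ z i : ℚ))⁻¹ * (t s i : ℚ)
    have hdvd : (cv σ z i : ℤ) ∣ t s i := by
      have h1 := part_dvd hn (hY.pt _ (ht1 s).1) (hσ _ (ht1 s).1) i
      have h2 : part (t s) (σ (t s)) = cv σ z := (ht1 s).2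
      rw [h2] at h1
      exact h1
    rw [Int.cast_div hdvd (by exact_mod_cast hcz i), Int.cast_natCast]
    rw [div_eq_mul_inv, mul_comm]
  refine ⟨fun s i => t s i / (cv σ z i : ℤ), ?_, ?_, ?_⟩
  · intro s i
    exact le_trans (Int.abs_ediv_le_abs _ _) (hY.le _ (ht1 s).1 i)
  · show LinearIndependent ℚ (fun s => toQ (fun i => t s i / (cv σ z i : ℤ)))
    have h1 := hli.map' (LinearMap.mulLeft ℚ D) (LinearMap.ker_eq_bot.2 hinj)
    have h2 : (fun s => toQ (fun i => t s i / (cv σ z i : ℤ))) =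
        (LinearMap.mulLeft ℚ D) ∘ t' := by
      funext s
      exact hu s
    rw [h2]
    exact h1
  · show Submodule.span ℚ (Set.range (fun s => toQ (fun i => t s i / (cv σ z i : ℤ)))) = _
    have h2 : (fun s => toQ (fun i => t s i / (cv σ z i : ℤ))) =
        (LinearMap.mulLeft ℚ D) ∘ t' := by
      funext s
      exact hu s
    rw [h2, Set.range_comp, ← Submodule.map_span, hspan]
    rfl

end Pool.Agent.GL33
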