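import Pool.Agent.GL33.Grow

/-!
# GL33/FibG: the fibres after dropping good primes

`spans_eq`: if `Ys ⊆ Y`, `z ∈ Yg ⊆ Ys`, and the dimensions of `spn Ys (cv σ) z` and
`spn Ys (cv (sig Y σ 𝒜)) z` are both `r`, the dimension of `spn Y (cv σ) z`, then the three spaces are
equal: `spn Ys (cv σ) z ≤ spn Ys (cv (sig Y σ 𝒜)) z` (`spn_le_of`, `sig_eq`) and
`spn Ys (cv σ) z ≤ spn Y (cv σ) z` (`spn_mono`) with equal dimensions
(`Submodule.eq_of_le_of_finrank_eq`).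

`fib_good`: let `S` be the fibre of `cv (sig Y σ 𝒜)` in `Yg` through `z`. For `z' ∈ S`:
`spn Y (cv σ) z' = spn Ys (cv (sig Y σ 𝒜)) z' = spn Ys (cv (sig Y σ 𝒜)) z =: V`. `grow_card` with
`σ₁ = sig Y σ 𝒜` (primes of `σ z'` not in `sig Y σ 𝒜 z'` are good, by definition): `cv σ` takes at most
`K ^ n` values on `S`. Every fibre of `cv σ` in `Yg ⊆ Y` has at most `exp f` elements (`hSt.fib`).
`Finset.card_le_mul_card_image`.
-/

namespace Pool.Agent.GL33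

open Finset H4Cnt

variable {n B : ℕ} {K : ℝ} {Y Ys Yg : Finset (Fin n → ℤ)} {σ : (Fin n → ℤ) → Finset ℕ} {r : ℕ}
  {α f : ℝ}

theorem spans_eq (hn : 3 ≤ n) (hY : Pts B Y) (hSt : St Y σ r α f) (hYs : Ys ⊆ Y) (hYg : Yg ⊆ Ys)
    (𝒜 : Finset (Finset (Fin n))) (h1 : ∀ z ∈ Yg, Module.finrank ℚ (spn Ys (cv σ) z) = r)
    (h2 : ∀ z ∈ Yg, Module.finrank ℚ (spn Ys (cv (sig Y σ 𝒜)) z) = r) {z : Fin n → ℤ}
    (hz : z ∈ Yg) : spn Ys (cv (sig Y σ 𝒜)) z = spn Y (cv σ) z := by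
  have hzY : z ∈ Y := hYs (hYg hz)
  have hA : spn Ys (cv σ) z ≤ spn Ys (cv (sig Y σ 𝒜)) z := by
    apply spn_le_of
    intro z' hz' h
    exact (sig_eq (by omega) hY.pt hSt.sub 𝒜 (hYs hz') hzY h).2
  have hB : spn Ys (cv σ) z ≤ spn Y (cv σ) z := spn_mono hYs _ _
  have hA' := Submodule.eq_of_le_of_finrank_eq hA (by rw [h1 z hz, h2 z hz])
  have hB' := Submodule.eq_of_le_of_finrank_eq hB (by rw [h1 z hz, hSt.rank z hzY])
  rw [← hA', hB']

theorem fib_good (hn : 3 ≤ n) (hB : n ≤ B) (hK : KB n B K) (hY : Pts B Y) (hSt : St Y σ r α f)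
    (hYs : Ys ⊆ Y) (hYg : Yg ⊆ Ys) (𝒜 : Finset (Finset (Fin n)))
    (h1 : ∀ z ∈ Yg, Module.finrank ℚ (spn Ys (cv σ) z) = r)
    (h2 : ∀ z ∈ Yg, Module.finrank ℚ (spn Ys (cv (sig Y σ 𝒜)) z) = r) :
    ∀ z ∈ Yg, ((Yg.filter fun z' => cv (sig Y σ 𝒜) z' = cv (sig Y σ 𝒜) z).card : ℝ) ≤
      K ^ n * Real.exp f := by
  classical
  intro z hz
  set S := Yg.filter fun z' => cv (sig Y σ 𝒜) z' = cv (sig Y σ 𝒜) z with hS
  have hSg : S ⊆ Yg := filter_subset _ _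
  have hSY : S ⊆ Y := hSg.trans (hYg.trans hYs)
  have hSc : ∀ z' ∈ S, cv (sig Y σ 𝒜) z' = cv (sig Y σ 𝒜) z := fun z' hz' =>
    (mem_filter.1 hz').2
  have himg : ((S.image (cv σ)).card : ℝ) ≤ K ^ n := by
    apply grow_card hn hB hK hY (σ₁ := sig Y σ 𝒜) hSt.sub hSY
      (V := spn Ys (cv (sig Y σ 𝒜)) z)
    · intro z' hz'
      rw [← spans_eq hn hY hSt hYs hYg 𝒜 h1 h2 (hSg hz')]
      exact spn_congr (hSc z' hz')
    · intro z' _
      exact sig_sub Y σ 𝒜 z'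
    · intro z' _ p hp hp'
      by_contra hcon
      apply hp'
      unfold sig
      rw [mem_filter]
      exact ⟨hp, fun h => hcon h.2⟩
    · intro z' hz' z'' hz''
      rw [hSc z' hz', hSc z'' hz'']
  have hfib : ∀ a ∈ S.image (cv σ), (S.filter fun x => cv σ x = a).card ≤ ⌊Real.exp f⌋₊ := by
    intro a ha
    rw [mem_image] at ha
    obtain ⟨z₁, hz₁, rfl⟩ := ha
    apply Nat.le_floor
    have hz₁Y := hSY hz₁
    have hle : (S.filter fun x => cv σ x = cv σ z₁).card ≤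
        (Y.filter fun x => cv σ x = cv σ z₁).card := by
      apply card_le_card
      intro x hx
      rw [mem_filter] at hx ⊢
      exact ⟨hSY hx.1, hx.2⟩
    have hpos : 0 < (Y.filter fun x => cv σ x = cv σ z₁).card := by
      rw [card_pos]
      exact ⟨z₁, by rw [mem_filter]; exact ⟨hz₁Y, rfl⟩⟩
    have h3 := hSt.fib z₁ hz₁Y
    have h4 : ((Y.filter fun x => cv σ x = cv σ z₁).card : ℝ) ≤ Real.exp f := by
      rw [← Real.log_le_iff_le_exp (by exact_mod_cast hpos)]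
      exact h3
    exact (by exact_mod_cast hle : ((S.filter fun x => cv σ x = cv σ z₁).card : ℝ) ≤
      ((Y.filter fun x => cv σ x = cv σ z₁).card : ℝ)).trans h4
  have hcard := Finset.card_le_mul_card_image S ⌊Real.exp f⌋₊ hfib
  have h5 : ((⌊Real.exp f⌋₊ : ℕ) : ℝ) ≤ Real.exp f := Nat.floor_le (Real.exp_pos f).le
  calc (S.card : ℝ) ≤ ((⌊Real.exp f⌋₊ * (S.image (cv σ)).card : ℕ) : ℝ) := by exact_mod_cast hcard
    _ = ((⌊Real.exp f⌋₊ : ℕ) : ℝ) * ((S.image (cv σ)).card : ℝ) := by push_cast; ring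
    _ ≤ Real.exp f * K ^ n := by
        apply mul_le_mul h5 himg (by positivity) (Real.exp_pos f).le
    _ = K ^ n * Real.exp f := mul_comm _ _

end Pool.Agent.GL33
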