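import Pool.Agent.GL33.TupCard

/-!
# GL33/FinA: the final estimate, when dropping all good primes does not increase the rank

Notation: `τ = sig Y σ univ`, `𝒞 = Yg.image (cv τ)`, `γ = log |𝒞|`, `ℓ = log K ≥ 0`.

Proof. `r ≥ 1`, `r ≤ n - 1` (`finrank_lt`; `hSt.ne`). All logarithms below are of positive numbers:
`Ys` is nonempty, so `Yg` is (`hcard`), `𝒞` is. Let `D = (∏ T, 2 * R T) / 2 ^ t` (natural division).
For `z ∈ Ys`: `(∏ p ∈ prs z \ τ z, p) * 2 ^ t ≤ (∏ prs z \ τ z) * (∏ τ z) = ∏ prs z ≤ ∏ T, 2 R T`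
(`Finset.prod_sdiff`, `Cls.prod_le` with `univ`), so `∏ p ∈ prs z \ τ z, p ≤ D` (`Nat.le_div_iff_mul_le`),
and `D ≤ exp (rho R) / 2 ^ t` (`exp_rho`, `Nat.cast_div_le`), `D ≥ 1`.
(1) `sample` and `tup_card`: `(|Ys| / 4) ^ r ≤ 2 |𝒞| ^ (r - 1) (D K ^ n) ^ r K ^ n`; logarithms:
`r (log |Ys| - log 4) ≤ log 2 + (r - 1) γ + r (rho - t log 2 + n ℓ) + n ℓ`.
(2) `cv τ z ∈ vecs n (2 ^ (t+1)) B` for `z ∈ Yg` (`part_mem_vecs`), `card_vecs_le`:
`γ ≤ (t + 1) log 2 + n ℓ`, so `- t log 2 ≤ - γ + log 2 + n ℓ`.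
(1) and (2): `γ ≤ r (rho - log |Ys|) + r log 8 + log 2 + (2 n r + n) ℓ`.
(3) `fib_good` with `𝒜 = univ`: `|Yg| ≤ |𝒞| K ^ n exp f` (`Finset.card_le_mul_card_image`), so
`log |Ys| ≤ log 2 + γ + n ℓ + f`.
Sum: `rho ≤ (r + 1) (rho - log |Ys|) + f + r log 8 + 2 log 2 + (2 n r + 2 n) ℓ`, and
`r log 8 + 2 log 2 ≤ 3 n + 2` (`log 2 ≤ 0.7`, `r ≤ n - 1`), `2 n r + 2 n ≤ 2 n ^ 2 ≤ 4 n ^ 2`.
-/

namespace Pool.Agent.GL33

open Finset H4Cnt

variable {n B : ℕ} {K : ℝ} {X Y Ys Yg : Finset (Fin n → ℤ)} {R : Finset (Fin n) → ℕ}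
  {σ : (Fin n → ℤ) → Finset ℕ} {r : ℕ} {α α' f : ℝ}

theorem finA (hn : 3 ≤ n) (hB : n ≤ B) (hK : KB n B K) (hX : Cls B X R) (hYX : Y ⊆ X)
    (hSt : St Y σ r α f) (hr : 1 ≤ r) (hYs : Ys ⊆ Y) (hne : Ys.Nonempty) (t : ℕ)
    (ht : ∀ z ∈ Ys, 2 ^ t ≤ ∏ p ∈ sig Y σ univ z, p ∧ ∏ p ∈ sig Y σ univ z, p < 2 ^ (t + 1))
    (hrob : Rob Ys (cv (sig Y σ univ)) r α') (hα' : Real.log (8 * r) ≤ α') (hYg : Yg ⊆ Ys)
    (hcard : (Ys.card : ℝ) ≤ 2 * Yg.card)
    (h1 : ∀ z ∈ Yg, Module.finrank ℚ (spn Ys (cv σ) z) = r)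
    (h2 : ∀ z ∈ Yg, Module.finrank ℚ (spn Ys (cv (sig Y σ univ)) z) = r) :
    rho R ≤ (r + 1) * (rho R - Real.log Ys.card) + f + (3 * n + 2) +
      4 * n ^ 2 * Real.log K := by
  classical
  have hY : Pts B Y := ⟨fun z hz => hX.pts.pt z (hYX hz), fun z hz => hX.pts.le z (hYX hz),
    fun z hz z' hz' => hX.pts.sign z (hYX hz) z' (hYX hz')⟩
  have hK1 : 1 ≤ K := hK.1
  have hB1 : 1 ≤ B := by omega
  have hl0 : 0 ≤ Real.log K := Real.log_nonneg hK1
  -- the rank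
  have hrn : r < n := by
    obtain ⟨z, hz⟩ := hSt.ne
    rw [← hSt.rank z hz]
    exact finrank_lt (by omega) hY.pt _ _
  -- cardinalities
  have hYs0 : (0 : ℝ) < Ys.card := by exact_mod_cast card_pos.2 hne
  have hYg0 : (0 : ℝ) < Yg.card := by linarith
  have hYgne : Yg.Nonempty := by
    rw [← card_pos]
    exact_mod_cast hYg0
  set 𝒞 := Yg.image (cv (sig Y σ univ)) with h𝒞
  have h𝒞ne : 𝒞.Nonempty := hYgne.image _
  have h𝒞0 : (0 : ℝ) < 𝒞.card := by exact_mod_cast card_pos.2 h𝒞ne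
  -- the bound D
  set D := (∏ T, 2 * R T) / 2 ^ t with hD
  have hDz : ∀ z ∈ Ys, ∏ p ∈ prs z \ sig Y σ univ z, p ≤ D := by
    intro z hz
    have hzY := hYs hz
    rw [hD, Nat.le_div_iff_mul_le (by positivity)]
    have hsub : sig Y σ univ z ⊆ prs z := (sig_sub Y σ univ z).trans (hSt.sub z hzY)
    calc (∏ p ∈ prs z \ sig Y σ univ z, p) * 2 ^ t ≤
        (∏ p ∈ prs z \ sig Y σ univ z, p) * ∏ p ∈ sig Y σ univ z, p :=
          Nat.mul_le_mul_left _ (ht z hz).1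
      _ = ∏ p ∈ prs z, p := prod_sdiff hsub
      _ ≤ ∏ T, 2 * R T := hX.prod_le (hYX hzY) univ (Subset.refl _) (fun p _ => mem_univ _)
  have hD1 : 1 ≤ D := by
    obtain ⟨z, hz⟩ := hne
    refine le_trans ?_ (hDz z hz)
    exact prod_pos_of_sub sdiff_subset
  have hD1' : (1 : ℝ) ≤ D := by exact_mod_cast hD1
  have hDle : (D : ℝ) ≤ Real.exp (rho R) / 2 ^ t := by
    rw [exp_rho hX.one_le, hD]
    have := @Nat.cast_div_le ℝ _ _ _ (∏ T, 2 * R T) (2 ^ t)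
    push_cast at this ⊢
    exact this
  have hlogD : Real.log D ≤ rho R - t * Real.log 2 := by
    have := Real.log_le_log (by linarith) hDle
    rwa [Real.log_div (Real.exp_pos _).ne' (by positivity), Real.log_exp, Real.log_pow] at this
  -- (1)
  have hs := sample hr hrob hα' hYg hcard
  have htc := tup_card hn hB hK hY hSt hr hYs hYg h1 h2 D hDz
  have hKn : (0 : ℝ) < K ^ n := by positivity
  have h3 : ((Ys.card : ℝ) / 4) ^ r ≤
      2 * (𝒞.card : ℝ) ^ (r - 1) * (((D : ℝ) * K ^ n) ^ r * K ^ n) := by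
    refine hs.trans ?_
    apply mul_le_mul_of_nonneg_left htc
    positivity
  have hDpos : (0 : ℝ) < D := by linarith
  have h4 := Real.log_le_log (by positivity) h3
  rw [Real.log_pow, Real.log_div hYs0.ne' (by norm_num),
    Real.log_mul (by positivity) (by positivity), Real.log_mul (by norm_num) (by positivity),
    Real.log_mul (by positivity) (by positivity), Real.log_pow, Real.log_pow,
    Real.log_mul (by positivity) (by positivity), Real.log_pow] at h4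
  have hrc : ((r - 1 : ℕ) : ℝ) = (r : ℝ) - 1 := by
    rw [Nat.cast_sub hr]
    simp
  rw [hrc] at h4
  -- (2)
  have h5 : 𝒞 ⊆ vecs n (2 ^ (t + 1)) B := by
    intro a ha
    rw [h𝒞, mem_image] at ha
    obtain ⟨z, hz, rfl⟩ := ha
    have hzY := hYs (hYg hz)
    exact part_mem_vecs (by omega) (hY.pt z hzY) (hY.le z hzY)
      ((sig_sub Y σ univ z).trans (hSt.sub z hzY)) (ht z (hYg hz)).2.le
  have h6 : (𝒞.card : ℝ) ≤ 2 ^ (t + 1) * K ^ n := by
    have := card_vecs_le hB1 hK (2 ^ (t + 1))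
    push_cast at this
    refine le_trans ?_ this
    exact_mod_cast card_le_card h5
  have h7 := Real.log_le_log h𝒞0 h6
  rw [Real.log_mul (by positivity) (by positivity), Real.log_pow, Real.log_pow] at h7
  push_cast at h7
  -- (3)
  have hfg := fib_good hn hB hK hY hSt hYs hYg univ h1 h2
  have hfib : ∀ a ∈ Yg.image (cv (sig Y σ univ)),
      (Yg.filter fun x => cv (sig Y σ univ) x = a).card ≤ ⌊K ^ n * Real.exp f⌋₊ := by
    intro a ha
    rw [mem_image] at ha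
    obtain ⟨z₁, hz₁, rfl⟩ := ha
    exact Nat.le_floor (hfg z₁ hz₁)
  have hc3 := Finset.card_le_mul_card_image Yg ⌊K ^ n * Real.exp f⌋₊ hfib
  have hfl : ((⌊K ^ n * Real.exp f⌋₊ : ℕ) : ℝ) ≤ K ^ n * Real.exp f :=
    Nat.floor_le (by positivity)
  have h8 : (Yg.card : ℝ) ≤ K ^ n * Real.exp f * (𝒞.card : ℝ) := by
    calc (Yg.card : ℝ) ≤ ((⌊K ^ n * Real.exp f⌋₊ * 𝒞.card : ℕ) : ℝ) := by exact_mod_cast hc3
      _ = ((⌊K ^ n * Real.exp f⌋₊ : ℕ) : ℝ) * (𝒞.card : ℝ) := by push_cast; ring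
      _ ≤ K ^ n * Real.exp f * (𝒞.card : ℝ) := mul_le_mul_of_nonneg_right hfl h𝒞0.le
  have h9 : (Ys.card : ℝ) ≤ 2 * (K ^ n * Real.exp f * (𝒞.card : ℝ)) := by linarith
  have h10 := Real.log_le_log hYs0 h9
  rw [Real.log_mul (by positivity) (by positivity), Real.log_mul (by positivity) (by positivity),
    Real.log_mul (by positivity) (by positivity), Real.log_exp, Real.log_pow] at h10
  -- collect
  have hlog4 : Real.log 4 = 2 * Real.log 2 := by
    rw [show (4 : ℝ) = 2 ^ 2 by norm_num, Real.log_pow]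
    norm_num
  have hlog2 : Real.log 2 < 0.7 := by
    have := Real.log_two_lt_d9
    linarith
  have hlog2' : 0 < Real.log 2 := Real.log_pos (by norm_num)
  rw [hlog4] at h4
  set x := Real.log (Ys.card : ℝ) with hx
  set γ := Real.log (𝒞.card : ℝ) with hγ
  set l := Real.log K with hl
  have hr1 : (1 : ℝ) ≤ r := by exact_mod_cast hr
  have hrn' : (r : ℝ) + 1 ≤ n := by exact_mod_cast hrn
  -- r * log D
  have h11 : (r : ℝ) * Real.log D ≤ r * (rho R - t * Real.log 2) :=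
    mul_le_mul_of_nonneg_left hlogD (by linarith)
  have h12 : (r : ℝ) * γ ≤ r * ((t + 1) * Real.log 2 + n * l) :=
    mul_le_mul_of_nonneg_left h7 (by linarith)
  have hrl : (r : ℝ) * Real.log 2 ≤ n * 0.7 - 0.7 := by
    have h13 : (r : ℝ) * Real.log 2 ≤ r * 0.7 :=
      mul_le_mul_of_nonneg_left hlog2.le (by linarith)
    linarith
  have hnl : (r : ℝ) * n * l + n * l ≤ n ^ 2 * l := by
    have h14 : ((r : ℝ) + 1) * (n * l) ≤ n * (n * l) := by
      apply mul_le_mul_of_nonneg_right hrn'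
      positivity
    linarith
  have hn2l : 0 ≤ (n : ℝ) ^ 2 * l := by positivity
  have h15 : γ ≤ r * (rho R - x) + 3 * (r * Real.log 2) + Real.log 2 + (2 * (r * n * l) + n * l) := by
    linarith
  have h16 : x ≤ r * (rho R - x) + 3 * (r * Real.log 2) + 2 * Real.log 2 +
      2 * (r * n * l + n * l) + f := by
    linarith
  have hn3 : (3 : ℝ) ≤ n := by exact_mod_cast hn
  linarith

end Pool.Agent.GL33
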