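import Pool.Agent.GL33.Lin

/-!
# GL33/GoodScl: the growth lemma (helper50), without Pluecker coordinates

`Good V p`: for every coordinate basis `I` of `V` and every `e ∈ V` with `e i = 1` for one `i ∈ I`
and `e i' = 0` for the other `i' ∈ I`, all non-zero coordinates of `e` have `p`-adic valuation `0`.

`good_scl_iff`: the coordinate bases of `scl D V` and `V` are the same (`isCB_scl`); if
`e ∈ scl D V`, `e i = 1`, `e i' = 0`, then `e' j := D i * (D j)⁻¹ * e j` is in `V`, `e' i = 1`,
`e' i' = 0`, and conversely; `padicValRat p (e' j) = padicValRat p (e j)` if `e j ≠ 0` because the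
valuations of `D i`, `D j` are `0` (`padicValRat.mul`, `padicValRat.inv`; needs `Fact p.Prime`).

`exists_cbasis`: for a coordinate basis `I` and `i ∈ I` there is a unique `e ∈ V` with `e i = 1`,
`e i' = 0` for the other `i' ∈ I` (the restriction `V → (I → ℚ)` is injective between spaces of the
same dimension, hence bijective).

`good_scl`: let `I` be a coordinate basis of `V` (`exists_isCB`), `e i` (`i ∈ I`) the vectors of
`exists_cbasis`. If `e i j ≠ 0` then `val (e i j) = 0`, and the vector of `scl D V` belonging to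
`i ∈ I` is `j ↦ D j * (D i)⁻¹ * e i j`, so also `val (D j) - val (D i) + val (e i j) = 0`: hence
`val (D j) = val (D i)`. Let `t = val (D i₀)` and `J = {j | val (D j) = t}`. For `i ∈ I ∩ J` the
vector `1_J * e i` is `e i`, for `i ∈ I`, `i ∉ J` it is `0`. Every `v ∈ V` is
`∑ i ∈ I, v i • e i` (the difference vanishes on `I`), so `1_J * v ∈ V`. By `Conn V`, `J` is
everything (it contains `i₀`).
-/

namespace Pool.Agent.GL33

open Finset H4Cnt

variable {n : ℕ}

theorem exists_cbasis {V : Submodule ℚ (Fin n → ℚ)} {I : Finset (Fin n)} (hI : IsCB V I)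
    {i : Fin n} (hi : i ∈ I) :
    ∃ e ∈ V, e i = 1 ∧ ∀ i' ∈ I, i' ≠ i → e i' = 0 := by
  classical
  let ρ : V →ₗ[ℚ] (I → ℚ) := LinearMap.pi (fun i => (LinearMap.proj (i : Fin n)) ∘ₗ V.subtype)
  have hρ : ∀ (v : V) (i : I), ρ v i = (v : Fin n → ℚ) i := fun v i => rfl
  have hinj : Function.Injective ρ := by
    rw [injective_iff_map_eq_zero]
    intro v hv
    apply Subtype.ext
    apply hI.2 v.1 v.2
    intro i hi
    have := congrFun hv ⟨i, hi⟩
    rw [hρ] at this
    exact this
  have hfr : Module.finrank ℚ V = Module.finrank ℚ (I → ℚ) := by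
    rw [Module.finrank_fintype_fun_eq_card, Fintype.card_coe, hI.1]
  have hsurj : Function.Surjective ρ :=
    (LinearMap.injective_iff_surjective_of_finrank_eq_finrank hfr).mp hinj
  obtain ⟨e, he⟩ := hsurj (Pi.single ⟨i, hi⟩ 1)
  refine ⟨e.1, e.2, ?_, ?_⟩
  · rw [← hρ e ⟨i, hi⟩, he, Pi.single_eq_same]
  · intro i' hi' hne
    rw [← hρ e ⟨i', hi'⟩, he, Pi.single_eq_of_ne]
    intro h
    exact hne (congrArg Subtype.val h)

theorem scl_vec {V : Submodule ℚ (Fin n → ℚ)} (D : Fin n → ℚ) {e : Fin n → ℚ} (he : e ∈ V)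
    (i : Fin n) : (fun j => D j * (D i)⁻¹ * e j) ∈ scl D V := by
  rw [mem_scl]
  refine ⟨(D i)⁻¹ • e, V.smul_mem _ he, ?_⟩
  funext j
  rw [Pi.mul_apply, Pi.smul_apply, smul_eq_mul, mul_assoc]

theorem val_vec {p : ℕ} (hp : p.Prime) {D : Fin n → ℚ} (hD : ∀ i, D i ≠ 0) {x : ℚ} (hx : x ≠ 0)
    (i j : Fin n) : padicValRat p (D j * (D i)⁻¹ * x) =
      padicValRat p (D j) - padicValRat p (D i) + padicValRat p x := by
  have : Fact p.Prime := ⟨hp⟩
  rw [padicValRat.mul (mul_ne_zero (hD j) (inv_ne_zero (hD i))) hx,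
    padicValRat.mul (hD j) (inv_ne_zero (hD i)), padicValRat.inv]
  ring

theorem good_scl_mp {p : ℕ} (hp : p.Prime) {D : Fin n → ℚ} (hD : ∀ i, D i ≠ 0)
    (hval : ∀ i, padicValRat p (D i) = 0) (V : Submodule ℚ (Fin n → ℚ))
    (h : Good (scl D V) p) : Good V p := by
  intro I hI e he i hi he1 he0 j hj
  have h1 := h I ((isCB_scl hD V I).mpr hI) _ (scl_vec D he i) i hi
    (by rw [he1, mul_one, mul_inv_cancel₀ (hD i)])
    (by
      intro i' hi' hne
      rw [he0 i' hi' hne, mul_zero]) j
    (mul_ne_zero (mul_ne_zero (hD j) (inv_ne_zero (hD i))) hj)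
  rw [val_vec hp hD hj, hval, hval] at h1
  simpa using h1

theorem good_scl_iff {p : ℕ} (hp : p.Prime) {D : Fin n → ℚ} (hD : ∀ i, D i ≠ 0)
    (hval : ∀ i, padicValRat p (D i) = 0) (V : Submodule ℚ (Fin n → ℚ)) :
    Good (scl D V) p ↔ Good V p := by
  have : Fact p.Prime := ⟨hp⟩
  refine ⟨good_scl_mp hp hD hval V, fun h => ?_⟩
  apply good_scl_mp hp (D := fun i => (D i)⁻¹) (fun i => inv_ne_zero (hD i))
  · intro i
    rw [padicValRat.inv, hval, neg_zero]
  · rw [scl_scl]
    have h1 : (fun i => (D i)⁻¹ * D i) = fun _ : Fin n => (1 : ℚ) := by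
      funext i
      exact inv_mul_cancel₀ (hD i)
    rw [h1, scl_one]
    exact h

theorem good_scl {p : ℕ} (hp : p.Prime) {V : Submodule ℚ (Fin n → ℚ)} (hV : Conn V)
    {D : Fin n → ℚ} (hD : ∀ i, D i ≠ 0) (h1 : Good V p) (h2 : Good (scl D V) p) (i j : Fin n) :
    padicValRat p (D i) = padicValRat p (D j) := by
  classical
  obtain ⟨I, hI⟩ := exists_isCB V
  have hex : ∀ i, ∃ e : Fin n → ℚ, i ∈ I → (e ∈ V ∧ e i = 1 ∧ ∀ i' ∈ I, i' ≠ i → e i' = 0) := by
    intro i
    by_cases hi : i ∈ I
    · obtain ⟨e, h1, h2, h3⟩ := exists_cbasis hI hi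
      exact ⟨e, fun _ => ⟨h1, h2, h3⟩⟩
    · exact ⟨0, fun h => absurd h hi⟩
  choose e he using hex
  have hval : ∀ i ∈ I, ∀ j, e i j ≠ 0 → padicValRat p (D j) = padicValRat p (D i) := by
    intro i hi j hj
    obtain ⟨heV, he1, he0⟩ := he i hi
    have h3 := h1 I hI (e i) heV i hi he1 he0 j hj
    have h4 := h2 I ((isCB_scl hD V I).mpr hI) _ (scl_vec D heV i) i hi
      (by rw [he1, mul_one, mul_inv_cancel₀ (hD i)])
      (by
        intro i' hi' hne
        rw [he0 i' hi' hne, mul_zero]) j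
      (mul_ne_zero (mul_ne_zero (hD j) (inv_ne_zero (hD i))) hj)
    rw [val_vec hp hD hj, h3] at h4
    linarith
  have hdec : ∀ v ∈ V, v = ∑ i ∈ I, v i • e i := by
    intro v hv
    have h := hI.2 (v - ∑ i ∈ I, v i • e i)
      (V.sub_mem hv (V.sum_mem fun i hi => V.smul_mem _ (he i hi).1)) (by
        intro i' hi'
        rw [Pi.sub_apply, Finset.sum_apply, Finset.sum_eq_single i']
        · rw [Pi.smul_apply, (he i' hi').2.1, smul_eq_mul, mul_one, sub_self]
        · intro i hi hne
          rw [Pi.smul_apply, (he i hi).2.2 i' hi' hne.symm, smul_zero]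
        · intro h
          exact absurd hi' h)
    exact sub_eq_zero.mp h
  have hJ := hV (univ.filter (fun i' => padicValRat p (D i') = padicValRat p (D j))) (by
    intro v hv
    have hmem : ∑ i ∈ I, (if padicValRat p (D i) = padicValRat p (D j) then v i else 0) • e i ∈ V :=
      V.sum_mem fun i hi => V.smul_mem _ (he i hi).1
    convert hmem using 1
    funext x
    have hvx : v x = ∑ i ∈ I, v i * e i x := by
      conv_lhs => rw [hdec v hv]
      rw [Finset.sum_apply]
      rfl
    rw [Finset.sum_apply]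
    simp only [Pi.smul_apply, smul_eq_mul, Finset.mem_filter, Finset.mem_univ, true_and]
    by_cases hx : padicValRat p (D x) = padicValRat p (D j)
    · rw [if_pos hx, hvx]
      apply Finset.sum_congr rfl
      intro i hi
      by_cases h0 : e i x = 0
      · rw [h0, mul_zero, mul_zero]
      · rw [if_pos ((hval i hi x h0).symm.trans hx)]
    · rw [if_neg hx]
      symm
      apply Finset.sum_eq_zero
      intro i hi
      by_cases h0 : e i x = 0
      · rw [h0, mul_zero]
      · rw [if_neg (fun h => hx ((hval i hi x h0).trans h)), zero_mul])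
  rcases hJ with hJ | hJ
  · exfalso
    have : j ∈ univ.filter (fun i' => padicValRat p (D i') = padicValRat p (D j)) := by
      rw [Finset.mem_filter]
      exact ⟨Finset.mem_univ _, rfl⟩
    rw [hJ] at this
    exact absurd this (Finset.notMem_empty _)
  · have : i ∈ univ.filter (fun i' => padicValRat p (D i') = padicValRat p (D j)) := by
      rw [hJ]
      exact Finset.mem_univ _
    exact (Finset.mem_filter.mp this).2

end Pool.Agent.GL33
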