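import Pool.Agent.GL33.Lin

/-!
# GL33/Minor: bad primes divide minors

`nmin u` is the product of the absolute values of the non-zero determinants of the `r × r` matrices
`(u s (φ t))_{s,t}`, over all functions `φ : Fin r → Fin n`.

`bad_dvd`: let `W` be the span of the `toQ (u s)`, of dimension `r`. `¬ Good W p` gives a
coordinate basis `I`, `e ∈ W`, `i ∈ I` with `e i = 1`, `e i' = 0` for the other `i' ∈ I`, and `j`
with `e j ≠ 0`, `val_p (e j) ≠ 0`. As `I.card = r` there is a bijection `φ : Fin r → I`; let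
`φ t₀ = i`. Write `e = ∑ s, l s • toQ (u s)`. The matrix `M = (u s (φ t))` has non-zero determinant
(a vector `l` with `l ᵥ* M = 0` gives an element of `W` that vanishes on `I`, so it is zero, so
`l = 0`). `l ᵥ* M = δ_{t₀}` and `e j = ∑ s, l s * u s j`, so by Cramer's rule
`det M * e j = det M'`, where `M'` is `M` with the column `t₀` replaced by `(u s j)_s`, i.e. the matrix
of `φ' = Function.update φ t₀ j` (e.g. `det M • (l ⬝ᵥ b) = (l ᵥ* (M * adjugate M)) ⬝ᵥ b`
`= l ᵥ* M ⬝ᵥ (adjugate M *ᵥ b) = (adjugate M *ᵥ b) t₀ = cramer M b t₀ = det (M.updateCol t₀ b)`,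
`Matrix.cramer_apply`, `Matrix.mul_adjugate`). Both determinants are non-zero integers (cast to
`ℚ`) and `val_p (det M') - val_p (det M) ≠ 0`, so `p` divides one of them, hence `nmin u`.

`nmin_pos`: all factors are positive. `nmin_le`: every factor is at most `r! * B ^ r`
(`Matrix.det_le` or the Leibniz formula), `r! ≤ r ^ r ≤ B ^ r`, so at most `B ^ (2 * n)`; there are
`n ^ r ≤ n ^ n` functions `φ`; `(B ^ (2 * n)) ^ (n ^ n) = B ^ (2 * n ^ (n + 1))`.
-/

namespace Pool.Agent.GL33

open Finset H4Cnt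

theorem nmin_pos {n r : ℕ} (u : Fin r → Fin n → ℤ) : 0 < nmin u := by
  classical
  unfold nmin
  apply Finset.prod_pos
  intro φ _
  split_ifs with h
  · exact one_pos
  · exact Int.natAbs_pos.mpr h

theorem nmin_le {n r : ℕ} (hn : 1 ≤ n) (hr : r ≤ n) {B : ℕ} (hB : n ≤ B)
    (u : Fin r → Fin n → ℤ) (hu : ∀ s i, |u s i| ≤ B) : nmin u ≤ B ^ (2 * n ^ (n + 1)) := by
  classical
  have hB1 : 1 ≤ B := le_trans hn hB
  have hfac : ∀ φ : Fin r → Fin n, (if (Matrix.of fun s t => u s (φ t)).det = 0 then 1 else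
      (Matrix.of fun s t => u s (φ t)).det.natAbs) ≤ B ^ (2 * n) := by
    intro φ
    split_ifs with h
    · exact Nat.one_le_pow _ _ hB1
    · have h1 := Matrix.det_le (A := Matrix.of fun s t => u s (φ t)) (abv := AbsoluteValue.abs)
        (x := (B : ℤ)) (fun s t => hu s (φ t))
      rw [Fintype.card_fin, nsmul_eq_mul, AbsoluteValue.abs_apply] at h1
      have h2 : (Matrix.of fun s t => u s (φ t)).det.natAbs ≤ Nat.factorial r * B ^ r := by
        zify
        exact_mod_cast h1
      refine le_trans h2 ?_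
      calc Nat.factorial r * B ^ r ≤ r ^ r * B ^ r :=
            Nat.mul_le_mul_right _ (Nat.factorial_le_pow r)
        _ ≤ B ^ r * B ^ r := Nat.mul_le_mul_right _ (Nat.pow_le_pow_left (le_trans hr hB) r)
        _ = B ^ (2 * r) := by rw [← pow_add, two_mul]
        _ ≤ B ^ (2 * n) := Nat.pow_le_pow_right hB1 (by omega)
  unfold nmin
  calc ∏ φ : Fin r → Fin n, (if (Matrix.of fun s t => u s (φ t)).det = 0 then 1 else
        (Matrix.of fun s t => u s (φ t)).det.natAbs)
      ≤ ∏ _φ : Fin r → Fin n, B ^ (2 * n) :=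
        Finset.prod_le_prod' fun φ _ => hfac φ
    _ = B ^ (2 * n * n ^ r) := by
        rw [Finset.prod_const, Finset.card_univ, Fintype.card_fun, Fintype.card_fin,
          Fintype.card_fin, ← pow_mul]
    _ ≤ B ^ (2 * n ^ (n + 1)) := by
        apply Nat.pow_le_pow_right hB1
        rw [pow_succ, mul_assoc]
        apply Nat.mul_le_mul_left
        rw [mul_comm]
        exact Nat.mul_le_mul_right _ (Nat.pow_le_pow_right hn hr)

theorem cramer_vec {r : ℕ} (M : Matrix (Fin r) (Fin r) ℚ) (l b : Fin r → ℚ) (t₀ : Fin r)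
    (h : Matrix.vecMul l M = Pi.single t₀ 1) :
    M.det * (l ⬝ᵥ b) = (M.updateCol t₀ b).det := by
  rw [← Matrix.cramer_apply, Matrix.cramer_eq_adjugate_mulVec]
  have h1 : (Matrix.vecMul l M) ⬝ᵥ (Matrix.mulVec M.adjugate b) = M.det * (l ⬝ᵥ b) := by
    rw [← Matrix.dotProduct_mulVec, Matrix.mulVec_mulVec, Matrix.mul_adjugate,
      Matrix.smul_mulVec, Matrix.one_mulVec, dotProduct_smul, smul_eq_mul]
  rw [← h1, h, single_one_dotProduct]

theorem toQ_det {n r : ℕ} (u : Fin r → Fin n → ℤ) (φ : Fin r → Fin n) :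
    (((Matrix.of fun s t => u s (φ t)).det : ℤ) : ℚ) =
      (Matrix.of fun s t => toQ (u s) (φ t)).det := by
  rw [Int.cast_det]
  rfl

theorem bad_dvd {n r : ℕ} (u : Fin r → Fin n → ℤ)
    (hu : LinearIndependent ℚ (fun s => toQ (u s))) {p : ℕ} (hp : p.Prime)
    (h : ¬ Good (Submodule.span ℚ (Set.range fun s => toQ (u s))) p) : p ∣ nmin u := by
  classical
  have : Fact p.Prime := ⟨hp⟩
  set W := Submodule.span ℚ (Set.range fun s => toQ (u s)) with hW
  unfold Good at h
  push Not at h
  obtain ⟨I, hI, e, heW, i, hi, he1, he0, j, hj, hval⟩ := h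
  have hcard : I.card = r := by
    rw [hI.1, hW, finrank_span_eq_card hu, Fintype.card_fin]
  set φe := I.equivFinOfCardEq hcard with hφe
  set φ : Fin r → Fin n := fun t => ((φe.symm t : I) : Fin n) with hφ
  set t₀ : Fin r := φe ⟨i, hi⟩ with ht₀
  have hφt₀ : φ t₀ = i := by
    rw [hφ, ht₀]
    simp
  have hφI : ∀ t, φ t ∈ I := fun t => (φe.symm t).2
  have hφinj : Function.Injective φ := by
    intro a b hab
    exact φe.symm.injective (Subtype.ext hab)
  have hφsurj : ∀ i' ∈ I, ∃ t, φ t = i' := by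
    intro i' hi'
    refine ⟨φe ⟨i', hi'⟩, ?_⟩
    rw [hφ]
    simp
  obtain ⟨l, hl⟩ := (Submodule.mem_span_range_iff_exists_fun ℚ).mp heW
  set M : Matrix (Fin r) (Fin r) ℚ := Matrix.of fun s t => toQ (u s) (φ t) with hM
  have hMdet : M.det ≠ 0 := by
    intro hdet
    obtain ⟨v, hv0, hvM⟩ := Matrix.exists_vecMul_eq_zero_iff.mpr hdet
    apply hv0
    have hw : ∑ s, v s • toQ (u s) = 0 := by
      apply hI.2
      · exact (Submodule.mem_span_range_iff_exists_fun ℚ).mpr ⟨v, rfl⟩
      · intro i' hi'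
        obtain ⟨t, rfl⟩ := hφsurj i' hi'
        have := congrFun hvM t
        rw [Matrix.vecMul, dotProduct] at this
        rw [Finset.sum_apply]
        simpa [hM] using this
    funext s
    exact (Fintype.linearIndependent_iff.mp hu) v hw s
  have hlM : Matrix.vecMul l M = Pi.single t₀ 1 := by
    funext t
    have h1 : Matrix.vecMul l M t = e (φ t) := by
      rw [← hl, Matrix.vecMul, dotProduct, Finset.sum_apply]
      rfl
    rw [h1]
    by_cases ht : t = t₀
    · rw [ht, hφt₀, he1, Pi.single_eq_same]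
    · rw [Pi.single_eq_of_ne ht]
      apply he0 _ (hφI t)
      intro h2
      apply ht
      apply hφinj
      rw [h2, hφt₀]
  have hcr := cramer_vec M l (fun s => toQ (u s) j) t₀ hlM
  have hle : l ⬝ᵥ (fun s => toQ (u s) j) = e j := by
    rw [← hl, dotProduct, Finset.sum_apply]
    rfl
  have hup : M.updateCol t₀ (fun s => toQ (u s) j) =
      Matrix.of fun s t => toQ (u s) (Function.update φ t₀ j t) := by
    ext s t
    rw [Matrix.updateCol_apply, Matrix.of_apply]
    by_cases ht : t = t₀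
    · rw [if_pos ht, ht, Function.update_self]
    · rw [if_neg ht, Function.update_of_ne ht]
      rfl
  rw [hle, hup, hM, ← toQ_det, ← toQ_det] at hcr
  rw [hM, ← toQ_det] at hMdet
  set d := (Matrix.of fun s t => u s (φ t)).det with hd
  set d' := (Matrix.of fun s t => u s (Function.update φ t₀ j t)).det with hd'
  have hd0 : d ≠ 0 := by exact_mod_cast hMdet
  have hd'0 : d' ≠ 0 := by
    intro h0
    rw [h0, Int.cast_zero] at hcr
    exact mul_ne_zero hMdet hj hcr
  have hfacd : ∀ ψ : Fin r → Fin n, (Matrix.of fun s t => u s (ψ t)).det ≠ 0 →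
      (Matrix.of fun s t => u s (ψ t)).det.natAbs ∣ nmin u := by
    intro ψ hψ
    unfold nmin
    have h1 := Finset.dvd_prod_of_mem (fun ψ : Fin r → Fin n =>
      if (Matrix.of fun s t => u s (ψ t)).det = 0 then 1 else
        (Matrix.of fun s t => u s (ψ t)).det.natAbs) (Finset.mem_univ ψ)
    rw [if_neg hψ] at h1
    exact h1
  by_cases hpd : (p : ℤ) ∣ d
  · exact dvd_trans (Int.natCast_dvd.mp hpd) (hfacd φ hd0)
  · by_cases hpd' : (p : ℤ) ∣ d'
    · exact dvd_trans (Int.natCast_dvd.mp hpd') (hfacd _ hd'0)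
    · exfalso
      apply hval
      have h1 := congrArg (padicValRat p) hcr
      rw [padicValRat.mul hMdet hj, padicValRat.of_int, padicValRat.of_int,
        padicValInt.eq_zero_of_not_dvd hpd, padicValInt.eq_zero_of_not_dvd hpd'] at h1
      simpa using h1

end Pool.Agent.GL33
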