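import Pool.Agent.GL33.Part

/-!
# GL33/PartEq: equal parts have equal primes, patterns and factorizations

Proofs. `mem_of_part_eq`: if `p ∈ P ⊆ prs z` then `p` is a prime dividing some `z i`
(it divides `∏ z i`), so `p ∣ part z P i = part z' P' i` by `dvd_part_iff`, hence `p ∈ P'`. By symmetry
`P = P'`, and for `p ∈ P`: `i ∈ pat z p ↔ p ∣ z i ↔ p ∣ part z P i ↔ p ∣ part z' P' i ↔ i ∈ pat z' p`.
`factorization_eq_of_part_eq`: `val_part_of_mem`.
`part_sub_eq`: the two products agree factor by factor.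
`sig_eq`: the spans `spn Y (cv σ) z` and `spn Y (cv σ) z'` are equal (the fibres are equal), so
`uspn Y σ z = uspn Y σ z'`, and `σ z = σ z'`, with equal patterns (`eq_of_part_eq`), so the filters
agree; then `part_sub_eq`.
`eq_of_cv_prs`: if `σ z = prs z` and `σ z' = prs z'`, equal parts mean `|z i| = |z' i|` (`part_prs`).
`eq_of_sdiff`: if `cv τ z = cv τ z'` and the complementary parts agree, then `|z i| = |z' i|`
(`part_mul_sdiff`, `part_prs`) and `z = z'` because the signs are equal (`Int.sign_mul_natAbs`).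
-/

namespace Pool.Agent.GL33

open Finset H4Cnt

variable {n : ℕ} {z z' : Fin n → ℤ} {P P' Q : Finset ℕ}

private theorem ex_dvd_pe {p : ℕ} (h : p ∈ prs z) : ∃ i, (p : ℤ) ∣ z i := by
  have hp := prs_prime z p h
  have h1 : p ∣ (∏ i, z i).natAbs := Nat.dvd_of_mem_primeFactors h
  rw [← Int.natCast_dvd] at h1
  obtain ⟨i, -, hi⟩ := (Prime.dvd_finsetProd_iff (Nat.prime_iff_prime_int.1 hp) _).1 h1
  exact ⟨i, hi⟩

private theorem sub_pe (hn : 2 ≤ n) (hz : IsPt z) (hz' : IsPt z') (hP : P ⊆ prs z)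
    (hP' : P' ⊆ prs z') (h : part z P = part z' P') : P ⊆ P' := by
  intro p hpP
  have hp := prs_prime z p (hP hpP)
  obtain ⟨i, hi⟩ := ex_dvd_pe (hP hpP)
  have h1 : p ∣ part z P i := (dvd_part_iff hn hz hP hp i).2 ⟨hpP, hi⟩
  rw [h] at h1
  exact ((dvd_part_iff hn hz' hP' hp i).1 h1).1

theorem eq_of_part_eq (hn : 2 ≤ n) (hz : IsPt z) (hz' : IsPt z') (hP : P ⊆ prs z)
    (hP' : P' ⊆ prs z') (h : part z P = part z' P') :
    P = P' ∧ ∀ p ∈ P, pat z p = pat z' p := by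
  have h1 : P = P' := Subset.antisymm (sub_pe hn hz hz' hP hP' h) (sub_pe hn hz' hz hP' hP h.symm)
  refine ⟨h1, fun p hpP => ?_⟩
  have hp := prs_prime z p (hP hpP)
  have hpP' : p ∈ P' := h1 ▸ hpP
  ext i
  have h2 := dvd_part_iff hn hz hP hp i
  have h3 := dvd_part_iff hn hz' hP' hp i
  rw [h] at h2
  rw [pat, pat, mem_filter, mem_filter]
  constructor
  · rintro ⟨-, hi⟩
    exact ⟨mem_univ _, (h3.1 (h2.2 ⟨hpP, hi⟩)).2⟩
  · rintro ⟨-, hi⟩
    exact ⟨mem_univ _, (h2.1 (h3.2 ⟨hpP', hi⟩)).2⟩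

theorem factorization_eq_of_part_eq (hn : 2 ≤ n) (hz : IsPt z) (hz' : IsPt z') (hP : P ⊆ prs z)
    (hP' : P' ⊆ prs z') (h : part z P = part z' P') {p : ℕ} (hp : p ∈ P) (i : Fin n) :
    (z i).natAbs.factorization p = (z' i).natAbs.factorization p := by
  have h1 := (eq_of_part_eq hn hz hz' hP hP' h).1
  have hp' : p ∈ P' := h1 ▸ hp
  have h2 := val_part_of_mem hP hp i
  have h3 := val_part_of_mem hP' hp' i
  rw [h, h3] at h2
  exact_mod_cast h2.symm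

theorem part_sub_eq (hn : 2 ≤ n) (hz : IsPt z) (hz' : IsPt z') (hP : P ⊆ prs z)
    (hP' : P' ⊆ prs z') (h : part z P = part z' P') (hQ : Q ⊆ P) : part z Q = part z' Q := by
  funext i
  unfold part
  refine prod_congr rfl fun p hp => ?_
  rw [factorization_eq_of_part_eq hn hz hz' hP hP' h (hQ hp) i]

theorem sig_sub (Y : Finset (Fin n → ℤ)) (σ : (Fin n → ℤ) → Finset ℕ)
    (𝒜 : Finset (Finset (Fin n))) (z : Fin n → ℤ) : sig Y σ 𝒜 z ⊆ σ z := by
  classical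
  unfold sig
  exact filter_subset _ _

theorem sig_empty (Y : Finset (Fin n → ℤ)) (σ : (Fin n → ℤ) → Finset ℕ) :
    sig Y σ ∅ = σ := by
  classical
  funext z
  unfold sig
  refine filter_true_of_mem fun p _ => ?_
  rintro ⟨h, -⟩
  exact notMem_empty _ h

theorem sig_eq (hn : 2 ≤ n) {Y : Finset (Fin n → ℤ)} (hY : ∀ z ∈ Y, IsPt z)
    {σ : (Fin n → ℤ) → Finset ℕ} (hσ : ∀ z ∈ Y, σ z ⊆ prs z) (𝒜 : Finset (Finset (Fin n)))
    (hz : z ∈ Y) (hz' : z' ∈ Y) (h : cv σ z = cv σ z') :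
    sig Y σ 𝒜 z = sig Y σ 𝒜 z' ∧ cv (sig Y σ 𝒜) z = cv (sig Y σ 𝒜) z' := by
  classical
  obtain ⟨h1, h2⟩ := eq_of_part_eq hn (hY z hz) (hY z' hz') (hσ z hz) (hσ z' hz') h
  have h3 : uspn Y σ z = uspn Y σ z' := by
    unfold uspn spn
    rw [h]
  have h4 : sig Y σ 𝒜 z = sig Y σ 𝒜 z' := by
    unfold sig
    rw [← h1]
    refine filter_congr fun p hp => ?_
    rw [h2 p hp, h3]
  refine ⟨h4, ?_⟩
  unfold cv
  rw [← h4]
  exact part_sub_eq hn (hY z hz) (hY z' hz') (hσ z hz) (hσ z' hz') h (sig_sub Y σ 𝒜 z)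

theorem eq_of_natAbs {B : ℕ} {Y : Finset (Fin n → ℤ)} (hY : Pts B Y) (hz : z ∈ Y) (hz' : z' ∈ Y)
    (h : ∀ i, (z i).natAbs = (z' i).natAbs) : z = z' := by
  funext i
  rw [← Int.sign_mul_natAbs (z i), ← Int.sign_mul_natAbs (z' i), hY.sign z hz z' hz' i, h i]

theorem eq_of_sdiff (hn : 2 ≤ n) {B : ℕ} {Y : Finset (Fin n → ℤ)} (hY : Pts B Y) (hz : z ∈ Y)
    (hz' : z' ∈ Y) (hP : P ⊆ prs z) (hP' : P' ⊆ prs z') (h : part z P = part z' P')
    (h' : part z (prs z \ P) = part z' (prs z' \ P')) : z = z' := by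
  refine eq_of_natAbs hY hz hz' fun i => ?_
  rw [← part_prs hn (hY.pt z hz) i, ← part_prs hn (hY.pt z' hz') i, ← part_mul_sdiff hP i,
    ← part_mul_sdiff hP' i, h, h']

end Pool.Agent.GL33
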