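import Pool.Agent.GL33.ExTuple
import Pool.Agent.GL33.GoodScl
import Pool.Agent.GL33.Minor
import Pool.Agent.GL33.PartEq
import Pool.Agent.GL33.Vecs

/-!
# GL33/Grow: the growth lemma for fibres (helper50)

Proof. `S` empty: clear. Fix `z₀ ∈ S`, `u` the tuple of `ex_tuple` for `z₀`, `r` the dimension of
`V` (`r ≤ n`), `E = (∏ p ∈ σ z₀, p) * nmin u`: `0 < E ≤ B ^ n * B ^ (2 * n ^ (n + 1)) ≤ B ^ expo n`
(`prod_le_pow`, `nmin_pos`, `nmin_le`). Apply `card_of_dvd` to `S.image (cv σ)`: entries positive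
(`part_pos`) and `≤ B` (`part_le`). Let `z ∈ S`, `p` a prime, `p ∣ cv σ z i`: `p ∈ σ z` and `p ∣ z i`
(`dvd_part_iff`). To show: `p ∣ E`. If `p ∈ σ z₀`: clear. Let `p ∉ σ z₀`. Then `p ∉ σ₁ z`, since
`σ₁ z = σ₁ z₀` (`eq_of_part_eq` from `hc`) and `σ₁ z₀ ⊆ σ z₀`. So `Good (uspn Y σ z) p` by `hgood`.
If `¬ Good (uspn Y σ z₀) p`, then `p ∣ nmin u` by `bad_dvd`. Suppose `Good (uspn Y σ z₀) p`. With
`D i = cv σ z₀ i / cv σ z i` (rational, non-zero) we have `uspn Y σ z = scl D (uspn Y σ z₀)`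
(`scl_scl`, both spans are `V`). `uspn Y σ z₀` is connected: `conn_scl`, `conn_of_point` for `z₀`
(`spn_sum`, `mem_spn`). `good_scl`: `val_p (D i) = val_p (D j)` for all `i, j`. By
`val_part_of_not_mem`, `val_part_of_mem` (`padicValRat.div`): the factorization of `z i` at `p` does
not depend on `i`. It is `≥ 1` for one `i`, so for all: `p` divides all `z i`, contradiction to
`H4Cnt.pat_ne_univ`.
-/

namespace Pool.Agent.GL33

open Finset H4Cnt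

variable {n B : ℕ} {K : ℝ}

theorem grow_card (hn : 3 ≤ n) (hB : n ≤ B) (hK : KB n B K) {Y : Finset (Fin n → ℤ)}
    (hY : Pts B Y) {σ σ₁ : (Fin n → ℤ) → Finset ℕ} (hσ : ∀ z ∈ Y, σ z ⊆ prs z)
    {S : Finset (Fin n → ℤ)} (hS : S ⊆ Y) {V : Submodule ℚ (Fin n → ℚ)}
    (hV : ∀ z ∈ S, spn Y (cv σ) z = V) (hσ₁ : ∀ z ∈ S, σ₁ z ⊆ σ z)
    (hgood : ∀ z ∈ S, ∀ p ∈ σ z, p ∉ σ₁ z → Good (uspn Y σ z) p)
    (hc : ∀ z ∈ S, ∀ z' ∈ S, cv σ₁ z = cv σ₁ z') :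
    ((S.image (cv σ)).card : ℝ) ≤ K ^ n := by
  have hn2 : 2 ≤ n := by omega
  rcases S.eq_empty_or_nonempty with rfl | ⟨z₀, hz₀⟩
  · have h1 : 0 ≤ K := by linarith [hK.1]
    simpa using pow_nonneg h1 n
  have hz₀Y := hS hz₀
  obtain ⟨u, hu1, hu2, hu3⟩ := ex_tuple hn2 hY hσ hz₀Y
  have hrn : Module.finrank ℚ (spn Y (cv σ) z₀) ≤ n :=
    (finrank_lt (by omega) hY.pt (cv σ) z₀).le
  have hE0 : 0 < (∏ p ∈ σ z₀, p) * nmin u :=
    Nat.mul_pos (prod_pos_of_sub (hσ z₀ hz₀Y)) (nmin_pos u)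
  have hEle : (∏ p ∈ σ z₀, p) * nmin u ≤ B ^ expo n := by
    calc (∏ p ∈ σ z₀, p) * nmin u ≤ B ^ n * B ^ (2 * n ^ (n + 1)) :=
          Nat.mul_le_mul (prod_le_pow hn2 (hY.pt z₀ hz₀Y) (hY.le z₀ hz₀Y) (hσ z₀ hz₀Y))
            (nmin_le (by omega) hrn hB u hu1)
      _ = B ^ (n + 2 * n ^ (n + 1)) := (pow_add _ _ _).symm
      _ ≤ B ^ expo n := by
          apply Nat.pow_le_pow_right (by omega)
          have h1 : n ≤ n ^ (n + 1) := Nat.le_self_pow (by omega) n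
          unfold expo
          omega
  apply card_of_dvd hK hE0 hEle
  intro v hv i
  obtain ⟨z, hz, rfl⟩ := mem_image.1 hv
  have hzY := hS hz
  refine ⟨part_pos (hσ z hzY) i, part_le hn2 (hY.pt z hzY) (hσ z hzY) (hY.le z hzY) i, ?_⟩
  intro p hp hpd
  have hpd' : p ∣ part z (σ z) i := hpd
  rw [dvd_part_iff hn2 (hY.pt z hzY) (hσ z hzY) hp] at hpd'
  obtain ⟨hpσ, hpz⟩ := hpd'
  by_cases h0 : p ∈ σ z₀
  · exact (dvd_prod_of_mem (fun q : ℕ => q) h0).mul_right _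
  have hσ₁P : ∀ w ∈ S, σ₁ w ⊆ prs w := fun w hw => (hσ₁ w hw).trans (hσ w (hS hw))
  have heq : σ₁ z = σ₁ z₀ := (eq_of_part_eq hn2 (hY.pt z hzY) (hY.pt z₀ hz₀Y)
    (hσ₁P z hz) (hσ₁P z₀ hz₀) (hc z hz z₀ hz₀)).1
  have hnot : p ∉ σ₁ z := fun h => h0 (hσ₁ z₀ hz₀ (heq ▸ h))
  have hg := hgood z hz p hpσ hnot
  by_cases hg0 : Good (uspn Y σ z₀) p
  · exfalso
    have hcp : ∀ j, (cv σ z j : ℚ) ≠ 0 := fun j => by
      exact_mod_cast (cv_pos (hσ z hzY) j).ne'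
    have hcp0 : ∀ j, (cv σ z₀ j : ℚ) ≠ 0 := fun j => by
      exact_mod_cast (cv_pos (hσ z₀ hz₀Y) j).ne'
    have hD : ∀ j, (fun j => (cv σ z₀ j : ℚ) / (cv σ z j : ℚ)) j ≠ 0 := fun j =>
      div_ne_zero (hcp0 j) (hcp j)
    have hscl : uspn Y σ z = scl (fun j => (cv σ z₀ j : ℚ) / (cv σ z j : ℚ)) (uspn Y σ z₀) := by
      unfold uspn
      rw [hV z hz, hV z₀ hz₀, scl_scl]
      congr 1
      funext j
      have h1 := hcp j
      have h2 := hcp0 j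
      field_simp
    have hconn : Conn (uspn Y σ z₀) :=
      conn_scl (fun j => inv_ne_zero (hcp0 j))
        (conn_of_point (spn_sum hY.pt) (hY.pt z₀ hz₀Y) (mem_spn hz₀Y rfl))
    rw [hscl] at hg
    have hval := good_scl hp hconn hD hg0 hg
    have hval2 : ∀ j, padicValRat p ((cv σ z₀ j : ℚ) / (cv σ z j : ℚ)) =
        - ((z j).natAbs.factorization p : ℤ) := by
      intro j
      have := Fact.mk hp
      rw [padicValRat.div (hcp0 j) (hcp j)]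
      have h1 : padicValRat p (cv σ z₀ j : ℚ) = 0 :=
        val_part_of_not_mem (hσ z₀ hz₀Y) hp h0 j
      have h2 : padicValRat p (cv σ z j : ℚ) = (z j).natAbs.factorization p :=
        val_part_of_mem (hσ z hzY) hpσ j
      rw [h1, h2]
      ring
    apply pat_ne_univ (hY.pt z hzY) p hp
    have hz0 : ∀ j, (z j).natAbs ≠ 0 := fun j =>
      Int.natAbs_ne_zero.2 ((hY.pt z hzY).ne_zero hn2 j)
    ext j
    unfold pat
    rw [mem_filter]
    simp only [mem_univ, true_and, iff_true]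
    have h1 := hval i j
    simp only [hval2] at h1
    have h2 : 1 ≤ (z i).natAbs.factorization p :=
      (hp.dvd_iff_one_le_factorization (hz0 i)).1 (Int.natCast_dvd.1 hpz)
    have h3 : 1 ≤ (z j).natAbs.factorization p := by omega
    exact Int.natCast_dvd.2 ((hp.dvd_iff_one_le_factorization (hz0 j)).2 h3)
  · exact (bad_dvd u hu2 hp (by rwa [hu3])).mul_left _

end Pool.Agent.GL33
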