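import Pool.Agent.GL33.Defs

/-!
# GL33/Smooth: `KB n B (B ^ κ)` for large `B`

Proof. `H4Cnt.rankin δ` gives `A ≥ 1` with `card (smoothN E B) ≤ A * (B ^ δ * E ^ δ)` for `0 < E`. For
`E ≤ B ^ expo n` this is at most `A * B ^ (δ * (1 + expo n))`. Take `δ = κ / (2 * (1 + expo n))`, so the
bound is `A * B ^ (κ / 2) ≤ B ^ κ` as soon as `A ≤ B ^ (κ / 2)`, i.e. for `B ≥ B₀` with
`B₀ ≥ A ^ (2 / κ)`, `B₀ ≥ 1`.
-/

namespace Pool.Agent.GL33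

open Finset H4Cnt

theorem exists_KB (n : ℕ) (κ : ℝ) (hκ : 0 < κ) :
    ∃ B₀ : ℕ, 1 ≤ B₀ ∧ ∀ B : ℕ, B₀ ≤ B → KB n B ((B : ℝ) ^ κ) := by
  have hex : (0 : ℝ) < 2 * (1 + (expo n : ℝ)) := by positivity
  set δ : ℝ := κ / (2 * (1 + (expo n : ℝ))) with hδ
  have hδ0 : 0 < δ := div_pos hκ hex
  obtain ⟨A, hA, hR⟩ := rankin δ hδ0
  refine ⟨max 1 ⌈A ^ (2 / κ)⌉₊, le_max_left _ _, fun B hB => ?_⟩
  have hB1 : 1 ≤ B := (le_max_left _ _).trans hB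
  have hB1' : (1 : ℝ) ≤ (B : ℝ) := by exact_mod_cast hB1
  have hB0 : (0 : ℝ) < (B : ℝ) := by linarith
  have hAB : A ^ (2 / κ) ≤ (B : ℝ) :=
    (Nat.le_ceil _).trans (by exact_mod_cast (le_max_right _ _).trans hB)
  have hA0 : (0 : ℝ) < A := by linarith
  have hA2 : A ≤ (B : ℝ) ^ (κ / 2) := by
    have h1 : (A ^ (2 / κ)) ^ (κ / 2) ≤ (B : ℝ) ^ (κ / 2) :=
      Real.rpow_le_rpow (Real.rpow_nonneg hA0.le _) hAB (by positivity)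
    rw [← Real.rpow_mul hA0.le] at h1
    have h2 : 2 / κ * (κ / 2) = 1 := by field_simp
    rwa [h2, Real.rpow_one] at h1
  refine ⟨Real.one_le_rpow hB1' hκ.le, fun E hE hEB => ?_⟩
  refine (hR E B hE).trans ?_
  have hE0 : (0 : ℝ) ≤ (E : ℝ) := Nat.cast_nonneg E
  have h3 : (E : ℝ) ^ δ ≤ (B : ℝ) ^ ((expo n : ℝ) * δ) := by
    have h4 : (E : ℝ) ≤ (B : ℝ) ^ (expo n : ℝ) := by
      rw [Real.rpow_natCast]
      exact_mod_cast hEB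
    have h5 := Real.rpow_le_rpow hE0 h4 hδ0.le
    rwa [← Real.rpow_mul hB0.le] at h5
  calc A * ((B : ℝ) ^ δ * (E : ℝ) ^ δ)
      ≤ (B : ℝ) ^ (κ / 2) * ((B : ℝ) ^ δ * (B : ℝ) ^ ((expo n : ℝ) * δ)) := by
        gcongr
    _ = (B : ℝ) ^ κ := by
        rw [← Real.rpow_add hB0, ← Real.rpow_add hB0]
        congr 1
        rw [hδ]
        field_simp
        ring

end Pool.Agent.GL33
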