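import Pool.Agent.GL33.Step
import Pool.Agent.GL33.Smooth

/-!
# GL33/Ind: the induction on the rank

Notation: `S = rho R - log |X|`, `L = log B`.

`loss_le`: for `η > 0` there is `η' > 0` such that for large `B` one has
`loss n B (η' * L) ≤ η * L`: `η' = η / (2 * (2 ^ 2 ^ n * n + 1))`, and
`log (Nat.log 2 (B ^ n) + 1) + log 4 = O(log log B)` is at most `(η / 2) * L` for large `B`
(e.g. `Nat.log 2 (B ^ n) ≤ 2 n log B + ...`; `Real.isLittleO_log_id_atTop`).

`S_ge`: `S ≥ - (2 n log K)`: `fact0` for `T = ∅` and `log (2 R ∅) ≥ 0`.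

`ind`, by induction on `k`. `k = 0`: `n ≤ r`, but `r = finrank (spn Y (cv σ) z) < n`
(`finrank_lt`, `hSt.ne`): no state, `C = 0`. `k + 1`: let `C` be the constant for `k`; the new
constant is `C' = C * (n + 4) + 4 * n + 12`. Let `ε, η > 0` be given. Choose `η' > 0` by `loss_le` for
`min ε (η / 2)`, so `loss ≤ ε L` and `loss < η L ≤ α`; the number `B₀` of the case `k` for
`ε' = (n + 4) ε`, `η'' = η' / 2`; `κ = ε / (4 n ^ 2)` and `B₀` of `exists_KB` so that `K = B ^ κ` has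
`4 n ^ 2 log K ≤ ε L`. Let `B` be so large that all these hold, `n ≤ B`, `log (8 n) ≤ η' L`,
`log (2 * 2 ^ 2 ^ n) ≤ η' L`, `log 4 ≤ (η' / 2) L`, `3 n + 2 ≤ ε L`. Apply `step` with `α' = η' L`.
(A) `rho R ≤ (r + 1) (S + ε L + ε L) + ((r - 2) S + ε L) + ε L + ε L = (2 r - 1) S + (2 r + 5) ε L`,
with `r ≤ n - 1` and `S ≥ - ε L`: `(2 r - 1) S = (2 n - 3) S - 2 (n - 1 - r) S ≤ (2 n - 3) S + 2 n ε L`.
(B) The new state has `α' - log 4 ≥ η'' L`, `log |Yn| ≥ log |Y| - ε L ≥ log |X| - 2 ε L ≥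
log |X| - ε' L`, fibres `≤ (r - 2) S + ε L + S + ε L = (r - 1) S + 2 ε L ≤ (r' - 2) S + (n + 2) ε L`
(`r' - 2 ≥ r - 1`, `r' ≤ n`, `S ≥ - ε L`). Case `k` for `r'` (`n ≤ r + (k + 1) ≤ r' + k`).
-/

namespace Pool.Agent.GL33

open Finset H4Cnt

private lemma ind_tendsto : Filter.Tendsto (fun B : ℕ => Real.log B) Filter.atTop Filter.atTop :=
  Real.tendsto_log_atTop.comp tendsto_natCast_atTop_atTop

private lemma ind_large (c : ℝ) : ∃ B₀ : ℕ, ∀ B : ℕ, B₀ ≤ B → c ≤ Real.log B :=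
  Filter.eventually_atTop.1 (ind_tendsto.eventually_ge_atTop c)

private lemma ind_natlog (n B : ℕ) (hB : 1 ≤ Real.log B) :
    ((Nat.log 2 (B ^ n) + 1 : ℕ) : ℝ) ≤ (2 * n + 1) * Real.log B := by
  have h1 : (Nat.log 2 (B ^ n) : ℝ) ≤ Real.logb 2 ((B ^ n : ℕ) : ℝ) := by
    simpa using Real.natLog_le_logb (B ^ n) 2
  have h2 : Real.logb 2 ((B ^ n : ℕ) : ℝ) = n * Real.log B / Real.log 2 := by
    rw [Real.logb]
    push_cast
    rw [Real.log_pow]
  have h3 : (1 : ℝ) / 2 < Real.log 2 := by linarith [Real.log_two_gt_d9]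
  have h4 : n * Real.log B / Real.log 2 ≤ 2 * n * Real.log B := by
    rw [div_le_iff₀ (by linarith)]
    have h5 : 0 ≤ (n : ℝ) * Real.log B := by positivity
    nlinarith
  push_cast
  rw [h2] at h1
  linarith

theorem loss_le (n : ℕ) (η : ℝ) (hη : 0 < η) : ∃ η' : ℝ, 0 < η' ∧ ∃ B₀ : ℕ, ∀ B : ℕ, B₀ ≤ B →
    loss n B (η' * Real.log B) ≤ η * Real.log B := by
  set M : ℝ := 2 ^ 2 ^ n * n with hM
  have hM0 : 0 ≤ M := by positivity
  refine ⟨η / (2 * (M + 1)), by positivity, ?_⟩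
  have h1 : ∀ᶠ x : ℝ in Filter.atTop, ‖Real.log x‖ ≤ η / 4 * ‖x‖ :=
    Real.isLittleO_log_id_atTop.def (by positivity)
  have h2 : ∀ᶠ B : ℕ in Filter.atTop, ‖Real.log (Real.log B)‖ ≤ η / 4 * ‖Real.log B‖ :=
    ind_tendsto.eventually h1
  have h3 := ind_tendsto.eventually_ge_atTop 1
  have h4 := ind_tendsto.eventually_ge_atTop ((Real.log (2 * n + 1) + Real.log 4) / (η / 4))
  obtain ⟨B₀, hB₀⟩ := Filter.eventually_atTop.1 ((h2.and h3).and h4)
  refine ⟨B₀, fun B hB => ?_⟩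
  obtain ⟨⟨h5, h6⟩, h7⟩ := hB₀ B hB
  have hL : 0 < Real.log B := by linarith
  rw [Real.norm_of_nonneg hL.le] at h5
  have h8 : Real.log (Real.log B) ≤ η / 4 * Real.log B := (Real.le_norm_self _).trans h5
  rw [div_le_iff₀ (by positivity)] at h7
  have h9 : Real.log (Nat.log 2 (B ^ n) + 1 : ℕ) ≤ Real.log (2 * n + 1) + Real.log (Real.log B) := by
    rw [← Real.log_mul (by positivity) hL.ne']
    apply Real.log_le_log
    · positivity
    · exact ind_natlog n B h6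
  have h10 : η / (2 * (M + 1)) * Real.log B * M ≤ η / 2 * Real.log B := by
    have h11 : η / (2 * (M + 1)) * M ≤ η / 2 := by
      rw [div_mul_eq_mul_div, div_le_div_iff₀ (by positivity) (by norm_num)]
      nlinarith
    nlinarith
  unfold loss
  rw [← hM]
  linarith

theorem S_ge {n B : ℕ} {K : ℝ} {X : Finset (Fin n → ℤ)} {R : Finset (Fin n) → ℕ} (hn : 2 ≤ n)
    (hB : n ≤ B) (hK : KB n B K) (hX : Cls B X R) (hne : X.Nonempty) :
    -(2 * n * Real.log K) ≤ rho R - Real.log X.card := by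
  have h1 := fact0 hn hB hK hX hne ∅
  have h2 := log_R_nonneg hX.one_le ∅
  linarith

private lemma ind_arith_A {n r S ρ y l f x E κ : ℝ} (hr1 : 1 ≤ r) (hrn : r + 1 ≤ n)
    (hA : ρ ≤ (r + 1) * (ρ - y + l) + f + (3 * n + 2) + κ)
    (hS : S = ρ - x) (hy : x - E ≤ y) (hl : l ≤ E) (hf : f ≤ (r - 2) * S + E)
    (hn3 : 3 * n + 2 ≤ E) (hκ : κ ≤ E) (hSE : -E ≤ S) (hE : 0 ≤ E) :
    ρ ≤ (2 * n - 3) * S + (4 * n + 3) * E := by
  have h1 : ρ - y + l ≤ S + 2 * E := by linarith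
  have h2 : (r + 1) * (ρ - y + l) ≤ (r + 1) * (S + 2 * E) :=
    mul_le_mul_of_nonneg_left h1 (by linarith)
  have h3 : ρ ≤ (2 * r - 1) * S + (2 * r + 5) * E := by nlinarith
  have h4 : (n - 1 - r) * (-S) ≤ (n - 1 - r) * E :=
    mul_le_mul_of_nonneg_left (by linarith) (by linarith)
  have h5 : (n - 1 - r) * E ≤ (n - 2) * E := mul_le_mul_of_nonneg_right (by linarith) hE
  have h6 : (2 * r + 5) * E ≤ (2 * n + 3) * E := mul_le_mul_of_nonneg_right (by linarith) hE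
  nlinarith

private lemma ind_arith_B {n r r' S f E κ : ℝ} (hrr : r + 1 ≤ r') (hr'n : r' ≤ n) (hr : 0 ≤ r)
    (hf : f ≤ (r - 2) * S + E) (hκ : κ ≤ E) (hSE : -E ≤ S) (hE : 0 ≤ E) :
    f + S + κ ≤ (r' - 2) * S + (n + 4) * E := by
  have h4 : (r' - r - 1) * (-S) ≤ (r' - r - 1) * E :=
    mul_le_mul_of_nonneg_left (by linarith) (by linarith)
  have h5 : (r' - r - 1) * E ≤ n * E := mul_le_mul_of_nonneg_right (by linarith) hE
  nlinarith

theorem ind (n : ℕ) (hn : 3 ≤ n) (k : ℕ) : ∃ C : ℝ, 0 ≤ C ∧ ∀ ε : ℝ, 0 < ε → ∀ η : ℝ, 0 < η →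
    ∃ B₀ : ℕ, ∀ B : ℕ, B₀ ≤ B → ∀ r : ℕ, 3 ≤ r → n ≤ r + k →
      ∀ (X : Finset (Fin n → ℤ)) (R : Finset (Fin n) → ℕ), Cls B X R →
      ∀ Y ⊆ X, ∀ (σ : (Fin n → ℤ) → Finset ℕ) (α f : ℝ), St Y σ r α f →
        η * Real.log B ≤ α →
        Real.log X.card - ε * Real.log B ≤ Real.log Y.card →
        f ≤ (r - 2) * (rho R - Real.log X.card) + ε * Real.log B →
        rho R ≤ (2 * n - 3) * (rho R - Real.log X.card) + C * ε * Real.log B := by
  induction k with
  | zero =>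
    refine ⟨0, le_rfl, fun ε _ η _ => ⟨0, ?_⟩⟩
    intro B _ r _ hnr X R hX Y hYX σ α f hSt _ _ _
    exfalso
    obtain ⟨z, hz⟩ := hSt.ne
    have h1 := finrank_lt (by omega : 1 ≤ n) (Y := Y) (fun z hz => hX.pts.pt z (hYX hz)) (cv σ) z
    rw [hSt.rank z hz] at h1
    omega
  | succ k ih =>
    obtain ⟨C, hC, hih⟩ := ih
    refine ⟨C * (n + 4) + 4 * n + 12, by positivity, fun ε hε η hη => ?_⟩
    have hn0 : (3 : ℝ) ≤ n := by exact_mod_cast hn
    obtain ⟨η', hη', B₁, hB₁⟩ := loss_le n (min ε (η / 2)) (lt_min hε (by positivity))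
    obtain ⟨B₂, hB₂⟩ := hih ((n + 4) * ε) (by positivity) (η' / 2) (by positivity)
    obtain ⟨B₃, -, hB₃⟩ := exists_KB n (ε / (4 * n ^ 2)) (by positivity)
    obtain ⟨B₄, hB₄⟩ := ind_large (Real.log (8 * n) / η')
    obtain ⟨B₅, hB₅⟩ := ind_large (Real.log (2 * 2 ^ 2 ^ n) / η')
    obtain ⟨B₆, hB₆⟩ := ind_large (Real.log 4 / (η' / 2))
    obtain ⟨B₇, hB₇⟩ := ind_large ((3 * n + 2) / ε)
    refine ⟨max (max (max B₁ B₂) (max B₃ B₄)) (max (max B₅ B₆) (max B₇ n)), ?_⟩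
    intro B hB r hr3 hnr X R hX Y hYX σ α f hSt hα hY hf
    simp only [max_le_iff] at hB
    obtain ⟨⟨⟨b1, b2⟩, b3, b4⟩, ⟨b5, b6⟩, b7, hnB⟩ := hB
    have hBpos : (0 : ℝ) < B := by
      have : 0 < B := by omega
      exact_mod_cast this
    have hL : 0 < Real.log B := by
      apply Real.log_pos
      have : 1 < B := by omega
      exact_mod_cast this
    set L := Real.log B with hLdef
    have hK := hB₃ B b3
    have hlogK : Real.log ((B : ℝ) ^ (ε / (4 * n ^ 2))) = ε / (4 * n ^ 2) * L := by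
      rw [Real.log_rpow hBpos]
    have hK2 : 4 * (n : ℝ) ^ 2 * Real.log ((B : ℝ) ^ (ε / (4 * n ^ 2))) = ε * L := by
      rw [hlogK]
      field_simp
    have hK0 : 0 ≤ Real.log ((B : ℝ) ^ (ε / (4 * n ^ 2))) := by
      rw [hlogK]
      positivity
    have hK1 : 4 * (n : ℝ) * Real.log ((B : ℝ) ^ (ε / (4 * n ^ 2))) ≤ ε * L := by
      rw [← hK2]
      apply mul_le_mul_of_nonneg_right _ hK0
      nlinarith
    have hK3 : 2 * (n : ℝ) * Real.log ((B : ℝ) ^ (ε / (4 * n ^ 2))) ≤ ε * L := by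
      refine le_trans ?_ hK1
      apply mul_le_mul_of_nonneg_right _ hK0
      linarith
    have hloss := hB₁ B b1
    have hloss1 : loss n B (η' * L) ≤ ε * L :=
      hloss.trans (mul_le_mul_of_nonneg_right (min_le_left _ _) hL.le)
    have hloss2 : loss n B (η' * L) < α := by
      have h1 : loss n B (η' * L) ≤ η / 2 * L :=
        hloss.trans (mul_le_mul_of_nonneg_right (min_le_right _ _) hL.le)
      nlinarith
    have h8 : Real.log (8 * n) ≤ η' * L := by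
      have := hB₄ B b4
      rw [div_le_iff₀ hη'] at this
      linarith
    have hN : Real.log (2 * 2 ^ 2 ^ n) ≤ η' * L := by
      have := hB₅ B b5
      rw [div_le_iff₀ hη'] at this
      linarith
    have h4 : Real.log 4 ≤ η' / 2 * L := by
      have := hB₆ B b6
      rw [div_le_iff₀ (by positivity)] at this
      linarith
    have h3n : 3 * (n : ℝ) + 2 ≤ ε * L := by
      have := hB₇ B b7
      rw [div_le_iff₀ hε] at this
      linarith
    have hXne : X.Nonempty := hSt.ne.mono hYX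
    have hS := S_ge (by omega : 2 ≤ n) hnB hK hX hXne
    have hS' : -(ε * L) ≤ rho R - Real.log X.card := by linarith
    have hr0 : (3 : ℝ) ≤ r := by exact_mod_cast hr3
    have hE : 0 ≤ ε * L := by positivity
    rcases step hn hnB hK hX hYX hSt (by omega : 1 ≤ r) h8 hN hloss2 with hA | hBc
    · have hrn : (r : ℝ) + 1 ≤ n := by
        obtain ⟨z, hz⟩ := hSt.ne
        have h1 := finrank_lt (by omega : 1 ≤ n) (Y := Y) (fun z hz => hX.pts.pt z (hYX hz))
          (cv σ) z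
        rw [hSt.rank z hz] at h1
        exact_mod_cast h1
      have hmain := ind_arith_A (by linarith) hrn hA rfl hY hloss1 hf h3n hK2.le hS' hE
      have h5 : (4 * (n : ℝ) + 3) * (ε * L) ≤ (C * (n + 4) + 4 * n + 12) * (ε * L) := by
        apply mul_le_mul_of_nonneg_right _ hE
        have : 0 ≤ C * ((n : ℝ) + 4) := by positivity
        linarith
      linarith
    · obtain ⟨Yn, σ', r', hYn, hrr', hlogn, hStn⟩ := hBc
      have hr'n : (r' : ℝ) ≤ n := by
        obtain ⟨z, hz⟩ := hStn.ne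
        have h1 := finrank_lt (by omega : 1 ≤ n) (Y := Yn)
          (fun z hz => hX.pts.pt z (hYX (hYn hz))) (cv σ') z
        rw [hStn.rank z hz] at h1
        exact_mod_cast h1.le
      have hrr : (r : ℝ) + 1 ≤ r' := by exact_mod_cast hrr'
      have h5 := ind_arith_B hrr hr'n (by linarith) hf hK1 hS' hE
      have h6 : 2 * (ε * L) ≤ ((n : ℝ) + 4) * (ε * L) :=
        mul_le_mul_of_nonneg_right (by linarith) hE
      have := hB₂ B b2 r' (by omega) (by omega) X R hX Yn (hYn.trans hYX) σ' (η' * L - Real.log 4)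
        (f + (rho R - Real.log X.card) + 4 * n * Real.log ((B : ℝ) ^ (ε / (4 * n ^ 2)))) hStn
        (by linarith) (by linarith) (by linarith)
      have h7 : 0 ≤ (4 * (n : ℝ) + 12) * (ε * L) := by positivity
      linarith

end Pool.Agent.GL33
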