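import Pool.Agent.GL33.Defs

/-!
# GL33/Lin: scaling of subspaces of `ℚ^n` by diagonal matrices, coordinate bases

`scl D V = {D * v | v ∈ V}`.

Proofs. `mem_scl`, `mem_scl_iff`, `scl_scl`, `scl_one`, `scl_mono`: unfold (`Submodule.mem_map`,
`LinearMap.mulLeft_apply`; in `Fin n → ℚ` the product is coordinatewise).
`finrank_scl`: the map is injective (`D i ≠ 0`), use `LinearMap.finrank_map_eq` /
`Submodule.equivMapOfInjective`. `isCB_scl`: for `v = D * w` one has `v i = 0 ↔ w i = 0`; use
`finrank_scl`. `conn_scl`: if `J` splits `scl D V` it splits `V` (multiply by `D⁻¹`).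
`exists_isCB`: let `I` be a set of minimal cardinality such that `v ∈ V`, `v = 0` on `I` imply
`v = 0` (`univ` has the property). The restriction `V → (I → ℚ)` is injective, so
`finrank V ≤ I.card`. For `i ∈ I` the set `I.erase i` does not have the property: there is
`v_i ∈ V`, `v_i ≠ 0`, zero on `I.erase i`, hence `v_i i ≠ 0`. The vectors `v_i` are linearly
independent in `V` (evaluate a relation at `i`), so `I.card ≤ finrank V`.
`conn_of_point`: if `J` splits `V`, apply it to `v = toQ z`: the vector `1_J z` is in `V`, its sum is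
`∑ i ∈ J, z i = 0`, so by `hz.sub` `J` is empty or everything.
-/

namespace Pool.Agent.GL33

open Finset H4Cnt

variable {n : ℕ}

theorem mem_scl {D : Fin n → ℚ} {V : Submodule ℚ (Fin n → ℚ)} {v : Fin n → ℚ} :
    v ∈ scl D V ↔ ∃ w ∈ V, D * w = v := by
  unfold scl
  rw [Submodule.mem_map]
  rfl

theorem mem_scl_iff {D : Fin n → ℚ} (hD : ∀ i, D i ≠ 0) {V : Submodule ℚ (Fin n → ℚ)}
    {v : Fin n → ℚ} : v ∈ scl D V ↔ (fun i => (D i)⁻¹ * v i) ∈ V := by
  rw [mem_scl]
  constructor
  · rintro ⟨w, hw, rfl⟩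
    have h : (fun i => (D i)⁻¹ * (D * w) i) = w := by
      funext i
      rw [Pi.mul_apply, inv_mul_cancel_left₀ (hD i)]
    rw [h]
    exact hw
  · intro h
    refine ⟨_, h, ?_⟩
    funext i
    rw [Pi.mul_apply, mul_inv_cancel_left₀ (hD i)]

theorem scl_scl (D E : Fin n → ℚ) (V : Submodule ℚ (Fin n → ℚ)) :
    scl D (scl E V) = scl (fun i => D i * E i) V := by
  ext v
  rw [mem_scl, mem_scl]
  constructor
  · rintro ⟨w, hw, rfl⟩
    obtain ⟨u, hu, rfl⟩ := mem_scl.1 hw
    refine ⟨u, hu, ?_⟩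
    funext i
    simp only [Pi.mul_apply]
    ring
  · rintro ⟨u, hu, rfl⟩
    refine ⟨E * u, mem_scl.2 ⟨u, hu, rfl⟩, ?_⟩
    funext i
    simp only [Pi.mul_apply]
    ring

theorem scl_one (V : Submodule ℚ (Fin n → ℚ)) : scl (fun _ => 1) V = V := by
  ext v
  rw [mem_scl]
  constructor
  · rintro ⟨w, hw, rfl⟩
    have h : (fun _ => (1 : ℚ)) * w = w := by
      funext i
      rw [Pi.mul_apply, one_mul]
    rw [h]
    exact hw
  · intro h
    refine ⟨v, h, ?_⟩
    funext i
    rw [Pi.mul_apply, one_mul]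

theorem scl_mono (D : Fin n → ℚ) {V W : Submodule ℚ (Fin n → ℚ)} (h : V ≤ W) :
    scl D V ≤ scl D W := by
  intro v hv
  obtain ⟨w, hw, hvw⟩ := mem_scl.1 hv
  exact mem_scl.2 ⟨w, h hw, hvw⟩

theorem finrank_scl {D : Fin n → ℚ} (hD : ∀ i, D i ≠ 0) (V : Submodule ℚ (Fin n → ℚ)) :
    Module.finrank ℚ (scl D V) = Module.finrank ℚ V := by
  have hinj : Function.Injective (LinearMap.mulLeft ℚ D) := by
    intro a b hab
    funext i
    have h1 : D i * a i = D i * b i := congrFun hab i
    exact mul_left_cancel₀ (hD i) h1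
  exact (Submodule.equivMapOfInjective (LinearMap.mulLeft ℚ D) hinj V).finrank_eq.symm

theorem isCB_scl {D : Fin n → ℚ} (hD : ∀ i, D i ≠ 0) (V : Submodule ℚ (Fin n → ℚ))
    (I : Finset (Fin n)) : IsCB (scl D V) I ↔ IsCB V I := by
  unfold IsCB
  rw [finrank_scl hD V]
  constructor
  · rintro ⟨h1, h2⟩
    refine ⟨h1, fun v hv hvI => ?_⟩
    have h3 := h2 (D * v) (mem_scl.2 ⟨v, hv, rfl⟩) (fun i hi => by
      rw [Pi.mul_apply, hvI i hi, mul_zero])
    funext i
    have h4 := congrFun h3 i
    rw [Pi.mul_apply, Pi.zero_apply, mul_eq_zero] at h4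
    rcases h4 with h4 | h4
    · exact absurd h4 (hD i)
    · exact h4
  · rintro ⟨h1, h2⟩
    refine ⟨h1, fun v hv hvI => ?_⟩
    obtain ⟨w, hw, rfl⟩ := mem_scl.1 hv
    have h3 : w = 0 := by
      apply h2 w hw
      intro i hi
      have h4 := hvI i hi
      rw [Pi.mul_apply, mul_eq_zero] at h4
      rcases h4 with h4 | h4
      · exact absurd h4 (hD i)
      · exact h4
    rw [h3, mul_zero]

theorem conn_scl {D : Fin n → ℚ} (hD : ∀ i, D i ≠ 0) {V : Submodule ℚ (Fin n → ℚ)}
    (h : Conn V) : Conn (scl D V) := by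
  intro J hJ
  apply h J
  intro v hv
  have h1 := hJ (D * v) (mem_scl.2 ⟨v, hv, rfl⟩)
  rw [mem_scl_iff hD] at h1
  have h2 : (fun i => (D i)⁻¹ * (if i ∈ J then (D * v) i else 0)) =
      (fun i => if i ∈ J then v i else 0) := by
    funext i
    split_ifs with hi
    · rw [Pi.mul_apply, inv_mul_cancel_left₀ (hD i)]
    · rw [mul_zero]
  rwa [h2] at h1

theorem exists_isCB (V : Submodule ℚ (Fin n → ℚ)) : ∃ I, IsCB V I := by
  classical
  obtain ⟨I, hI, hmin⟩ := Finset.exists_min_image
    ((univ : Finset (Finset (Fin n))).filter fun I => ∀ v ∈ V, (∀ i ∈ I, v i = 0) → v = 0)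
    Finset.card ⟨univ, by
      rw [mem_filter]
      refine ⟨mem_univ _, fun v _ h => ?_⟩
      funext i
      exact h i (mem_univ i)⟩
  rw [mem_filter] at hI
  have hP := hI.2
  refine ⟨I, le_antisymm ?_ ?_, hP⟩
  · -- minimal: the vectors `v_i`
    have h1 : ∀ i : I, ∃ v : V, (∀ i' ∈ I, i' ≠ i.1 → v.1 i' = 0) ∧ v.1 ≠ 0 := by
      intro i
      by_contra hcon
      push Not at hcon
      have h2 : I.erase i.1 ∈ ((univ : Finset (Finset (Fin n))).filter
          fun I => ∀ v ∈ V, (∀ i ∈ I, v i = 0) → v = 0) := by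
        rw [mem_filter]
        refine ⟨mem_univ _, fun v hv h => ?_⟩
        exact hcon ⟨v, hv⟩ fun i' hi' hne => h i' (mem_erase.2 ⟨hne, hi'⟩)
      have h3 := hmin _ h2
      have h4 := Finset.card_erase_lt_of_mem i.2
      omega
    choose v hv0 hvne using h1
    have hvi : ∀ i : I, (v i).1 i.1 ≠ 0 := by
      intro i hi
      apply hvne i
      apply hP _ (v i).2
      intro i' hi'
      by_cases h : i' = i.1
      · rw [h]
        exact hi
      · exact hv0 i i' hi' h
    have hli : LinearIndependent ℚ v := by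
      rw [linearIndependent_iff']
      intro s g hg i hi
      have h2 : (∑ j ∈ s, g j • v j : V).1 i.1 = 0 := by
        rw [hg]
        rfl
      rw [Submodule.coe_sum, Finset.sum_apply] at h2
      rw [Finset.sum_eq_single i] at h2
      · rw [Submodule.coe_smul, Pi.smul_apply, smul_eq_mul, mul_eq_zero] at h2
        rcases h2 with h2 | h2
        · exact h2
        · exact absurd h2 (hvi i)
      · intro j _ hji
        rw [Submodule.coe_smul, Pi.smul_apply, hv0 j i.1 i.2 (fun h => hji (Subtype.ext h.symm)),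
          smul_zero]
      · intro h
        exact absurd hi h
    have h5 := hli.fintype_card_le_finrank
    rwa [Fintype.card_coe] at h5
  · -- restriction is injective
    let f : V →ₗ[ℚ] (I → ℚ) :=
      { toFun := fun v i => v.1 i.1
        map_add' := fun v w => rfl
        map_smul' := fun a v => rfl }
    have hf : Function.Injective f := by
      rw [injective_iff_map_eq_zero]
      intro v hv
      apply Subtype.ext
      apply hP v.1 v.2
      intro i hi
      exact congrFun hv ⟨i, hi⟩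
    have h6 := LinearMap.finrank_le_finrank_of_injective hf
    rwa [Module.finrank_fintype_fun_eq_card, Fintype.card_coe] at h6

theorem conn_of_point {V : Submodule ℚ (Fin n → ℚ)} (hV : ∀ v ∈ V, ∑ i, v i = 0)
    {z : Fin n → ℤ} (hz : IsPt z) (hzV : toQ z ∈ V) : Conn V := by
  intro J hJ
  by_contra hcon
  push Not at hcon
  have h1 := hV _ (hJ _ hzV)
  rw [Finset.sum_ite_mem, Finset.univ_inter] at h1
  apply hz.sub J hcon.1 hcon.2
  have h2 : ((∑ i ∈ J, z i : ℤ) : ℚ) = 0 := by
    rw [Int.cast_sum]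
    exact h1
  exact_mod_cast h2

end Pool.Agent.GL33
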