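import Pool.Agent.GL33.PartEq
import Pool.Agent.GL33.Vecs
import Pool.Agent.GL33.Span

/-!
# GL33/Plane: few points in a plane (helper70)

Proof of `plane_three`. Write `m k l = a k * b l - a l * b k`. Let `i` be given, and `I = {k | m i k = 0}`
(the coordinates where `b` is the same multiple of `a` as at `i`; all `a k ≠ 0`). `I ≠ univ` because
`a, b` are not proportional. Choose `k ∉ I`. Let `J = {l | m k l = 0}`; `I` and `J` are disjoint
(`m i l = 0 = m k l` with `a l ≠ 0` would give `m i k = 0`). If `I ∪ J ≠ univ`, take `l` outside: done.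
If `I ∪ J = univ`: `b = s a` on `I` and `b = t a` on `J`, `s ≠ t`; then `∑ b = s ∑_I a + t ∑_J a = 0`
and `∑_I a + ∑_J a = 0` give `∑_I a = 0`, contradiction to `IsPt.sub` (`i ∈ I`, `k ∉ I`).

Proof of `plane`. If all points of `S` are equal, `card ≤ 1 ≤ K ^ 2`. Otherwise let `a ≠ b` be points of
`S`; they are not proportional (`eq_of_finrank_le_one` for the line spanned by `toQ a`), so
`span S` is the span of `toQ a, toQ b` (dimension `≤ 2`). `plane_three` gives `k, l`.
Every `z ∈ S` is `s a + t b`, so for all `j` (ring): `m i k * z j = m i j * z k - m k j * z i` and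
(★) `z` is determined by `z k`, `z l` as `m k l ≠ 0`: `m k l * z j = m k j * z l - m l j * z k`.
Let `z ∈ S`, `p` a prime dividing `part z (prs z \ P z) k`: then `p ∈ prs z`, `p ∉ P z`, `p ∣ z k`
(`dvd_part_iff`), and `p ∣ z i` by `hi`. So `p ∣ m i k * z j` for all `j`; some `z j` is not divisible by
`p` (`pat_ne_univ`), so `p ∣ m i k`. Hence `part z (prs z \ P z) k ∈ smoothN |m i k| B`, at most `K`
values (`|m i k| ≤ 2 B ^ 2 ≤ B ^ 3 ≤ B ^ expo n`). Same for `l`. The map
`z ↦ (part z (prs z \ P z) k, part z (prs z \ P z) l)` is injective on `S`: `|z k|` is its product with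
the fixed `part z (P z) k` (`part_mul_sdiff`, `part_prs`), the signs are fixed, then (★).
-/

namespace Pool.Agent.GL33

open Finset H4Cnt

variable {n B : ℕ} {K : ℝ}

theorem plane_three (hn : 2 ≤ n) {a b : Fin n → ℤ} (ha : IsPt a) (hb : ∑ i, b i = 0)
    (hab : ∃ i j, a i * b j - a j * b i ≠ 0) (i : Fin n) :
    ∃ k l, a i * b k - a k * b i ≠ 0 ∧ a i * b l - a l * b i ≠ 0 ∧ a k * b l - a l * b k ≠ 0 := by
  classical
  have hane : ∀ j, a j ≠ 0 := fun j => ha.ne_zero hn j
  have hk : ∃ k, a i * b k - a k * b i ≠ 0 := by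
    by_contra hcon
    push Not at hcon
    obtain ⟨p, q, hpq⟩ := hab
    apply hpq
    have h1 := hcon p
    have h2 := hcon q
    have h3 : a i * (a p * b q - a q * b p) = 0 := by linear_combination a p * h2 - a q * h1
    rcases mul_eq_zero.1 h3 with h4 | h4
    · exact absurd h4 (hane i)
    · exact h4
  obtain ⟨k, hk⟩ := hk
  by_contra hcon
  push Not at hcon
  have hor : ∀ l, a i * b l - a l * b i ≠ 0 → a k * b l - a l * b k = 0 := fun l hl => hcon k l hk hl
  set I : Finset (Fin n) := univ.filter fun l => a i * b l - a l * b i = 0 with hI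
  have hiI : i ∈ I := by
    rw [hI, mem_filter]
    exact ⟨mem_univ _, by ring⟩
  have hkI : k ∉ I := by
    rw [hI, mem_filter]
    exact fun h => hk h.2
  have hα : ∑ l ∈ I, a l ≠ 0 := ha.sub I ⟨i, hiI⟩ (fun h => hkI (by rw [h]; exact mem_univ _))
  have hsa : ∑ l ∈ I, a l + ∑ l ∈ Iᶜ, a l = 0 := by
    rw [sum_add_sum_compl]
    exact ha.sum
  have hsb : ∑ l ∈ I, b l + ∑ l ∈ Iᶜ, b l = 0 := by
    rw [sum_add_sum_compl]
    exact hb
  have h1 : a i * ∑ l ∈ I, b l = b i * ∑ l ∈ I, a l := by
    rw [mul_sum, mul_sum]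
    apply sum_congr rfl
    intro l hl
    rw [hI, mem_filter] at hl
    linear_combination hl.2
  have h2 : a k * ∑ l ∈ Iᶜ, b l = b k * ∑ l ∈ Iᶜ, a l := by
    rw [mul_sum, mul_sum]
    apply sum_congr rfl
    intro l hl
    rw [mem_compl, hI, mem_filter] at hl
    have h3 := hor l (fun h => hl ⟨mem_univ _, h⟩)
    linear_combination h3
  have h3 : (∑ l ∈ I, a l) * (a i * b k - a k * b i) = 0 := by
    linear_combination (-(a i * a k)) * hsb + a k * h1 + a i * h2 + a i * b k * hsa
  rcases mul_eq_zero.1 h3 with h4 | h4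
  · exact hα h4
  · exact hk h4

/-- three points in a space of dimension at most two -/
private theorem plane_dep {V : Submodule ℚ (Fin n → ℚ)} (hV : Module.finrank ℚ V ≤ 2)
    {a b z : Fin n → ℤ} (ha : toQ a ∈ V) (hb : toQ b ∈ V) (hz : toQ z ∈ V)
    (hab : ∃ i j, a i * b j - a j * b i ≠ 0) (i k j : Fin n) :
    (a i * b k - a k * b i) * z j = (a i * b j - a j * b i) * z k - (a k * b j - a j * b k) * z i := by
  have hdep : ¬ LinearIndependent ℚ (![⟨toQ a, ha⟩, ⟨toQ b, hb⟩, ⟨toQ z, hz⟩] : Fin 3 → V) := by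
    intro h
    have h1 := h.fintype_card_le_finrank
    rw [Fintype.card_fin] at h1
    omega
  rw [Fintype.not_linearIndependent_iff] at hdep
  obtain ⟨g, hg, i0, hi0⟩ := hdep
  rw [Fin.sum_univ_three] at hg
  simp only [Matrix.cons_val_zero, Matrix.cons_val_one, Matrix.cons_val_two, Matrix.head_cons,
    Matrix.tail_cons] at hg
  have hco : ∀ j, g 0 * (a j : ℚ) + g 1 * (b j : ℚ) + g 2 * (z j : ℚ) = 0 := by
    intro j
    have h1 := congrArg (fun v : V => (v : Fin n → ℚ) j) hg
    simpa [toQ] using h1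
  have hg2 : g 2 ≠ 0 := by
    intro h2
    obtain ⟨p, q, hpq⟩ := hab
    have e1 := hco p
    have e2 := hco q
    rw [h2, zero_mul, add_zero] at e1 e2
    have hm : ((a p : ℚ) * b q - a q * b p) ≠ 0 := by exact_mod_cast hpq
    have f0 : g 0 * ((a p : ℚ) * b q - a q * b p) = 0 := by
      linear_combination (b q : ℚ) * e1 - (b p : ℚ) * e2
    have f1 : g 1 * ((a p : ℚ) * b q - a q * b p) = 0 := by
      linear_combination (a p : ℚ) * e2 - (a q : ℚ) * e1
    have g0 : g 0 = 0 := (mul_eq_zero.1 f0).resolve_right hm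
    have g1 : g 1 = 0 := (mul_eq_zero.1 f1).resolve_right hm
    apply hi0
    fin_cases i0
    · exact g0
    · exact g1
    · exact h2
  have key : ((a i : ℚ) * b k - a k * b i) * z j =
      (a i * b j - a j * b i) * z k - (a k * b j - a j * b k) * z i := by
    have e1 := hco i
    have e2 := hco k
    have e3 := hco j
    have h3 : g 2 * (((a i : ℚ) * b k - a k * b i) * z j -
      ((a i * b j - a j * b i) * z k - (a k * b j - a j * b k) * z i)) = 0 := by
      linear_combination ((a i : ℚ) * b k - a k * b i) * e3 - ((a i : ℚ) * b j - a j * b i) * e2 +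
        ((a k : ℚ) * b j - a j * b k) * e1
    exact sub_eq_zero.1 ((mul_eq_zero.1 h3).resolve_left hg2)
  exact_mod_cast key

theorem plane (hn : 2 ≤ n) (hB : n ≤ B) (hK : KB n B K) {S : Finset (Fin n → ℤ)} (hS : Pts B S)
    (P : (Fin n → ℤ) → Finset ℕ) (hP : ∀ z ∈ S, P z ⊆ prs z) (i : Fin n)
    (hi : ∀ z ∈ S, ∀ p ∈ prs z, p ∉ P z → i ∈ pat z p)
    (hc : ∀ z ∈ S, ∀ z' ∈ S, part z (P z) = part z' (P z'))
    {V : Submodule ℚ (Fin n → ℚ)} (hV : Module.finrank ℚ V ≤ 2) (hSV : ∀ z ∈ S, toQ z ∈ V) :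
    (S.card : ℝ) ≤ K ^ 2 := by
  classical
  obtain ⟨hK1, hKE⟩ := hK
  by_cases hone : S.card ≤ 1
  · have h1 : (S.card : ℝ) ≤ 1 := by exact_mod_cast hone
    nlinarith
  obtain ⟨a, ha, b, hb, hne⟩ := one_lt_card.1 (not_le.1 hone)
  have hpa := hS.pt a ha
  have hpb := hS.pt b hb
  have hane := hpa.ne_zero hn
  -- not proportional
  have hab : ∃ i j, a i * b j - a j * b i ≠ 0 := by
    by_contra hcon
    push Not at hcon
    apply hne
    refine eq_of_finrank_le_one hn hS ha hb (V := Submodule.span ℚ {toQ a})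
      ((finrank_span_le_card _).trans (by simp)) (Submodule.mem_span_singleton_self _) ?_
    rw [Submodule.mem_span_singleton]
    refine ⟨(b i : ℚ) / a i, ?_⟩
    ext j
    have h1 := hcon i j
    have h2 : (a i : ℚ) ≠ 0 := by exact_mod_cast hane i
    have h3 : (a i : ℚ) * b j - a j * b i = 0 := by exact_mod_cast h1
    simp only [toQ, Pi.smul_apply, smul_eq_mul]
    rw [div_mul_eq_mul_div, div_eq_iff h2]
    linear_combination -h3
  obtain ⟨k, l, hik, hil, hkl⟩ := plane_three hn hpa hpb.sum hab i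
  have hdep := fun z (hz : z ∈ S) => plane_dep hV (hSV a ha) (hSV b hb) (hSV z hz) hab
  -- bound on the minors
  have hB2 : 2 ≤ B := hn.trans hB
  have hmin : ∀ j, (a i * b j - a j * b i).natAbs ≤ B ^ expo n := by
    intro j
    have h1 : |a i * b j - a j * b i| ≤ 2 * (B : ℤ) ^ 2 := by
      have f1 : |a i * b j| ≤ (B : ℤ) * B := by
        rw [abs_mul]
        exact mul_le_mul (hS.le a ha i) (hS.le b hb j) (abs_nonneg _) (by positivity)
      have f2 : |a j * b i| ≤ (B : ℤ) * B := by
        rw [abs_mul]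
        exact mul_le_mul (hS.le a ha j) (hS.le b hb i) (abs_nonneg _) (by positivity)
      have f3 := abs_sub (a i * b j) (a j * b i)
      nlinarith
    have h2 : ((a i * b j - a j * b i).natAbs : ℤ) ≤ 2 * (B : ℤ) ^ 2 := by
      rw [Int.natCast_natAbs]
      exact h1
    have h3 : (a i * b j - a j * b i).natAbs ≤ 2 * B ^ 2 := by exact_mod_cast h2
    have h4 : 2 * B ^ 2 ≤ B ^ 3 := by
      rw [pow_succ B 2, mul_comm]
      exact Nat.mul_le_mul_left _ hB2
    have h5 : 3 ≤ expo n := by
      unfold expo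
      have : 1 ≤ n ^ (n + 1) := Nat.one_le_pow _ _ (by omega)
      omega
    exact h3.trans (h4.trans (Nat.pow_le_pow_right (by omega) h5))
  have hsm : ∀ k', a i * b k' - a k' * b i ≠ 0 → ∀ z ∈ S,
      part z (prs z \ P z) k' ∈ smoothN (a i * b k' - a k' * b i).natAbs B := by
    intro k' _ z hz
    have hsub : prs z \ P z ⊆ prs z := sdiff_subset
    have hpz := hS.pt z hz
    rw [mem_smoothN]
    refine ⟨⟨part_pos hsub k', part_le hn hpz hsub (hS.le z hz) k'⟩, ?_⟩
    intro p hp hpd
    obtain ⟨h1, h2⟩ := (dvd_part_iff hn hpz hsub hp k').1 hpd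
    rw [mem_sdiff] at h1
    have h3 := hi z hz p h1.1 h1.2
    rw [pat, mem_filter] at h3
    have hpi : Prime (p : ℤ) := Nat.prime_iff_prime_int.1 hp
    obtain ⟨j, hj⟩ : ∃ j, ¬ (p : ℤ) ∣ z j := by
      by_contra hcon
      push Not at hcon
      apply pat_ne_univ hpz p hp
      rw [pat, filter_true_of_mem]
      intro j _
      exact hcon j
    have h4 := hdep z hz i k' j
    have h5 : (p : ℤ) ∣ (a i * b k' - a k' * b i) * z j := by
      rw [h4]
      exact dvd_sub (dvd_mul_of_dvd_right h2 _) (dvd_mul_of_dvd_right h3.2 _)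
    rcases hpi.dvd_or_dvd h5 with h6 | h6
    · exact Int.natCast_dvd.1 h6
    · exact absurd h6 hj
  -- the injection
  have hcard : S.card ≤ (smoothN (a i * b k - a k * b i).natAbs B ×ˢ
      smoothN (a i * b l - a l * b i).natAbs B).card := by
    apply card_le_card_of_injOn (fun z => (part z (prs z \ P z) k, part z (prs z \ P z) l))
    · intro z hz
      rw [mem_coe] at hz
      rw [mem_coe, mem_product]
      exact ⟨hsm k hik z hz, hsm l hil z hz⟩
    · intro z hz z' hz' he
      rw [mem_coe] at hz hz'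
      simp only [Prod.mk.injEq] at he
      have habs : ∀ j, part z (prs z \ P z) j = part z' (prs z' \ P z') j → z j = z' j := by
        intro j hj
        have h1 : (z j).natAbs = (z' j).natAbs := by
          rw [← part_prs hn (hS.pt z hz) j, ← part_prs hn (hS.pt z' hz') j,
            ← part_mul_sdiff (hP z hz) j, ← part_mul_sdiff (hP z' hz') j, hj, hc z hz z' hz']
        rw [← Int.sign_mul_natAbs (z j), ← Int.sign_mul_natAbs (z' j), h1, hS.sign z hz z' hz' j]
      have hk1 := habs k he.1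
      have hl1 := habs l he.2
      funext j
      have h2 := hdep z hz k l j
      have h3 := hdep z' hz' k l j
      rw [hk1, hl1, ← h3] at h2
      exact mul_left_cancel₀ hkl h2
  have hk2 := hKE _ (Int.natAbs_pos.2 hik) (hmin k)
  have hl2 := hKE _ (Int.natAbs_pos.2 hil) (hmin l)
  calc (S.card : ℝ) ≤ ((smoothN (a i * b k - a k * b i).natAbs B ×ˢ
      smoothN (a i * b l - a l * b i).natAbs B).card : ℝ) := by exact_mod_cast hcard
    _ = ((smoothN (a i * b k - a k * b i).natAbs B).card : ℝ) *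
        (smoothN (a i * b l - a l * b i).natAbs B).card := by
        rw [card_product]
        push_cast
        rfl
    _ ≤ K * K := mul_le_mul hk2 hl2 (Nat.cast_nonneg _) (by linarith)
    _ = K ^ 2 := by ring

end Pool.Agent.GL33
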