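import Pool.Agent.GL33.Tuple
import Pool.Agent.GL33.Span

/-!
# GL33/Sample: counting independent tuples in the fibres

`tups Ys Yg c r` : the independent `r`-tuples of points of `Ys` in one fibre of `c` through a point of
`Yg`.

Proof of `sample`. For a value `γ` of `c` let `F γ = {x ∈ Ys | c x = γ}`. Call `γ ∈ Yg.image c` bad if
there is a subspace `W γ` with `finrank (W γ) < r` and `|F γ| < 2 r |{x ∈ F γ | toQ x ∈ W γ}|`. Let
`Y'` be the union over the bad `γ` of the sets `{x ∈ F γ | toQ x ∈ W γ}`. If `Y'` is nonempty: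
`rk Y' c < r` (the fibre of `Y'` through `x` lies in `W (c x)`; `rk_lt_of`), so
`|Y'| ≤ |Ys| exp (-α) ≤ |Ys| / (8 r)` by `hrob`. So the union of the bad `F γ` has at most
`2 r |Y'| ≤ |Ys| / 4` elements. The union of all `F γ`, `γ ∈ Yg.image c`, contains `Yg`, so it has at
least `|Ys| / 2` elements, and the good ones (`G ⊆ Yg.image c`) satisfy `∑ γ ∈ G, |F γ| ≥ |Ys| / 4`.
`tuple_card` for good `γ`: at least `|F γ| ^ r / 2` independent tuples, all in `tups`, and for different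
`γ` disjoint (`r ≥ 1`). Finally `(∑ γ ∈ G, |F γ|) ^ r ≤ |G| ^ (r - 1) * ∑ γ ∈ G, |F γ| ^ r`
(`inner_le_nnorm_mul_nnorm`/`inner_le`...: `Finset.inner_mul_le_norm_mul_norm` is not needed, use
`inv_mul_le..`, i.e. `Real.pow_sum_div_card_le_sum_pow` or `pow_sum_div_card_le_sum_pow`:
`(∑ f) ^ (k + 1) / card ^ k ≤ ∑ f ^ (k + 1)`), `|G| ≤ |Yg.image c|`.
-/

namespace Pool.Agent.GL33

open Finset H4Cnt

variable {n : ℕ}

open Classical in
/-- The independent `r`-tuples of points of `Ys` in one fibre of `c` through a point of `Yg`. -/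
noncomputable def tups (Ys Yg : Finset (Fin n → ℤ)) (c : (Fin n → ℤ) → (Fin n → ℕ)) (r : ℕ) :
    Finset (Fin r → Fin n → ℤ) :=
  (Fintype.piFinset fun _ : Fin r => Ys).filter fun t =>
    LinearIndependent ℚ (fun s => toQ (t s)) ∧ ∃ z ∈ Yg, ∀ s, c (t s) = c z

theorem sample {Ys Yg : Finset (Fin n → ℤ)} {c : (Fin n → ℤ) → (Fin n → ℕ)} {r : ℕ} (hr : 1 ≤ r)
    {α : ℝ} (hrob : Rob Ys c r α) (hα : Real.log (8 * r) ≤ α) (hsub : Yg ⊆ Ys)
    (hcard : (Ys.card : ℝ) ≤ 2 * Yg.card) :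
    ((Ys.card : ℝ) / 4) ^ r ≤
      2 * ((Yg.image c).card : ℝ) ^ (r - 1) * ((tups Ys Yg c r).card : ℝ) := by
  classical
  have hrr : (1 : ℝ) ≤ r := by exact_mod_cast hr
  rcases Ys.eq_empty_or_nonempty with hY0 | hYne
  · rw [hY0]
    simp only [card_empty, Nat.cast_zero, zero_div]
    rw [zero_pow (by omega)]
    positivity
  have hYpos : (0 : ℝ) < Ys.card := by exact_mod_cast card_pos.2 hYne
  set F : (Fin n → ℕ) → Finset (Fin n → ℤ) := fun γ => Ys.filter fun x => c x = γ with hF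
  set bad : (Fin n → ℕ) → Prop := fun γ => ∃ W : Submodule ℚ (Fin n → ℚ),
    Module.finrank ℚ W < r ∧ (F γ).card < 2 * r * ((F γ).filter fun x => toQ x ∈ W).card with hbad
  set W : (Fin n → ℕ) → Submodule ℚ (Fin n → ℚ) := fun γ =>
    if h : bad γ then h.choose else ⊥ with hW
  have hWs : ∀ γ, bad γ → Module.finrank ℚ (W γ) < r ∧
      (F γ).card < 2 * r * ((F γ).filter fun x => toQ x ∈ W γ).card := by
    intro γ h
    have hWγ : W γ = h.choose := dif_pos h
    rw [hWγ]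
    exact h.choose_spec
  set Γ := Yg.image c with hΓ
  set Gb := Γ.filter fun γ => bad γ with hGb
  set Gg := Γ.filter fun γ => ¬ bad γ with hGg
  set Y' := Gb.biUnion fun γ => (F γ).filter fun x => toQ x ∈ W γ with hY'
  have hFmem : ∀ γ x, x ∈ F γ ↔ x ∈ Ys ∧ c x = γ := by
    intro γ x
    simp only [hF, mem_filter]
  -- the exceptional set is small
  have hY'sub : Y' ⊆ Ys := by
    intro x hx
    rw [hY', mem_biUnion] at hx
    obtain ⟨γ, _, hx⟩ := hx
    exact ((hFmem γ x).1 (mem_filter.1 hx).1).1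
  have hY'card : (Y'.card : ℝ) ≤ Ys.card / (8 * r) := by
    rcases Y'.eq_empty_or_nonempty with h | h
    · rw [h]
      simp only [card_empty, Nat.cast_zero]
      positivity
    · have hrk : rk Y' c < r := by
        apply rk_lt_of (by omega)
        intro z hz
        rw [hY', mem_biUnion] at hz
        obtain ⟨γ, hγ, hz⟩ := hz
        rw [hGb, mem_filter] at hγ
        have hcz : c z = γ := ((hFmem γ z).1 (mem_filter.1 hz).1).2
        have hle : spn Y' c z ≤ W γ := by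
          unfold spn
          rw [Submodule.span_le]
          rintro v ⟨z', ⟨hz', hc'⟩, rfl⟩
          rw [hY', mem_biUnion] at hz'
          obtain ⟨γ', _, hz'⟩ := hz'
          have hcz' : c z' = γ' := ((hFmem γ' z').1 (mem_filter.1 hz').1).2
          have hγγ : γ' = γ := by rw [← hcz', hc', hcz]
          rw [hγγ] at hz'
          exact (mem_filter.1 hz').2
        exact (Submodule.finrank_mono hle).trans_lt (hWs γ hγ.2).1
      have h1 := hrob Y' hY'sub h hrk
      have hpos' : (0 : ℝ) < Y'.card := by exact_mod_cast card_pos.2 h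
      have h2 : Real.log Y'.card ≤ Real.log (Ys.card / (8 * r)) := by
        rw [Real.log_div hYpos.ne' (by positivity)]
        linarith
      exact (Real.log_le_log_iff hpos' (by positivity)).1 h2
  -- the bad fibres
  have hdisj : ∀ (T : Finset (Fin n → ℕ)) (S : (Fin n → ℕ) → Finset (Fin n → ℤ)),
      (∀ γ ∈ T, S γ ⊆ F γ) → (T.biUnion S).card = ∑ γ ∈ T, (S γ).card := by
    intro T S hS
    apply card_biUnion
    intro γ hγ γ' hγ' hne
    rw [Function.onFun, disjoint_left]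
    intro x hx hx'
    apply hne
    rw [← ((hFmem γ x).1 (hS γ hγ hx)).2, ← ((hFmem γ' x).1 (hS γ' hγ' hx')).2]
  have hbadsum : (∑ γ ∈ Gb, (F γ).card : ℝ) ≤ Ys.card / 4 := by
    have h1 : (∑ γ ∈ Gb, (F γ).card : ℝ) ≤ 2 * r * (Y'.card : ℝ) := by
      rw [hY', hdisj Gb _ (fun γ _ => filter_subset _ _)]
      push_cast
      rw [mul_sum]
      apply sum_le_sum
      intro γ hγ
      rw [hGb, mem_filter] at hγ
      exact_mod_cast (hWs γ hγ.2).2.le
    calc (∑ γ ∈ Gb, (F γ).card : ℝ) ≤ 2 * r * (Y'.card : ℝ) := h1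
      _ ≤ 2 * r * (Ys.card / (8 * r)) := mul_le_mul_of_nonneg_left hY'card (by positivity)
      _ = Ys.card / 4 := by field_simp; norm_num
  -- all fibres
  have hallsum : (Ys.card : ℝ) / 2 ≤ ∑ γ ∈ Γ, ((F γ).card : ℝ) := by
    have h1 : Yg ⊆ Γ.biUnion F := by
      intro x hx
      rw [mem_biUnion]
      exact ⟨c x, mem_image_of_mem c hx, (hFmem _ _).2 ⟨hsub hx, rfl⟩⟩
    have h2 := card_le_card h1
    rw [hdisj Γ F (fun γ _ => subset_rfl)] at h2
    have h3 : (Yg.card : ℝ) ≤ ∑ γ ∈ Γ, ((F γ).card : ℝ) := by exact_mod_cast h2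
    linarith
  have hsplit : ∑ γ ∈ Γ, ((F γ).card : ℝ) = ∑ γ ∈ Gb, ((F γ).card : ℝ) +
      ∑ γ ∈ Gg, ((F γ).card : ℝ) := (sum_filter_add_sum_filter_not Γ _ _).symm
  have hgood : (Ys.card : ℝ) / 4 ≤ ∑ γ ∈ Gg, ((F γ).card : ℝ) := by linarith
  -- tuples
  have htup : ∑ γ ∈ Gg, ((F γ).card : ℝ) ^ r ≤ 2 * ((tups Ys Yg c r).card : ℝ) := by
    set U : (Fin n → ℕ) → Finset (Fin r → Fin n → ℤ) := fun γ =>
      (Fintype.piFinset fun _ : Fin r => F γ).filter fun t =>
        LinearIndependent ℚ fun s => toQ (t s) with hU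
    have h1 : ∀ γ ∈ Gg, ((F γ).card : ℝ) ^ r ≤ 2 * ((U γ).card : ℝ) := by
      intro γ hγ
      rw [hGg, mem_filter] at hγ
      have h2 := tuple_card (F γ) r (by
        intro W' hW'
        by_contra hcon
        exact hγ.2 ⟨W', hW', not_le.1 hcon⟩)
      exact_mod_cast h2
    have h2 : ∑ γ ∈ Gg, (U γ).card ≤ (tups Ys Yg c r).card := by
      rw [← card_biUnion]
      · apply card_le_card
        intro t ht
        rw [mem_biUnion] at ht
        obtain ⟨γ, hγ, ht⟩ := ht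
        simp only [hU, mem_filter, Fintype.mem_piFinset] at ht
        rw [hGg, mem_filter, hΓ, mem_image] at hγ
        obtain ⟨⟨z, hz, hzγ⟩, _⟩ := hγ
        rw [tups, mem_filter, Fintype.mem_piFinset]
        refine ⟨fun s => ((hFmem _ _).1 (ht.1 s)).1, ht.2, z, hz, fun s => ?_⟩
        rw [((hFmem _ _).1 (ht.1 s)).2, hzγ]
      · intro γ _ γ' _ hne
        rw [Function.onFun, disjoint_left]
        intro t ht ht'
        simp only [hU, mem_filter, Fintype.mem_piFinset] at ht ht'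
        apply hne
        have e1 := ((hFmem _ _).1 (ht.1 ⟨0, by omega⟩)).2
        have e2 := ((hFmem _ _).1 (ht'.1 ⟨0, by omega⟩)).2
        rw [← e1, ← e2]
    calc ∑ γ ∈ Gg, ((F γ).card : ℝ) ^ r ≤ ∑ γ ∈ Gg, 2 * ((U γ).card : ℝ) := sum_le_sum h1
      _ = 2 * ((∑ γ ∈ Gg, (U γ).card : ℕ) : ℝ) := by
          push_cast
          rw [mul_sum]
      _ ≤ 2 * ((tups Ys Yg c r).card : ℝ) :=
          mul_le_mul_of_nonneg_left (by exact_mod_cast h2) (by norm_num)
  -- power means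
  obtain ⟨m, rfl⟩ : ∃ m, r = m + 1 := ⟨r - 1, by omega⟩
  rw [Nat.add_sub_cancel]
  have hGgne : Gg.Nonempty := by
    by_contra h
    rw [not_nonempty_iff_eq_empty] at h
    rw [h, sum_empty] at hgood
    linarith
  have hGgpos : (0 : ℝ) < Gg.card := by exact_mod_cast card_pos.2 hGgne
  have hpm := pow_sum_div_card_le_sum_pow (s := Gg) (f := fun γ => ((F γ).card : ℝ))
    (fun γ _ => Nat.cast_nonneg _) m
  rw [div_le_iff₀ (by positivity)] at hpm
  have hGle : (Gg.card : ℝ) ≤ Γ.card := by exact_mod_cast card_le_card (filter_subset _ _)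
  calc ((Ys.card : ℝ) / 4) ^ (m + 1) ≤ (∑ γ ∈ Gg, ((F γ).card : ℝ)) ^ (m + 1) :=
        pow_le_pow_left₀ (by positivity) hgood _
    _ ≤ (∑ γ ∈ Gg, ((F γ).card : ℝ) ^ (m + 1)) * (Gg.card : ℝ) ^ m := hpm
    _ ≤ (2 * ((tups Ys Yg c (m + 1)).card : ℝ)) * (Γ.card : ℝ) ^ m := by
        apply mul_le_mul htup (pow_le_pow_left₀ hGgpos.le hGle m) (by positivity) (by positivity)
    _ = 2 * (Γ.card : ℝ) ^ m * ((tups Ys Yg c (m + 1)).card : ℝ) := by ring

end Pool.Agent.GL33
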