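import Pool.Agent.GL33.Plane
import Pool.Agent.GL33.Reg
import Pool.Agent.GL33.Fact0

/-!
# GL33/Start: the first state

`sig₀ 𝒜 z` = the primes of `z` with pattern not in `𝒜`; `cv (sig₀ 𝒜) z` is the part of `z` composed of
these primes. `sig₀ ∅ z = prs z`.

`start_low` (all stars have rank one). If `cv (sig₀ (star i))` is injective on `Ys`,
`star i = {T | i ∈ T}`, then, as `∏ p ∈ sig₀ (star i) z, p ≤ ∏ T ∌ i, 2 R T` (`Cls.prod_le`), we get
`|Ys| ≤ (∏ T ∌ i, 2 R T) K ^ n` (`part_mem_vecs`, `card_vecs_le`), i.e.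
`∑ T ∋ i, log (2 R T) ≤ rho R - log |Ys| + n log K` (`log_prod`). Sum over `i`:
`∑ T, |T| log (2 R T) ≤ n (rho R - log |Ys|) + n ^ 2 log K`, and
`∑ T, |T| log (2 R T) ≥ rho R - log (2 R ∅) = rho R - log 2` (`R ∅ ≤ radT z ∅ = 1`, `log_R_nonneg`).

`start_fib`: if `cv (sig₀ 𝒜)` is injective on `Ys` then all fibres of `cv (sig₀ (insert T 𝒜))` in `Ys`
have at most `2 R T * K ^ n` elements: on such a fibre, the vector
`part z (sig₀ 𝒜 z \ sig₀ (insert T 𝒜) z) ∈ vecs n (2 R T) B` determines `cv (sig₀ 𝒜) z`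
(`part_mul_sdiff`) and so `z`. With `fact0`.

`start_rank`: if `Rob Ys (cv (sig₀ 𝒜)) 2 α'` with `𝒜 ⊆ star i` and `2 log K < α'`, then some fibre
spans more than dimension `2`: otherwise by `plane` (`P = sig₀ 𝒜`, `i`; the primes of `prs z` not in
`sig₀ 𝒜 z` have pattern in `𝒜`, so containing `i`) all fibres have at most `K ^ 2` elements; choose one
element in every fibre: `Y' ⊆ Ys` with `|Ys| ≤ K ^ 2 |Y'|` and `rk Y' (cv (sig₀ 𝒜)) ≤ 1 < 2` (every span
is the line of one point), contradiction to `Rob`.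
-/

namespace Pool.Agent.GL33

open Finset H4Cnt

variable {n B : ℕ} {K : ℝ} {X Ys : Finset (Fin n → ℤ)} {R : Finset (Fin n) → ℕ} {α' : ℝ}

/-- The patterns containing `i`. -/
def star {n : ℕ} (i : Fin n) : Finset (Finset (Fin n)) := univ.filter fun T => i ∈ T

private theorem sig₀_sub (𝒜 : Finset (Finset (Fin n))) (z : Fin n → ℤ) : sig₀ 𝒜 z ⊆ prs z :=
  filter_subset _ _

private theorem K_pos (hK : KB n B K) : 0 < K := lt_of_lt_of_le one_pos hK.1

private theorem log_pow_K (hK : KB n B K) (Q : ℕ) (hQ : 0 < Q) :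
    Real.log (Q * K ^ n) = Real.log Q + n * Real.log K := by
  have hK0 := K_pos hK
  have hQ0 : (0 : ℝ) < Q := by exact_mod_cast hQ
  rw [Real.log_mul hQ0.ne' (by positivity), Real.log_pow]

theorem start_low (hn : 3 ≤ n) (hB : n ≤ B) (hK : KB n B K) (hX : Cls B X R) (hYs : Ys ⊆ X)
    (hne : Ys.Nonempty)
    (hinj : ∀ i, Set.InjOn (cv (sig₀ (star i))) (Ys : Set (Fin n → ℤ))) :
    rho R ≤ n * (rho R - Real.log Ys.card) + Real.log 2 + n ^ 2 * Real.log K := by
  classical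
  have hYs0 : (0 : ℝ) < Ys.card := by exact_mod_cast hne.card_pos
  -- one star
  have h1 : ∀ i : Fin n, ∑ T ∈ star i, Real.log (2 * (R T : ℝ)) ≤
      rho R - Real.log Ys.card + n * Real.log K := by
    intro i
    have h2 : Ys.card ≤ (vecs n (∏ T ∈ (star i)ᶜ, 2 * R T) B).card := by
      refine card_le_card_of_injOn (cv (sig₀ (star i))) (fun z hz => ?_) (hinj i)
      have hzX := hYs hz
      refine part_mem_vecs (by omega) (hX.pts.pt z hzX) (hX.pts.le z hzX) (sig₀_sub _ z) ?_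
      refine hX.prod_le hzX _ (sig₀_sub _ z) fun p hp => ?_
      rw [mem_compl]
      exact (mem_filter.1 hp).2
    have h3 : (Ys.card : ℝ) ≤ ((∏ T ∈ (star i)ᶜ, 2 * R T : ℕ) : ℝ) * K ^ n :=
      (by exact_mod_cast h2 : (Ys.card : ℝ) ≤ _).trans (card_vecs_le (by omega) hK _)
    have hQ : 0 < ∏ T ∈ (star i)ᶜ, 2 * R T :=
      prod_pos fun T _ => by have := hX.one_le T; omega
    have h4 := Real.log_le_log hYs0 h3
    rw [log_pow_K hK _ hQ, log_prod hX.one_le] at h4
    have h5 : rho R = ∑ T ∈ star i, Real.log (2 * (R T : ℝ)) +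
        ∑ T ∈ (star i)ᶜ, Real.log (2 * (R T : ℝ)) := by
      unfold rho
      exact (sum_add_sum_compl _ _).symm
    linarith
  -- the sum over the stars
  have h2 : ∑ i : Fin n, ∑ T ∈ star i, Real.log (2 * (R T : ℝ)) =
      ∑ T, (T.card : ℝ) * Real.log (2 * (R T : ℝ)) := by
    have h3 : ∀ i : Fin n, ∑ T ∈ star i, Real.log (2 * (R T : ℝ)) =
        ∑ T, if i ∈ T then Real.log (2 * (R T : ℝ)) else 0 := by
      intro i
      unfold star
      rw [sum_filter]
    rw [sum_congr rfl fun i _ => h3 i, sum_comm]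
    refine sum_congr rfl fun T _ => ?_
    rw [← sum_filter, sum_const, filter_mem_eq_inter, univ_inter, nsmul_eq_mul]
  have hR0 : R ∅ = 1 := by
    obtain ⟨z, hz⟩ := hne
    have h3 := (hX.rad z (hYs hz) ∅).1
    rw [radT_empty (by omega) (hX.pts.pt z (hYs hz))] at h3
    have h4 := hX.one_le ∅
    omega
  have h3 : rho R - Real.log 2 ≤ ∑ T, (T.card : ℝ) * Real.log (2 * (R T : ℝ)) := by
    have h4 := rho_erase R ∅
    rw [hR0] at h4
    have h5 : ∑ T ∈ univ.erase ∅, Real.log (2 * (R T : ℝ)) ≤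
        ∑ T ∈ univ.erase ∅, (T.card : ℝ) * Real.log (2 * (R T : ℝ)) := by
      refine sum_le_sum fun T hT => ?_
      have h6 : T.Nonempty := nonempty_iff_ne_empty.2 (ne_of_mem_erase hT)
      have h7 : (1 : ℝ) ≤ T.card := by exact_mod_cast h6.card_pos
      exact le_mul_of_one_le_left (log_R_nonneg hX.one_le T) h7
    have h6 : ∑ T ∈ univ.erase ∅, (T.card : ℝ) * Real.log (2 * (R T : ℝ)) =
        ∑ T, (T.card : ℝ) * Real.log (2 * (R T : ℝ)) := by
      refine sum_subset (subset_univ _) fun T _ hT => ?_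
      have h7 : T = ∅ := by
        by_contra hne'
        exact hT (mem_erase.2 ⟨hne', mem_univ _⟩)
      rw [h7]
      simp
    rw [h6] at h5
    push_cast at h4
    rw [mul_one] at h4
    linarith
  have h4 : ∑ i : Fin n, ∑ T ∈ star i, Real.log (2 * (R T : ℝ)) ≤
      ∑ _i : Fin n, (rho R - Real.log Ys.card + n * Real.log K) := sum_le_sum fun i _ => h1 i
  rw [h2, sum_const, card_univ, Fintype.card_fin, nsmul_eq_mul] at h4
  have h5 : (n : ℝ) * (rho R - Real.log Ys.card + n * Real.log K) =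
      n * (rho R - Real.log Ys.card) + n ^ 2 * Real.log K := by ring
  linarith

theorem start_fib (hn : 3 ≤ n) (hB : n ≤ B) (hK : KB n B K) (hX : Cls B X R) (hYs : Ys ⊆ X)
    (𝒜 : Finset (Finset (Fin n))) (T : Finset (Fin n))
    (hinj : Set.InjOn (cv (sig₀ 𝒜)) (Ys : Set (Fin n → ℤ))) :
    ∀ z ∈ Ys, Real.log (Ys.filter fun z' =>
      cv (sig₀ (insert T 𝒜)) z' = cv (sig₀ (insert T 𝒜)) z).card ≤
        (rho R - Real.log X.card) + 3 * n * Real.log K := by
  classical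
  intro z hz
  have hXne : X.Nonempty := ⟨z, hYs hz⟩
  set F := Ys.filter fun z' =>
    cv (sig₀ (insert T 𝒜)) z' = cv (sig₀ (insert T 𝒜)) z with hF
  have hzF : z ∈ F := mem_filter.2 ⟨hz, rfl⟩
  have hsub : ∀ z' : Fin n → ℤ, sig₀ (insert T 𝒜) z' ⊆ sig₀ 𝒜 z' := by
    intro z' p hp
    rw [sig₀, mem_filter] at hp ⊢
    exact ⟨hp.1, fun h => hp.2 (mem_insert_of_mem h)⟩
  have h1 : F.card ≤ (vecs n (2 * R T) B).card := by
    refine card_le_card_of_injOn
      (fun z' => part z' (sig₀ 𝒜 z' \ sig₀ (insert T 𝒜) z')) (fun z' hz' => ?_) ?_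
    · have hzX := hYs (mem_filter.1 hz').1
      have hsub' : sig₀ 𝒜 z' \ sig₀ (insert T 𝒜) z' ⊆ prs z' :=
        sdiff_subset.trans (sig₀_sub _ z')
      refine part_mem_vecs (by omega) (hX.pts.pt z' hzX) (hX.pts.le z' hzX) hsub' ?_
      have h2 := hX.prod_le hzX {T} hsub' (fun p hp => by
        rw [mem_sdiff, sig₀, sig₀, mem_filter, mem_filter] at hp
        obtain ⟨⟨hp1, hp2⟩, hp3⟩ := hp
        rw [mem_singleton]
        by_contra hcon
        exact hp3 ⟨hp1, fun h => by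
          rcases mem_insert.1 h with h | h
          · exact hcon h
          · exact hp2 h⟩)
      rwa [prod_singleton] at h2
    · intro z₁ hz₁ z₂ hz₂ h
      have hz₁' := mem_filter.1 (mem_coe.1 hz₁)
      have hz₂' := mem_filter.1 (mem_coe.1 hz₂)
      refine hinj hz₁'.1 hz₂'.1 ?_
      have h2 : cv (sig₀ (insert T 𝒜)) z₁ = cv (sig₀ (insert T 𝒜)) z₂ :=
        hz₁'.2.trans hz₂'.2.symm
      funext i
      have h3 := part_mul_sdiff (z := z₁) (hsub z₁) i
      have h4 := part_mul_sdiff (z := z₂) (hsub z₂) i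
      have h5 : part z₁ (sig₀ (insert T 𝒜) z₁) i = part z₂ (sig₀ (insert T 𝒜) z₂) i :=
        congrFun h2 i
      have h6 : part z₁ (sig₀ 𝒜 z₁ \ sig₀ (insert T 𝒜) z₁) i =
          part z₂ (sig₀ 𝒜 z₂ \ sig₀ (insert T 𝒜) z₂) i := congrFun h i
      change part z₁ (sig₀ 𝒜 z₁) i = part z₂ (sig₀ 𝒜 z₂) i
      rw [← h3, ← h4, h5, h6]
  have h2 : (F.card : ℝ) ≤ ((2 * R T : ℕ) : ℝ) * K ^ n :=
    (by exact_mod_cast h1 : (F.card : ℝ) ≤ _).trans (card_vecs_le (by omega) hK _)
  have hF0 : (0 : ℝ) < F.card := by exact_mod_cast (card_pos.2 ⟨z, hzF⟩)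
  have h3 := Real.log_le_log hF0 h2
  rw [log_pow_K hK _ (by have := hX.one_le T; omega)] at h3
  have h4 := fact0 (by omega) hB hK hX hXne T
  push_cast at h3
  linarith

theorem start_rank (hn : 3 ≤ n) (hB : n ≤ B) (hK : KB n B K) (hYs : Pts B Ys) (hne : Ys.Nonempty)
    {i : Fin n} {𝒜 : Finset (Finset (Fin n))} (h𝒜 : 𝒜 ⊆ star i)
    (hrob : Rob Ys (cv (sig₀ 𝒜)) 2 α') (hα' : 2 * Real.log K < α') :
    3 ≤ rk Ys (cv (sig₀ 𝒜)) := by
  classical
  by_contra hcon
  rw [not_le] at hcon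
  set c := cv (sig₀ (n := n) 𝒜) with hc
  have hYs0 : (0 : ℝ) < Ys.card := by exact_mod_cast hne.card_pos
  have hK0 := K_pos hK
  -- the fibres are small
  have hfib : ∀ z ∈ Ys, ((Ys.filter fun z' => c z' = c z).card : ℝ) ≤ K ^ 2 := by
    intro z hz
    refine plane (V := spn Ys c z) (by omega) hB hK ⟨?_, ?_, ?_⟩ (sig₀ 𝒜)
      (fun z' _ => sig₀_sub _ z') i ?_ ?_ ?_ ?_
    · exact fun z' hz' => hYs.pt z' (mem_filter.1 hz').1
    · exact fun z' hz' => hYs.le z' (mem_filter.1 hz').1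
    · exact fun z' hz' z'' hz'' => hYs.sign z' (mem_filter.1 hz').1 z'' (mem_filter.1 hz'').1
    · intro z' _ p hp hp'
      have h1 : pat z' p ∈ 𝒜 := by
        by_contra h2
        exact hp' (mem_filter.2 ⟨hp, h2⟩)
      have h2 := h𝒜 h1
      rw [star, mem_filter] at h2
      exact h2.2
    · intro z' hz' z'' hz''
      exact (mem_filter.1 hz').2.trans (mem_filter.1 hz'').2.symm
    · have h1 := finrank_le_rk (c := c) hz
      omega
    · intro z' hz'
      exact mem_spn (mem_filter.1 hz').1 (mem_filter.1 hz').2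
  -- a system of representatives
  obtain ⟨S, hS, hbij⟩ := (Set.surjOn_image c (Ys : Set (Fin n → ℤ))).exists_bijOn_subset
  set Y' := Ys.filter fun z => z ∈ S with hY'
  have hY'S : ∀ z, z ∈ Y' ↔ z ∈ S := fun z =>
    ⟨fun h => (mem_filter.1 h).2, fun h => mem_filter.2 ⟨hS h, h⟩⟩
  have himg : Y'.image c = Ys.image c := by
    ext v
    rw [mem_image, mem_image]
    constructor
    · rintro ⟨z, hz, rfl⟩
      exact ⟨z, (mem_filter.1 hz).1, rfl⟩
    · rintro ⟨z, hz, rfl⟩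
      obtain ⟨w, hw, hwz⟩ := hbij.surjOn ⟨z, hz, rfl⟩
      exact ⟨w, (hY'S w).2 hw, hwz⟩
  have hinj : ∀ z ∈ Y', ∀ z' ∈ Y', c z = c z' → z = z' := fun z hz z' hz' h =>
    hbij.injOn ((hY'S z).1 hz) ((hY'S z').1 hz') h
  have hcard : (Y'.image c).card = Y'.card := card_image_of_injOn fun z hz z' hz' h =>
    hinj z hz z' hz' h
  have hY'ne : Y'.Nonempty := by
    rw [← card_pos, ← hcard, himg, card_pos]
    exact hne.image c
  have hrk : rk Y' c < 2 := by
    have h1 : rk Y' c ≤ 1 := by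
      refine rk_le_of_forall fun z hz => ?_
      have h2 : spn Y' c z ≤ Submodule.span ℚ {toQ z} := by
        unfold spn
        refine Submodule.span_mono ?_
        rintro v ⟨z', ⟨hz', h3⟩, rfl⟩
        rw [hinj z' hz' z hz h3]
        exact Set.mem_singleton _
      refine (Submodule.finrank_mono h2).trans ?_
      refine (finrank_span_le_card _).trans ?_
      simp
    omega
  have hlog := hrob Y' (filter_subset _ _) hY'ne hrk
  have hsum : (Ys.card : ℝ) ≤ K ^ 2 * Y'.card := by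
    rw [card_eq_sum_card_image c Ys, Nat.cast_sum, ← hcard, himg, mul_comm, ← nsmul_eq_mul]
    refine sum_le_card_nsmul _ _ _ fun e he => ?_
    obtain ⟨z, hz, rfl⟩ := mem_image.1 he
    exact hfib z hz
  have hY'0 : (0 : ℝ) < Y'.card := by exact_mod_cast hY'ne.card_pos
  have h1 := Real.log_le_log hYs0 hsum
  rw [Real.log_mul (by positivity) hY'0.ne', Real.log_pow] at h1
  push_cast at h1
  linarith

end Pool.Agent.GL33
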