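import Pool.Agent.GL33.FibG
import Pool.Agent.GL33.Sample

/-!
# GL33/TupCard: an upper bound for the number of independent tuples

Notation: `τ = sig Y σ univ`. `D` bounds `∏ p ∈ prs z \ τ z, p` on `Ys`.

Proof. `r ≥ 1` (`hr`). For `t ∈ tups Ys Yg (cv τ) r` let `A t : Fin r → Fin n → ℕ`,
`A t s = part (t s) (prs (t s) \ τ (t s))`; all `A t s ∈ vecs n D B` (`part_mem_vecs`), so `A` takes at
most `(D * K ^ n) ^ r` values (`Fintype.card_piFinset`, `card_vecs_le`). Fix a value `a` of `A`, attained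
at `t₀`; to show: the set `Θ` of the `t ∈ tups` with `A t = a` has at most `K ^ n` elements. The map
`t ↦ cv τ (t 0)` (`0 : Fin r`) is injective on `Θ`: all `cv τ (t s)` are equal to `cv τ (t 0)`, and
`t s` is determined by `cv τ (t s)` and `A t s` (`eq_of_sdiff`). We apply `card_of_dvd` to the image of
this map, with `E = nmin u`, where `u s i = Int.sign (t₀ s i) * a s i`, `|u s i| ≤ B`
(`0 < E ≤ B ^ (2 n ^ (n+1)) ≤ B ^ expo n` by `nmin_pos`, `nmin_le`; `r ≤ n`).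
Let `t ∈ Θ`, `p` a prime with `p ∣ cv τ (t 0) i`. There is `z ∈ Yg` with `cv τ (t s) = cv τ z` for all
`s`; let `c = cv τ z`. `p ∈ τ z` (`eq_of_part_eq` and `dvd_part_iff`; `p ∣ cv τ z i`), so by definition
of `sig` `p ∈ σ z` and `¬ Good (uspn Y σ z) p`. Let `V = spn Y (cv σ) z = spn Ys (cv τ) z` (`spans_eq`),
of dimension `r` (`hSt.rank`). `scl c⁻¹ V = scl D' (uspn Y σ z)` with `D' i = cv σ z i / cv τ z i =
part z (σ z \ τ z) i` (`part_mul_sdiff`), of valuation `0` at `p` (`val_part_of_not_mem`), so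
`¬ Good (scl c⁻¹ V) p` by `good_scl_iff`. The `toQ (t s)` are independent elements of
`V = spn Ys (cv τ) z` (`mem_spn`), so they span it; `toQ (u s) = c⁻¹ * toQ (t s)` (same signs as `t₀`),
so the `toQ (u s)` are independent with span `scl c⁻¹ V`. `bad_dvd`: `p ∣ nmin u`.
-/

namespace Pool.Agent.GL33

open Finset H4Cnt

variable {n B : ℕ} {K : ℝ} {Y Ys Yg : Finset (Fin n → ℤ)} {σ : (Fin n → ℤ) → Finset ℕ} {r : ℕ}
  {α f : ℝ}

private theorem tc_dvd (hn : 3 ≤ n) (hY : Pts B Y) (hSt : St Y σ r α f)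
    (hYs : Ys ⊆ Y) (hYg : Yg ⊆ Ys)
    (h1 : ∀ z ∈ Yg, Module.finrank ℚ (spn Ys (cv σ) z) = r)
    (h2 : ∀ z ∈ Yg, Module.finrank ℚ (spn Ys (cv (sig Y σ univ)) z) = r)
    {t : Fin r → Fin n → ℤ} (ht : ∀ s, t s ∈ Ys)
    (hli : LinearIndependent ℚ (fun s => toQ (t s))) {z : Fin n → ℤ} (hz : z ∈ Yg)
    (htz : ∀ s, cv (sig Y σ univ) (t s) = cv (sig Y σ univ) z)
    (u : Fin r → Fin n → ℤ)
    (hu : ∀ s i, u s i = Int.sign (t s i) *
      ((part (t s) (prs (t s) \ sig Y σ univ (t s)) i : ℕ) : ℤ))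
    {p : ℕ} (hp : p.Prime) {i : Fin n} (hpd : p ∣ cv (sig Y σ univ) z i) : p ∣ nmin u := by
  classical
  have hn2 : 2 ≤ n := by omega
  have hzY : z ∈ Y := hYs (hYg hz)
  have hτσ : ∀ w, sig Y σ univ w ⊆ σ w := fun w => sig_sub Y σ univ w
  have hτP : ∀ w ∈ Y, sig Y σ univ w ⊆ prs w := fun w hw => (hτσ w).trans (hSt.sub w hw)
  have hpd' : p ∣ part z (sig Y σ univ z) i := hpd
  rw [dvd_part_iff hn2 (hY.pt z hzY) (hτP z hzY) hp] at hpd'
  obtain ⟨hpτ, -⟩ := hpd'
  have hbad : ¬ Good (uspn Y σ z) p := by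
    have h3 := hpτ
    unfold sig at h3
    rw [mem_filter] at h3
    exact fun h => h3.2 ⟨mem_univ _, h⟩
  have hcτ : ∀ j, (cv (sig Y σ univ) z j : ℚ) ≠ 0 := fun j => by
    exact_mod_cast (part_pos (hτP z hzY) j).ne'
  have hcσ : ∀ j, (cv σ z j : ℚ) ≠ 0 := fun j => by
    exact_mod_cast (part_pos (hSt.sub z hzY) j).ne'
  have hV : spn Ys (cv (sig Y σ univ)) z = spn Y (cv σ) z :=
    spans_eq hn hY hSt hYs hYg univ h1 h2 hz
  have hr : Module.finrank ℚ (spn Y (cv σ) z) = r := hSt.rank z hzY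
  -- the tuple spans V
  have hspan : Submodule.span ℚ (Set.range fun s => toQ (t s)) = spn Y (cv σ) z := by
    apply Submodule.eq_of_le_of_finrank_eq
    · rw [Submodule.span_le]
      rintro _ ⟨s, rfl⟩
      rw [← hV]
      exact mem_spn (ht s) (htz s)
    · rw [finrank_span_eq_card hli, hr, Fintype.card_fin]
  have htoQ : ∀ s, toQ (u s) =
      LinearMap.mulLeft ℚ (fun j => ((cv (sig Y σ univ) z j : ℚ))⁻¹) (toQ (t s)) := by
    intro s
    funext j
    have htY : t s ∈ Y := hYs (ht s)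
    have h4 : part (t s) (sig Y σ univ (t s)) j *
        part (t s) (prs (t s) \ sig Y σ univ (t s)) j = (t s j).natAbs := by
      rw [part_mul_sdiff (hτP _ htY), part_prs hn2 (hY.pt _ htY)]
    have h5 : (cv (sig Y σ univ) (t s) j : ℤ) *
        (part (t s) (prs (t s) \ sig Y σ univ (t s)) j : ℤ) = ((t s j).natAbs : ℤ) := by
      exact_mod_cast h4
    have h6 : (t s j : ℤ) = (cv (sig Y σ univ) z j : ℤ) * u s j := by
      rw [hu, ← htz s]
      calc (t s j : ℤ) = Int.sign (t s j) * ((t s j).natAbs : ℤ) :=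
            (Int.sign_mul_natAbs _).symm
        _ = _ := by rw [← h5]; ring
    show ((u s j : ℤ) : ℚ) = ((cv (sig Y σ univ) z j : ℚ))⁻¹ * ((t s j : ℤ) : ℚ)
    rw [h6]
    push_cast
    rw [inv_mul_cancel_left₀ (hcτ j)]
  have hinj : Function.Injective
      (LinearMap.mulLeft ℚ (fun j => ((cv (sig Y σ univ) z j : ℚ))⁻¹) :
        (Fin n → ℚ) →ₗ[ℚ] (Fin n → ℚ)) := by
    intro v w hvw
    funext j
    have h7 := congrFun hvw j
    simp only [LinearMap.mulLeft_apply, Pi.mul_apply] at h7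
    exact mul_left_cancel₀ (inv_ne_zero (hcτ j)) h7
  have hfun : (fun s => toQ (u s)) =
      (LinearMap.mulLeft ℚ (fun j => ((cv (sig Y σ univ) z j : ℚ))⁻¹) :
        (Fin n → ℚ) →ₗ[ℚ] (Fin n → ℚ)) ∘ (fun s => toQ (t s)) := by
    funext s
    exact htoQ s
  have hliu : LinearIndependent ℚ (fun s => toQ (u s)) := by
    rw [hfun]
    exact hli.map' _ (LinearMap.ker_eq_bot.2 hinj)
  have hspanu : Submodule.span ℚ (Set.range fun s => toQ (u s)) =
      scl (fun j => ((cv (sig Y σ univ) z j : ℚ))⁻¹) (spn Y (cv σ) z) := by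
    rw [hfun, Set.range_comp, ← Submodule.map_span, hspan]
    rfl
  apply bad_dvd u hliu hp
  rw [hspanu]
  have hmul : ∀ j, (cv (sig Y σ univ) z j : ℚ) * (part z (σ z \ sig Y σ univ z) j : ℚ) =
      (cv σ z j : ℚ) := by
    intro j
    have h8 := part_mul_sdiff (z := z) (hτσ z) j
    exact_mod_cast h8
  have hPsub : σ z \ sig Y σ univ z ⊆ prs z := sdiff_subset.trans (hSt.sub z hzY)
  have hDne : ∀ j, (fun j => (part z (σ z \ sig Y σ univ z) j : ℚ)) j ≠ 0 := fun j => by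
    have := (part_pos hPsub j).ne'
    show (part z (σ z \ sig Y σ univ z) j : ℚ) ≠ 0
    exact_mod_cast this
  have hscl : scl (fun j => ((cv (sig Y σ univ) z j : ℚ))⁻¹) (spn Y (cv σ) z) =
      scl (fun j => (part z (σ z \ sig Y σ univ z) j : ℚ)) (uspn Y σ z) := by
    unfold uspn
    rw [scl_scl]
    congr 1
    funext j
    have h9 := hmul j
    have h10 := hcτ j
    have h11 := hcσ j
    rw [← h9] at h11 ⊢
    have h12 : (part z (σ z \ sig Y σ univ z) j : ℚ) ≠ 0 := hDne j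
    field_simp
  rw [hscl, good_scl_iff hp hDne]
  · exact hbad
  · intro j
    exact val_part_of_not_mem hPsub hp (fun h => (mem_sdiff.1 h).2 hpτ) j

theorem tup_card (hn : 3 ≤ n) (hB : n ≤ B) (hK : KB n B K) (hY : Pts B Y) (hSt : St Y σ r α f)
    (hr : 1 ≤ r) (hYs : Ys ⊆ Y) (hYg : Yg ⊆ Ys)
    (h1 : ∀ z ∈ Yg, Module.finrank ℚ (spn Ys (cv σ) z) = r)
    (h2 : ∀ z ∈ Yg, Module.finrank ℚ (spn Ys (cv (sig Y σ univ)) z) = r) (D : ℕ)
    (hD : ∀ z ∈ Ys, ∏ p ∈ prs z \ sig Y σ univ z, p ≤ D) :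
    ((tups Ys Yg (cv (sig Y σ univ)) r).card : ℝ) ≤ ((D : ℝ) * K ^ n) ^ r * K ^ n := by
  classical
  have hn2 : 2 ≤ n := by omega
  have hK0 : 0 ≤ K := by linarith [hK.1]
  have hτP : ∀ w ∈ Y, sig Y σ univ w ⊆ prs w := fun w hw =>
    (sig_sub Y σ univ w).trans (hSt.sub w hw)
  set Tp := tups Ys Yg (cv (sig Y σ univ)) r with hTp
  have hmem : ∀ t ∈ Tp, (∀ s, t s ∈ Ys) ∧ LinearIndependent ℚ (fun s => toQ (t s)) ∧
      ∃ z ∈ Yg, ∀ s, cv (sig Y σ univ) (t s) = cv (sig Y σ univ) z := by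
    intro t ht
    rw [hTp, tups, mem_filter, Fintype.mem_piFinset] at ht
    exact ⟨ht.1, ht.2⟩
  set A : (Fin r → Fin n → ℤ) → (Fin r → Fin n → ℕ) := fun t s =>
    part (t s) (prs (t s) \ sig Y σ univ (t s)) with hA
  -- the number of values of A
  have himg : ((Tp.image A).card : ℝ) ≤ ((D : ℝ) * K ^ n) ^ r := by
    have h3 : Tp.image A ⊆ Fintype.piFinset fun _ : Fin r => vecs n D B := by
      intro a ha
      rw [mem_image] at ha
      obtain ⟨t, ht, rfl⟩ := ha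
      rw [Fintype.mem_piFinset]
      intro s
      have hts := (hmem t ht).1 s
      exact part_mem_vecs hn2 (hY.pt _ (hYs hts)) (hY.le _ (hYs hts)) sdiff_subset (hD _ hts)
    have h4 := card_le_card h3
    rw [Fintype.card_piFinset_const] at h4
    have h5 : ((vecs n D B).card : ℝ) ≤ D * K ^ n := card_vecs_le (by omega) hK D
    calc ((Tp.image A).card : ℝ) ≤ ((vecs n D B).card : ℝ) ^ r := by
          exact_mod_cast h4
      _ ≤ ((D : ℝ) * K ^ n) ^ r := pow_le_pow_left₀ (by positivity) h5 r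
  -- the fibres of A
  have hfib : ∀ a ∈ Tp.image A, (Tp.filter fun t => A t = a).card ≤ ⌊K ^ n⌋₊ := by
    intro a ha
    rw [mem_image] at ha
    obtain ⟨t₀, ht₀, rfl⟩ := ha
    apply Nat.le_floor
    obtain ⟨ht₀s, ht₀li, z₀, hz₀, ht₀z⟩ := hmem t₀ ht₀
    have hrn : r ≤ n := by
      have h6 := finrank_lt (n := n) (by omega) (fun w hw => hY.pt w (hYs hw))
        (cv (sig Y σ univ)) z₀
      rw [h2 z₀ hz₀] at h6
      exact h6.le
    set u : Fin r → Fin n → ℤ := fun s i => Int.sign (t₀ s i) * ((A t₀ s i : ℕ) : ℤ) with hu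
    have huB : ∀ s i, |u s i| ≤ B := by
      intro s i
      have hY0 := hYs (ht₀s s)
      have h7 : A t₀ s i ≤ B :=
        part_le hn2 (hY.pt _ hY0) sdiff_subset (hY.le _ hY0) i
      have h8 : |Int.sign (t₀ s i)| ≤ 1 := by
        rcases lt_trichotomy (t₀ s i) 0 with h | h | h
        · rw [Int.sign_eq_neg_one_of_neg h]; norm_num
        · rw [h]; norm_num
        · rw [Int.sign_eq_one_of_pos h]; norm_num
      simp only [hu]
      rw [abs_mul, Nat.abs_cast]
      calc |Int.sign (t₀ s i)| * (A t₀ s i : ℤ) ≤ 1 * (B : ℤ) :=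
            mul_le_mul h8 (by exact_mod_cast h7) (by positivity) (by norm_num)
        _ = B := one_mul _
    have hEle : nmin u ≤ B ^ expo n := by
      refine (nmin_le (by omega) hrn hB u huB).trans ?_
      apply Nat.pow_le_pow_right (by omega)
      unfold expo
      omega
    have hsm : ∀ t ∈ Tp.filter fun t => A t = A t₀, ∀ s i, u s i = Int.sign (t s i) *
        ((part (t s) (prs (t s) \ sig Y σ univ (t s)) i : ℕ) : ℤ) := by
      intro t ht s i
      rw [mem_filter] at ht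
      have h9 : Int.sign (t₀ s i) = Int.sign (t s i) :=
        hY.sign _ (hYs (ht₀s s)) _ (hYs ((hmem t ht.1).1 s)) i
      have h10 : part (t s) (prs (t s) \ sig Y σ univ (t s)) = A t₀ s := by
        rw [← ht.2]
      simp only [hu]
      rw [h9, h10]
    have hinj : Set.InjOn (fun t : Fin r → Fin n → ℤ => cv (sig Y σ univ) (t ⟨0, by omega⟩))
        (Tp.filter fun t => A t = A t₀ : Finset _) := by
      intro t ht t' ht' htt
      rw [mem_coe, mem_filter] at ht ht'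
      obtain ⟨hts, -, z, hz, htz⟩ := hmem t ht.1
      obtain ⟨hts', -, z', hz', htz'⟩ := hmem t' ht'.1
      simp only at htt
      funext s
      have h11 : cv (sig Y σ univ) (t s) = cv (sig Y σ univ) (t' s) := by
        rw [htz s, ← htz ⟨0, by omega⟩, htt, htz' ⟨0, by omega⟩, ← htz' s]
      have h12 : A t s = A t' s := by rw [ht.2, ht'.2]
      exact eq_of_sdiff hn2 hY (hYs (hts s)) (hYs (hts' s)) (hτP _ (hYs (hts s)))
        (hτP _ (hYs (hts' s))) h11 h12
    have h13 := card_image_of_injOn hinj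
    rw [← h13]
    apply card_of_dvd hK (nmin_pos u) hEle
    intro v hv i
    rw [mem_image] at hv
    obtain ⟨t, ht, rfl⟩ := hv
    have ht' := ht
    rw [mem_filter] at ht'
    obtain ⟨hts, hli, z, hz, htz⟩ := hmem t ht'.1
    have hY1 := hYs (hts ⟨0, by omega⟩)
    refine ⟨part_pos (hτP _ hY1) i, part_le hn2 (hY.pt _ hY1) (hτP _ hY1) (hY.le _ hY1) i, ?_⟩
    intro p hp hpd
    rw [htz] at hpd
    exact tc_dvd hn hY hSt hYs hYg h1 h2 hts hli hz htz u (hsm t ht) hp hpd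
  have hcard := Finset.card_le_mul_card_image Tp ⌊K ^ n⌋₊ hfib
  have h5 : ((⌊K ^ n⌋₊ : ℕ) : ℝ) ≤ K ^ n := Nat.floor_le (by positivity)
  calc (Tp.card : ℝ) ≤ ((⌊K ^ n⌋₊ * (Tp.image A).card : ℕ) : ℝ) := by exact_mod_cast hcard
    _ = ((⌊K ^ n⌋₊ : ℕ) : ℝ) * ((Tp.image A).card : ℝ) := by push_cast; ring
    _ ≤ K ^ n * ((D : ℝ) * K ^ n) ^ r := by
        apply mul_le_mul h5 himg (by positivity) (by positivity)
    _ = ((D : ℝ) * K ^ n) ^ r * K ^ n := mul_comm _ _

end Pool.Agent.GL33
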