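import Pool.Agent.GL33.Defs

/-!
# GL33/Tuple: most tuples are independent

Statement. If every subspace `W` of dimension `< r` contains at most a fraction `1 / (2 r)` of the
`g x`, `x ∈ F`, then at least half of the `r`-tuples of elements of `F` have independent images.

Proof. Let `N k` be the number of the independent `k`-tuples. For an independent `k`-tuple `t`,
`k < r`, the span `W` of the `g (t s)` has dimension `k < r`; the tuple `Fin.snoc t x` is independent
iff `g x ∉ W` (`linearIndependent_finSnoc` or `linearIndependent_fin_cons`), so it has at least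
`|F| (1 - 1 / (2 r))` independent extensions: `N (k + 1) ≥ N k * |F| (1 - 1 / (2 r))`. So
`N r ≥ |F| ^ r (1 - 1 / (2 r)) ^ r ≥ |F| ^ r / 2` (Bernoulli, `one_add_mul_le_pow`). Alternatively:
every dependent `r`-tuple `t` has some `s` with `g (t s)` in the span `W` of the `g (t s')`, `s' ≠ s`,
of dimension `≤ r - 1` (`linearIndependent_iff_not_mem_span`); for given `s` and given `t` outside
`s` there are at most `|F| / (2 r)` values of `t s`; so at most `r * |F| ^ (r - 1) * |F| / (2 r)`
dependent tuples.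
-/

namespace Pool.Agent.GL33

open Finset H4Cnt

open Classical in
/-- the independent tuples -/
noncomputable def liT {n : ℕ} (F : Finset (Fin n → ℤ)) (k : ℕ) : Finset (Fin k → (Fin n → ℤ)) :=
  (Fintype.piFinset fun _ : Fin k => F).filter fun t => LinearIndependent ℚ fun s => toQ (t s)

open Classical in
theorem liT_succ {n : ℕ} (F : Finset (Fin n → ℤ)) (r : ℕ)
    (h : ∀ W : Submodule ℚ (Fin n → ℚ), Module.finrank ℚ W < r →
      2 * r * (F.filter fun x => toQ x ∈ W).card ≤ F.card) (k : ℕ) (hk : k < r) :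
    (2 * r - 1) * F.card * (liT F k).card ≤ 2 * r * (liT F (k + 1)).card := by
  set W : (Fin k → (Fin n → ℤ)) → Submodule ℚ (Fin n → ℚ) :=
    fun t => Submodule.span ℚ (Set.range fun s => toQ (t s)) with hW
  -- the extensions of one tuple
  have h1 : ∀ t ∈ liT F k, (2 * r - 1) * F.card ≤
      2 * r * (F.filter fun x => ¬ toQ x ∈ W t).card := by
    intro t ht
    obtain ⟨_, hli⟩ := Finset.mem_filter.1 ht
    have h2 : Module.finrank ℚ (W t) < r := by
      rw [hW]
      simp only
      rw [finrank_span_eq_card hli, Fintype.card_fin]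
      exact hk
    have h3 := h (W t) h2
    have h4 := Finset.card_filter_add_card_filter_not (s := F) (fun x => toQ x ∈ W t)
    have h5 : 2 * r * (F.filter fun x => toQ x ∈ W t).card +
        2 * r * (F.filter fun x => ¬ toQ x ∈ W t).card = 2 * r * F.card := by
      rw [← mul_add, h4]
    have h6 : (2 * r - 1) * F.card + F.card = 2 * r * F.card := by
      have : 2 * r = (2 * r - 1) + 1 := by omega
      conv_rhs => rw [this]
      ring
    omega
  -- the injection
  have h2 : ∑ t ∈ liT F k, (F.filter fun x => ¬ toQ x ∈ W t).card ≤ (liT F (k + 1)).card := by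
    rw [← Finset.card_sigma]
    apply Finset.card_le_card_of_injOn
      (fun p => (Fin.cons p.2 p.1 : Fin (k + 1) → (Fin n → ℤ)))
    · rintro ⟨t, x⟩ hp
      obtain ⟨ht, hx⟩ := Finset.mem_sigma.1 hp
      obtain ⟨htF, hli⟩ := Finset.mem_filter.1 ht
      obtain ⟨hxF, hxW⟩ := Finset.mem_filter.1 hx
      refine Finset.mem_coe.2 (Finset.mem_filter.2 ⟨?_, ?_⟩)
      · rw [Fintype.mem_piFinset]
        intro s
        refine Fin.cases ?_ (fun s => ?_) s
        · exact hxF
        · exact Fintype.mem_piFinset.1 htF s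
      · have e : (fun s => toQ ((Fin.cons x t : Fin (k + 1) → (Fin n → ℤ)) s)) =
            (Fin.cons (toQ x) (fun s => toQ (t s)) : Fin (k + 1) → (Fin n → ℚ)) := by
          funext s
          refine Fin.cases ?_ (fun s => ?_) s
          · simp
          · simp
        simp only
        rw [e, linearIndependent_finCons]
        exact ⟨hli, hxW⟩
    · rintro ⟨t, x⟩ _ ⟨t', x'⟩ _ hpp
      have h3 := Fin.cons_injective2 hpp
      obtain ⟨h4, h5⟩ := h3
      subst h4 h5
      rfl
  calc (2 * r - 1) * F.card * (liT F k).card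
      = ∑ t ∈ liT F k, (2 * r - 1) * F.card := by
        rw [Finset.sum_const, smul_eq_mul, mul_comm]
    _ ≤ ∑ t ∈ liT F k, 2 * r * (F.filter fun x => ¬ toQ x ∈ W t).card :=
        Finset.sum_le_sum h1
    _ = 2 * r * ∑ t ∈ liT F k, (F.filter fun x => ¬ toQ x ∈ W t).card := by
        rw [Finset.mul_sum]
    _ ≤ 2 * r * (liT F (k + 1)).card := Nat.mul_le_mul_left _ h2

open Classical in
theorem liT_pow {n : ℕ} (F : Finset (Fin n → ℤ)) (r : ℕ)
    (h : ∀ W : Submodule ℚ (Fin n → ℚ), Module.finrank ℚ W < r →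
      2 * r * (F.filter fun x => toQ x ∈ W).card ≤ F.card) (k : ℕ) (hk : k ≤ r) :
    ((2 * r - 1) * F.card) ^ k ≤ (2 * r) ^ k * (liT F k).card := by
  induction k with
  | zero =>
    have h0 : 1 ≤ (liT F 0).card := by
      apply Finset.card_pos.2
      refine ⟨fun s => s.elim0, Finset.mem_filter.2 ⟨?_, ?_⟩⟩
      · rw [Fintype.mem_piFinset]
        intro s
        exact s.elim0
      · exact linearIndependent_empty_type
    simpa using h0
  | succ k ih =>
    have h1 := ih (by omega)
    have h2 := liT_succ F r h k (by omega)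
    calc ((2 * r - 1) * F.card) ^ (k + 1)
        = ((2 * r - 1) * F.card) * ((2 * r - 1) * F.card) ^ k := by rw [pow_succ, mul_comm]
      _ ≤ ((2 * r - 1) * F.card) * ((2 * r) ^ k * (liT F k).card) := Nat.mul_le_mul_left _ h1
      _ = (2 * r) ^ k * ((2 * r - 1) * F.card * (liT F k).card) := by ring
      _ ≤ (2 * r) ^ k * (2 * r * (liT F (k + 1)).card) := Nat.mul_le_mul_left _ h2
      _ = (2 * r) ^ (k + 1) * (liT F (k + 1)).card := by rw [pow_succ]; ring

theorem bern (r : ℕ) : (2 * r) ^ r ≤ 2 * (2 * r - 1) ^ r := by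
  rcases Nat.eq_zero_or_pos r with h0 | hr
  · subst h0; norm_num
  have hr' : (1 : ℝ) ≤ r := by exact_mod_cast hr
  have hr0 : (0 : ℝ) < r := by linarith
  have h1 := one_add_mul_le_pow (a := -(1 / (2 * (r : ℝ)))) (by
    have : 1 / (2 * (r : ℝ)) ≤ 1 := by
      rw [div_le_one (by positivity)]; linarith
    linarith) r
  have h2 : 1 + (r : ℝ) * -(1 / (2 * (r : ℝ))) = 1 / 2 := by field_simp; norm_num
  rw [h2] at h1
  have h3 : (1 + -(1 / (2 * (r : ℝ)))) = (2 * (r : ℝ) - 1) / (2 * r) := by field_simp; ring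
  rw [h3, div_pow, le_div_iff₀ (by positivity)] at h1
  have h4 : ((2 * r - 1 : ℕ) : ℝ) = 2 * (r : ℝ) - 1 := by
    rw [Nat.cast_sub (by omega)]; push_cast; ring
  have h5 : (((2 * r) ^ r : ℕ) : ℝ) ≤ ((2 * (2 * r - 1) ^ r : ℕ) : ℝ) := by
    push_cast
    rw [h4]
    linarith
  exact_mod_cast h5

open Classical in
theorem tuple_card {n : ℕ} (F : Finset (Fin n → ℤ)) (r : ℕ)
    (h : ∀ W : Submodule ℚ (Fin n → ℚ), Module.finrank ℚ W < r →
      2 * r * (F.filter fun x => toQ x ∈ W).card ≤ F.card) :
    F.card ^ r ≤ 2 * ((Fintype.piFinset fun _ : Fin r => F).filter fun t =>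
      LinearIndependent ℚ fun s => toQ (t s)).card := by
  have h1 := liT_pow F r h r le_rfl
  have h2 := bern r
  have h3 : 0 < (2 * r) ^ r := by
    rcases Nat.eq_zero_or_pos r with h0 | hr
    · subst h0; norm_num
    · positivity
  have h4 : (2 * r) ^ r * F.card ^ r ≤ (2 * r) ^ r * (2 * (liT F r).card) := by
    calc (2 * r) ^ r * F.card ^ r ≤ 2 * (2 * r - 1) ^ r * F.card ^ r :=
          Nat.mul_le_mul_right _ h2
      _ = 2 * ((2 * r - 1) * F.card) ^ r := by rw [mul_pow]; ring
      _ ≤ 2 * ((2 * r) ^ r * (liT F r).card) := Nat.mul_le_mul_left _ h1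
      _ = (2 * r) ^ r * (2 * (liT F r).card) := by ring
  exact Nat.le_of_mul_le_mul_left h4 h3

end Pool.Agent.GL33
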